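import Pool.Agent.helper37.P2.SpecB
import Pool.Agent.helper43.P2.CHN

/-!
# Row p2:ENC
-/

set_option autoImplicit false

open scoped ContDiff Topology
open MeasureTheory Filter Set Metric MvPolynomial Pool.Agent.helper37.QA

namespace Pool.Agent.P2

/-! ### polynomials are holomorphic, Euler's relation -/

theorem ENC_evald (q : MvPolynomial (Fin 3) ℂ) : Differentiable ℂ fun x : E3 => eval x q := by
  induction q using MvPolynomial.induction_on with
  | C a => simp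
  | add p q hp hq =>
    simp only [map_add]
    exact hp.add hq
  | mul_X p n hp =>
    simp only [map_mul, eval_X]
    exact hp.mul (differentiable_apply n)

theorem ENC_Itd {d : ℕ} (f : Endo 2 d) (N : ℕ) (i : Fin 3) :
    Differentiable ℂ fun W : E3 => It f N W i := ENC_evald _

theorem ENC_Ithom {d : ℕ} (f : Endo 2 d) (N : ℕ) (c : ℂ) (Z : E3) :
    It f N (c • Z) = c ^ d ^ N • It f N Z := pmap_smul (iter_hom f.hom N) c Z

theorem ENC_euler {d : ℕ} (f : Endo 2 d) (N : ℕ) (i : Fin 3) (Z : E3) :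
    fderiv ℂ (fun W : E3 => It f N W i) Z Z = ((d ^ N : ℕ) : ℂ) * It f N Z i := by
  have h1 : HasDerivAt (fun t : ℂ => t • Z) Z 1 := by
    have h := (hasDerivAt_id (1 : ℂ)).smul_const Z
    rwa [one_smul] at h
  have h2 : HasDerivAt (fun t : ℂ => It f N (t • Z) i)
      (fderiv ℂ (fun W : E3 => It f N W i) Z Z) 1 := by
    have h3 : HasFDerivAt (fun W : E3 => It f N W i) (fderiv ℂ (fun W : E3 => It f N W i) Z)
        ((1 : ℂ) • Z) := by
      rw [one_smul]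
      exact (ENC_Itd f N i Z).hasFDerivAt
    exact h3.comp_hasDerivAt 1 h1
  have h4 : (fun t : ℂ => It f N (t • Z) i) = fun t : ℂ => t ^ d ^ N * It f N Z i := by
    funext t
    rw [ENC_Ithom]
    rfl
  have h5 : HasDerivAt (fun t : ℂ => t ^ d ^ N * It f N Z i)
      (((d ^ N : ℕ) : ℂ) * 1 ^ (d ^ N - 1) * It f N Z i) 1 :=
    (hasDerivAt_pow (d ^ N) (1 : ℂ)).mul_const _
  rw [h4] at h2
  rw [h2.unique h5, one_pow, mul_one]

/-- `cc` is linear in the vector -/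
theorem ENC_cc {d : ℕ} (f : Endo 2 d) (N : ℕ) (Z X : E3) :
    cc f N Z X = cv f N Z 0 * X 0 + cv f N Z 1 * X 1 + cv f N Z 2 * X 2 := by
  have hX : X = X 0 • (Pi.single 0 1 : E3) + X 1 • (Pi.single 1 1 : E3) +
      X 2 • (Pi.single 2 1 : E3) := by
    funext i
    fin_cases i <;> simp
  unfold cv
  conv_lhs => rw [hX]
  unfold cc
  simp only [map_add, map_smul, smul_eq_mul]
  ring

theorem ENC_cc_self {d : ℕ} (f : Endo 2 d) (N : ℕ) (Z : E3) : cc f N Z Z = 0 := by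
  unfold cc
  rw [ENC_euler, ENC_euler]
  ring

/-! ### the Levi form -/

theorem ENC_lev_smul (g : E3 → ℝ) (p a : E3) (hg : ContDiffAt ℝ 2 g p) (c : ℂ) :
    lev g p (c • a) = Complex.normSq c * lev g p a := by
  rw [CHN_lev g p _ hg, CHN_lev g p _ hg]
  have hsym : IsSymmSndFDerivAt ℝ g p := hg.isSymmSndFDerivAt (by simp)
  set B := fderiv ℝ (fderiv ℝ g) p with hB
  have e1 : c • a = c.re • a + c.im • (Complex.I • a) := by
    funext i
    simp only [Pi.smul_apply, Pi.add_apply, smul_eq_mul, Complex.real_smul]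
    conv_lhs => rw [← Complex.re_add_im c]
    ring
  have e2 : Complex.I • c • a = c.re • (Complex.I • a) - c.im • a := by
    funext i
    simp only [Pi.smul_apply, Pi.sub_apply, smul_eq_mul, Complex.real_smul]
    conv_lhs => rw [← Complex.re_add_im c]
    linear_combination (c.im * a i : ℂ) * Complex.I_mul_I
  have hs : B (Complex.I • a) a = B a (Complex.I • a) := hsym _ _
  rw [e2, e1]
  simp only [map_add, map_sub, map_smul, add_apply,
    sub_apply, smul_apply, smul_eq_mul]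
  rw [hs, Complex.normSq_apply]
  ring

theorem ENC_lev_hom (U : Set (PP 2)) (hU : IsOpen U) (Ψ : E3 → ℝ)
    (hΨ : ContDiffOn ℝ ∞ Ψ (cone U)) (hom : ∀ Z ∈ cone U, ∀ c : ℂ, c ≠ 0 → Ψ (c • Z) = Ψ Z)
    (Z : E3) (hZ : Z ∈ cone U) (E : E3) (s : ℂ) :
    lev Ψ Z (E + s • Z) = lev Ψ Z E := by
  have hopen : IsOpen (cone U) := cone_open hU
  have hat : ∀ W ∈ cone U, ContDiffAt ℝ 2 Ψ W := fun W hW =>
    (hΨ.contDiffAt (hopen.mem_nhds hW)).of_le ENat.LEInfty.out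
  have hZat := hat Z hZ
  -- the radial derivative vanishes
  have hrad : ∀ W ∈ cone U, ∀ c : ℂ, fderiv ℝ Ψ W (c • W) = 0 := by
    intro W hW c
    have h1 : HasDerivAt (fun t : ℝ => W + t • (c • W)) (c • W) 0 := by
      have h := ((hasDerivAt_id (0 : ℝ)).smul_const (c • W)).const_add W
      rwa [one_smul] at h
    have h2 : HasDerivAt (fun t : ℝ => Ψ (W + t • (c • W))) (fderiv ℝ Ψ W (c • W)) 0 := by
      have h3 : HasFDerivAt Ψ (fderiv ℝ Ψ W) (W + (0 : ℝ) • (c • W)) := by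
        rw [zero_smul, add_zero]
        exact ((hat W hW).differentiableAt (by norm_num)).hasFDerivAt
      exact h3.comp_hasDerivAt 0 h1
    have h4 : (fun t : ℝ => Ψ (W + t • (c • W))) =ᶠ[𝓝 0] fun _ => Ψ W := by
      have h5 : ∀ᶠ t : ℝ in 𝓝 0, (1 + (t : ℂ) * c) ≠ 0 := by
        have h6 : ContinuousAt (fun t : ℝ => (1 + (t : ℂ) * c)) 0 := by fun_prop
        apply h6.eventually_ne
        simp
      filter_upwards [h5] with t ht
      rw [← hom W hW _ ht]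
      congr 1
      funext i
      simp only [Pi.add_apply, Pi.smul_apply, smul_eq_mul, Complex.real_smul]
      ring
    exact h2.unique ((hasDerivAt_const (0 : ℝ) (Ψ W)).congr_of_eventuallyEq h4)
  -- differentiate once more
  have hfd : HasFDerivAt (fderiv ℝ Ψ) (fderiv ℝ (fderiv ℝ Ψ) Z) Z :=
    ((hZat.fderiv_right (m := 1) (by norm_num)).differentiableAt (by norm_num)).hasFDerivAt
  have hB : ∀ (E : E3) (c : ℂ), fderiv ℝ (fderiv ℝ Ψ) Z E (c • Z) = - fderiv ℝ Ψ Z (c • E) := by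
    intro E c
    have h1 : HasDerivAt (fun t : ℝ => Z + t • E) E 0 := by
      have h := ((hasDerivAt_id (0 : ℝ)).smul_const E).const_add Z
      rwa [one_smul] at h
    have h0 : Z + (0 : ℝ) • E = Z := by rw [zero_smul, add_zero]
    have h2 : HasDerivAt (fun t : ℝ => fderiv ℝ Ψ (Z + t • E)) (fderiv ℝ (fderiv ℝ Ψ) Z E) 0 := by
      have h3 : HasFDerivAt (fderiv ℝ Ψ) (fderiv ℝ (fderiv ℝ Ψ) Z) (Z + (0 : ℝ) • E) := by
        rw [h0]; exact hfd
      exact h3.comp_hasDerivAt 0 h1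
    have h3 : HasDerivAt (fun t : ℝ => c • (Z + t • E)) (c • E) 0 := h1.const_smul c
    have h4 := h2.clm_apply h3
    have h5 : (fun t : ℝ => (fderiv ℝ Ψ (Z + t • E)) (c • (Z + t • E))) =ᶠ[𝓝 0] fun _ => 0 := by
      have h6 : ∀ᶠ t : ℝ in 𝓝 0, Z + t • E ∈ cone U := by
        apply h1.continuousAt.eventually_mem
        show cone U ∈ 𝓝 (Z + (0 : ℝ) • E)
        rw [h0]
        exact hopen.mem_nhds hZ
      filter_upwards [h6] with t ht
      exact hrad _ ht c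
    have h7 := h4.unique ((hasDerivAt_const (0 : ℝ) (0 : ℝ)).congr_of_eventuallyEq h5)
    rw [h0] at h7
    linarith
  have hsym : IsSymmSndFDerivAt ℝ Ψ Z := hZat.isSymmSndFDerivAt (by simp)
  rw [CHN_lev Ψ Z _ hZat, CHN_lev Ψ Z _ hZat]
  have e1 : Complex.I • (E + s • Z) = Complex.I • E + (Complex.I * s) • Z := by
    rw [smul_add, smul_smul]
  rw [e1]
  simp only [map_add, add_apply]
  have r1 : fderiv ℝ (fderiv ℝ Ψ) Z (s • Z) E = fderiv ℝ (fderiv ℝ Ψ) Z E (s • Z) := hsym _ _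
  have r2 : fderiv ℝ (fderiv ℝ Ψ) Z ((Complex.I * s) • Z) (Complex.I • E) =
    fderiv ℝ (fderiv ℝ Ψ) Z (Complex.I • E) ((Complex.I * s) • Z) := hsym _ _
  rw [r1, r2, hB, hB, hB, hB]
  have e2 : (Complex.I * s) • Complex.I • E = -(s • E) := by
    rw [smul_smul, show Complex.I * s * Complex.I = -s by
      linear_combination s * Complex.I_mul_I, neg_smul]
  rw [e2, smul_smul, smul_smul, hrad Z hZ, hrad Z hZ, map_neg]
  ring

/-! ### the row -/

/-- the vector `g` with `Z × g = c` -/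
noncomputable def ENC_g {d : ℕ} (f : Endo 2 d) (N : ℕ) (Z : E3) : E3 :=
  ((nq Z : ℂ)⁻¹) • crs (cv f N Z) (fun i => (starRingEnd ℂ) (Z i))

theorem ENC_nq3 (Z : E3) : nq Z = Complex.normSq (Z 0) + Complex.normSq (Z 1) +
    Complex.normSq (Z 2) := by
  unfold nq
  rw [Fin.sum_univ_three]

theorem ENC_nqc (Z : E3) : (nq Z : ℂ) = Z 0 * (starRingEnd ℂ) (Z 0) +
    Z 1 * (starRingEnd ℂ) (Z 1) + Z 2 * (starRingEnd ℂ) (Z 2) := by
  rw [ENC_nq3]
  push_cast
  rw [Complex.mul_conj, Complex.mul_conj, Complex.mul_conj]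

theorem ENC_nqpos {Z : E3} (hZ : Z ≠ 0) : 0 < nq Z := by
  rw [ENC_nq3]
  have h0 := Complex.normSq_nonneg (Z 0)
  have h1 := Complex.normSq_nonneg (Z 1)
  have h2 := Complex.normSq_nonneg (Z 2)
  by_contra h
  push Not at h
  apply hZ
  funext i
  fin_cases i
  · show Z 0 = 0
    exact Complex.normSq_eq_zero.1 (by linarith)
  · show Z 1 = 0
    exact Complex.normSq_eq_zero.1 (by linarith)
  · show Z 2 = 0
    exact Complex.normSq_eq_zero.1 (by linarith)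

theorem ENC_id (c Z W X Y : E3) (n : ℂ) (hn : n = Z 0 * W 0 + Z 1 * W 1 + Z 2 * W 2)
    (hc : c 0 * Z 0 + c 1 * Z 1 + c 2 * Z 2 = 0) :
    n • ((c 0 * X 0 + c 1 * X 1 + c 2 * X 2) • Y - (c 0 * Y 0 + c 1 * Y 1 + c 2 * Y 2) • X) =
      (-(Z ⬝ᵥ crs X Y)) • crs c W + (crs X Y ⬝ᵥ crs c W) • Z := by
  have h0 : (n • ((c 0 * X 0 + c 1 * X 1 + c 2 * X 2) • Y -
      (c 0 * Y 0 + c 1 * Y 1 + c 2 * Y 2) • X)) 0 =
      ((-(Z ⬝ᵥ crs X Y)) • crs c W + (crs X Y ⬝ᵥ crs c W) • Z) 0 := by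
    simp only [crs, dotProduct, Fin.sum_univ_three, Pi.smul_apply, Pi.add_apply, Pi.sub_apply,
      smul_eq_mul, Matrix.cons_val_zero, Matrix.cons_val_one, Matrix.cons_val]
    linear_combination ((c 0 * X 0 + c 1 * X 1 + c 2 * X 2) * Y 0 -
      (c 0 * Y 0 + c 1 * Y 1 + c 2 * Y 2) * X 0) * hn +
      ((X 2 * Y 0 - X 0 * Y 2) * W 2 - (X 0 * Y 1 - X 1 * Y 0) * W 1) * hc
  have h1 : (n • ((c 0 * X 0 + c 1 * X 1 + c 2 * X 2) • Y -
      (c 0 * Y 0 + c 1 * Y 1 + c 2 * Y 2) • X)) 1 =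
      ((-(Z ⬝ᵥ crs X Y)) • crs c W + (crs X Y ⬝ᵥ crs c W) • Z) 1 := by
    simp only [crs, dotProduct, Fin.sum_univ_three, Pi.smul_apply, Pi.add_apply, Pi.sub_apply,
      smul_eq_mul, Matrix.cons_val_zero, Matrix.cons_val_one, Matrix.cons_val]
    linear_combination ((c 0 * X 0 + c 1 * X 1 + c 2 * X 2) * Y 1 -
      (c 0 * Y 0 + c 1 * Y 1 + c 2 * Y 2) * X 1) * hn +
      ((X 0 * Y 1 - X 1 * Y 0) * W 0 - (X 1 * Y 2 - X 2 * Y 1) * W 2) * hc
  have h2 : (n • ((c 0 * X 0 + c 1 * X 1 + c 2 * X 2) • Y -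
      (c 0 * Y 0 + c 1 * Y 1 + c 2 * Y 2) • X)) 2 =
      ((-(Z ⬝ᵥ crs X Y)) • crs c W + (crs X Y ⬝ᵥ crs c W) • Z) 2 := by
    simp only [crs, dotProduct, Fin.sum_univ_three, Pi.smul_apply, Pi.add_apply, Pi.sub_apply,
      smul_eq_mul, Matrix.cons_val_zero, Matrix.cons_val_one, Matrix.cons_val]
    linear_combination ((c 0 * X 0 + c 1 * X 1 + c 2 * X 2) * Y 2 -
      (c 0 * Y 0 + c 1 * Y 1 + c 2 * Y 2) * X 2) * hn +
      ((X 1 * Y 2 - X 2 * Y 1) * W 1 - (X 2 * Y 0 - X 0 * Y 2) * W 0) * hc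
  funext i
  fin_cases i
  · exact h0
  · exact h1
  · exact h2

theorem ENC_vec {d : ℕ} (f : Endo 2 d) (N : ℕ) (Z : E3) (hZ : Z ≠ 0) (X Y : E3) :
    ∃ s : ℂ, cc f N Z X • Y - cc f N Z Y • X =
      (-(Z ⬝ᵥ crs X Y)) • ENC_g f N Z + s • Z := by
  have hn : (nq Z : ℂ) ≠ 0 := by exact_mod_cast (ENC_nqpos hZ).ne'
  have hc : cv f N Z 0 * Z 0 + cv f N Z 1 * Z 1 + cv f N Z 2 * Z 2 = 0 := by
    rw [← ENC_cc, ENC_cc_self]
  have h := ENC_id (cv f N Z) Z (fun i => (starRingEnd ℂ) (Z i)) X Y (nq Z) (ENC_nqc Z) hc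
  refine ⟨(nq Z : ℂ)⁻¹ * (crs X Y ⬝ᵥ crs (cv f N Z) (fun i => (starRingEnd ℂ) (Z i))), ?_⟩
  rw [ENC_cc, ENC_cc, ENC_g, smul_comm (-(Z ⬝ᵥ crs X Y)), mul_smul, ← smul_add, ← h,
    smul_smul, inv_mul_cancel₀ hn, one_smul]

theorem ENC_ccg {d : ℕ} (f : Endo 2 d) (N : ℕ) (Z : E3) : cc f N Z (ENC_g f N Z) = 0 := by
  rw [ENC_cc, ENC_g]
  simp only [crs, Pi.smul_apply, smul_eq_mul, Matrix.cons_val_zero, Matrix.cons_val_one,
    Matrix.cons_val]
  ring

theorem ENC : ENC_stmt := by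
  intro d f U N Ψ B hd hU hA Z hZ
  obtain ⟨hΨ, -, hom, hlev⟩ := hA
  have hUo : IsOpen U := hU.1.1
  have hZ0 : Z ≠ 0 := hZ.1
  have hZat : ContDiffAt ℝ 2 Ψ Z := (hΨ.contDiffAt ((cone_open hUo).mem_nhds hZ)).of_le
    ENat.LEInfty.out
  set κ : ℝ := lev Ψ Z (ENC_g f N Z) / (2 * (d : ℝ) ^ N * pq (It f N Z) ^ 2) with hκ
  have hκ0 : 0 ≤ κ := by
    have h1 := hlev Z hZ _ (ENC_ccg f N Z)
    positivity
  have hen : ∀ X Y : E3, en f N Ψ Z X Y = Complex.normSq (Z ⬝ᵥ crs X Y) * κ := by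
    intro X Y
    obtain ⟨s, hs⟩ := ENC_vec f N Z hZ0 X Y
    unfold en
    rw [hs, ENC_lev_hom U hUo Ψ hΨ hom Z hZ, ENC_lev_smul Ψ Z _ hZat, Complex.normSq_neg,
      mul_div_assoc]
  have hed : ed f N Ψ Z = κ := by
    unfold ed
    rw [hen, hen, hen]
    have hn := (ENC_nqpos hZ0).ne'
    have e1 : Z ⬝ᵥ crs (Pi.single 0 1 : E3) (Pi.single 1 1) = Z 2 := by
      simp [crs, dotProduct, Fin.sum_univ_three]
    have e2 : Z ⬝ᵥ crs (Pi.single 1 1 : E3) (Pi.single 2 1) = Z 0 := by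
      simp [crs, dotProduct, Fin.sum_univ_three]
    have e3 : Z ⬝ᵥ crs (Pi.single 2 1 : E3) (Pi.single 0 1) = Z 1 := by
      simp [crs, dotProduct, Fin.sum_univ_three]
    rw [e1, e2, e3, div_eq_iff hn, ENC_nq3]
    ring
  refine ⟨fun X Y => by rw [hed, hen], by rw [hed]; exact hκ0, ?_⟩
  intro W V
  rw [hed]
  simp only [hen]
  have e : ∀ (i : Fin 3) (w : ℂ), Complex.normSq (Z ⬝ᵥ crs (Pi.single i w : E3) V) =
      Complex.normSq w * Complex.normSq (crs Z V i) := by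
    intro i w
    rw [← Complex.normSq_mul, ← Complex.normSq_neg]
    congr 1
    fin_cases i
    · simp [crs, dotProduct, Fin.sum_univ_three]
      ring
    · simp [crs, dotProduct, Fin.sum_univ_three]
      ring
    · simp [crs, dotProduct, Fin.sum_univ_three]
      ring
  simp only [e, Fin.sum_univ_three]
  rw [ENC_nq3 W, ENC_nq3 (crs Z V)]
  ring

end Pool.Agent.P2
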