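import Pool.Agent.helper37.P2.SpecB
import Pool.Agent.helper80.P2.ENC

/-!
# Row p2:ENT
-/

set_option autoImplicit false

open scoped ContDiff Topology
open MeasureTheory Filter Set Metric MvPolynomial Pool.Agent.helper37.QA

namespace Pool.Agent.P2

theorem ENT_evalcd (q : MvPolynomial (Fin 3) ℂ) : ContDiff ℂ ∞ fun x : E3 => eval x q := by
  induction q using MvPolynomial.induction_on with
  | C a =>
    simp only [eval_C]
    exact contDiff_const
  | add p q hp hq =>
    simp only [map_add]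
    exact hp.add hq
  | mul_X p n hp =>
    simp only [map_mul, eval_X]
    exact hp.mul (contDiff_apply ℂ ℂ n)

theorem ENT_Itcont {d : ℕ} (f : Endo 2 d) (N : ℕ) (i : Fin 3) :
    Continuous fun W : E3 => It f N W i := (ENC_Itd f N i).continuous

theorem ENT_cvcont {d : ℕ} (f : Endo 2 d) (N : ℕ) (i : Fin 3) :
    Continuous fun W : E3 => cv f N W i := by
  have h : ∀ j : Fin 3, Continuous fun W : E3 =>
      fderiv ℂ (fun W : E3 => It f N W j) W (Pi.single i 1) := by
    intro j
    have h1 : Continuous (fderiv ℂ (fun W : E3 => It f N W j)) :=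
      (ENT_evalcd (iter f.F N j)).continuous_fderiv (by simp)
    exact h1.clm_apply continuous_const
  exact ((ENT_Itcont f N 1).mul (h 0)).sub ((ENT_Itcont f N 0).mul (h 1))

theorem ENT_nqcont : Continuous fun W : E3 => nq W := by
  unfold nq
  exact continuous_finsetSum _ fun i _ => Complex.continuous_normSq.comp (continuous_apply i)

theorem ENT_pqcont : Continuous fun W : E3 => pq W := by
  unfold pq
  exact (Complex.continuous_normSq.comp (continuous_apply 0)).add
    (Complex.continuous_normSq.comp (continuous_apply 1))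

theorem ENT_lagid (a b : E3) : nq (crs a b) + Complex.normSq (a 0 * (starRingEnd ℂ) (b 0) +
    a 1 * (starRingEnd ℂ) (b 1) + a 2 * (starRingEnd ℂ) (b 2)) = nq a * nq b := by
  simp only [ENC_nq3, crs, Matrix.cons_val_zero, Matrix.cons_val_one, Matrix.cons_val,
    Complex.normSq_apply, Complex.add_re, Complex.add_im, Complex.sub_re, Complex.sub_im,
    Complex.mul_re, Complex.mul_im, Complex.conj_re, Complex.conj_im]
  ring

theorem ENT_lag (a b : E3) : nq (crs a b) ≤ nq a * nq b := by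
  have := ENT_lagid a b
  have h := Complex.normSq_nonneg (a 0 * (starRingEnd ℂ) (b 0) +
    a 1 * (starRingEnd ℂ) (b 1) + a 2 * (starRingEnd ℂ) (b 2))
  linarith

theorem ENT_nqconj (b : E3) : nq (fun i => (starRingEnd ℂ) (b i)) = nq b := by
  rw [ENC_nq3, ENC_nq3]
  simp only [Complex.normSq_conj]

theorem ENT_nqnn (b : E3) : 0 ≤ nq b := by
  unfold nq
  exact Finset.sum_nonneg fun i _ => Complex.normSq_nonneg _

theorem ENT_cs (a b : E3) : Complex.normSq (a 0 * b 0 + a 1 * b 1 + a 2 * b 2) ≤ nq a * nq b := by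
  have h := ENT_lagid a (fun i => (starRingEnd ℂ) (b i))
  simp only [Complex.conj_conj] at h
  rw [ENT_nqconj] at h
  have h2 := ENT_nqnn (crs a (fun i => (starRingEnd ℂ) (b i)))
  linarith

theorem ENT_crsneg (a b : E3) : nq (crs a b) = nq (crs b a) := by
  simp only [ENC_nq3, crs, Matrix.cons_val_zero, Matrix.cons_val_one, Matrix.cons_val]
  rw [← Complex.normSq_neg (b 1 * a 2 - b 2 * a 1), ← Complex.normSq_neg (b 2 * a 0 - b 0 * a 2),
    ← Complex.normSq_neg (b 0 * a 1 - b 1 * a 0)]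
  congr 1
  · congr 1
    · congr 1
      ring
    · congr 1
      ring
  · congr 1
    ring

theorem ENT_ccb {d : ℕ} (f : Endo 2 d) (n : ℕ) (Z X : E3) (hZ : Z ≠ 0) :
    Complex.normSq (cc f n Z X) * nq Z ≤ nq (cv f n Z) * nq (crs Z X) := by
  have hpos := ENC_nqpos hZ
  have hc : cv f n Z 0 * Z 0 + cv f n Z 1 * Z 1 + cv f n Z 2 * Z 2 = 0 := by
    rw [← ENC_cc, ENC_cc_self]
  rw [ENC_cc]
  generalize cv f n Z = c at hc ⊢
  have hid : (c 0 * X 0 + c 1 * X 1 + c 2 * X 2) * (nq Z : ℂ) =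
      (crs c (fun i => (starRingEnd ℂ) (Z i))) 0 * (crs X Z) 0 +
      (crs c (fun i => (starRingEnd ℂ) (Z i))) 1 * (crs X Z) 1 +
      (crs c (fun i => (starRingEnd ℂ) (Z i))) 2 * (crs X Z) 2 := by
    rw [ENC_nqc]
    simp only [crs, Matrix.cons_val_zero, Matrix.cons_val_one, Matrix.cons_val]
    linear_combination (X 0 * (starRingEnd ℂ) (Z 0) + X 1 * (starRingEnd ℂ) (Z 1) +
      X 2 * (starRingEnd ℂ) (Z 2)) * hc
  have h1 := ENT_cs (crs c (fun i => (starRingEnd ℂ) (Z i))) (crs X Z)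
  rw [← hid, Complex.normSq_mul, Complex.normSq_ofReal] at h1
  have h2 := ENT_lag c (fun i => (starRingEnd ℂ) (Z i))
  rw [ENT_nqconj] at h2
  rw [ENT_crsneg X Z] at h1
  have h3 := mul_le_mul_of_nonneg_right h2 (ENT_nqnn (crs Z X))
  have h4 : (Complex.normSq (c 0 * X 0 + c 1 * X 1 + c 2 * X 2) * nq Z) * nq Z ≤
      (nq c * nq (crs Z X)) * nq Z := by
    calc (Complex.normSq (c 0 * X 0 + c 1 * X 1 + c 2 * X 2) * nq Z) * nq Z =
        Complex.normSq (c 0 * X 0 + c 1 * X 1 + c 2 * X 2) * (nq Z * nq Z) := by ring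
      _ ≤ _ := h1
      _ ≤ _ := h3
      _ = _ := by ring
  exact le_of_mul_le_mul_right h4 hpos

/-- the chain rule along a disc -/
theorem ENT_deriv {d : ℕ} (f : Endo 2 d) (n : ℕ) (i : Fin 3) {Z : ℂ → E3} {z : ℂ}
    (hZ : DifferentiableAt ℂ Z z) :
    deriv (fun z => It f n (Z z) i) z = fderiv ℂ (fun W : E3 => It f n W i) (Z z) (deriv Z z) :=
  ((ENC_Itd f n i (Z z)).hasFDerivAt.comp_hasDerivAt z hZ.hasDerivAt).deriv

theorem ENT_tau {d : ℕ} (f : Endo 2 d) (n : ℕ) {Z : ℂ → E3} {z : ℂ}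
    (hZ : DifferentiableAt ℂ Z z) :
    tau f n Z z = (1 / 2) * Complex.normSq (cc f n (Z z) (deriv Z z)) /
      pq (It f n (Z z)) ^ 2 / (d : ℝ) ^ n := by
  unfold tau cc
  rw [ENT_deriv f n 0 hZ, ENT_deriv f n 1 hZ]

/-- integrability with the cut-off -/
theorem ENT_int (G : ℂ → ℝ) (hG : ContinuousOn G (ball 0 1)) :
    Integrable fun z => eta z ^ 2 * G z := by
  have hz : ∀ z : ℂ, z ∉ closedBall (0 : ℂ) (9 / 10) → eta z ^ 2 * G z = 0 := by
    intro z hz
    have h1 : 9 / 10 < ‖z‖ := by simpa using hz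
    have h2 : Complex.normSq z = ‖z‖ ^ 2 := Complex.normSq_eq_norm_sq z
    have h3 : 5 - 8 * Complex.normSq z ≤ 0 := by rw [h2]; nlinarith
    unfold eta
    rw [Real.smoothTransition.zero_of_nonpos h3]
    ring
  have hc : ContinuousOn (fun z => eta z ^ 2 * G z) (closedBall (0 : ℂ) (9 / 10)) := by
    have h1 : Continuous fun z : ℂ => eta z := by
      unfold eta
      exact Real.smoothTransition.continuous.comp
        (continuous_const.sub (continuous_const.mul Complex.continuous_normSq))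
    exact (h1.pow 2).continuousOn.mul
      (hG.mono (closedBall_subset_ball (by norm_num)))
  exact (hc.integrableOn_compact (isCompact_closedBall _ _)).integrable_of_forall_notMem_eq_zero hz

theorem ENT_point {τ a R dn : ℝ} (hτ : 0 ≤ τ) (ha : 0 ≤ a) (hd : 1 ≤ dn) (hR : dn * τ ≤ R * a)
    {E : ℝ} (hE : 0 < E) (hR0 : 0 ≤ R) :
    (1 / 2) * (τ - a) ≤ (1 / 2) * Real.log (R + E) * τ := by
  rcases hτ.eq_or_lt with h | hτ'
  · rw [← h]
    nlinarith
  · have ha' : 0 < a := by
      rcases ha.eq_or_lt with h | h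
      · rw [← h] at hR
        nlinarith
      · exact h
    have h1 : τ / a ≤ R + E := by
      rw [div_le_iff₀ ha']
      nlinarith
    have h2 : Real.log (τ / a) ≤ Real.log (R + E) := Real.log_le_log (div_pos hτ' ha') h1
    have h3 : 1 - a / τ ≤ Real.log (τ / a) := by
      have h4 := Real.one_sub_inv_le_log_of_pos (div_pos hτ' ha')
      rwa [inv_div] at h4
    have h5 : (1 - a / τ) * τ = τ - a := by
      field_simp
    have h6 : (1 - a / τ) * τ ≤ Real.log (R + E) * τ :=
      mul_le_mul_of_nonneg_right (h3.trans h2) hτ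
    nlinarith

theorem ENT (hDMS : DMS_stmt) (hUN1 : UN1_stmt) (hRAD : RAD_stmt) : ENT_stmt := by
  intro d f U hd hU
  obtain ⟨r, hr, hr1, hrad⟩ := hRAD.1 d f U hU.1
  obtain ⟨C, hC, -, -, hCar, -⟩ := hDMS d f U r hd hU hr hr1 hrad
  obtain ⟨C', -, -, -, hpq, -⟩ := hUN1 d f U hd hU
  refine ⟨max C 1, le_max_right _ _, ?_⟩
  intro n Λ Z hΛ hZ hmass
  have hZd : ∀ z ∈ ball (0 : ℂ) 1, DifferentiableAt ℂ Z z := fun z hz =>
    hZ.1.differentiableAt (isOpen_ball.mem_nhds hz)
  have hZc : ContinuousOn Z (ball 0 1) := hZ.1.continuousOn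
  have hZ'c : ContinuousOn (deriv Z) (ball 0 1) := (hZ.1.deriv isOpen_ball).continuousOn
  have hcl : ∀ z ∈ ball (0 : ℂ) 1, Z z ∈ cone (closure U) := fun z hz =>
    ⟨(hZ.2 z hz).1, subset_closure (hZ.2 z hz).2⟩
  have hpq0 : ∀ z ∈ ball (0 : ℂ) 1, 0 < pq (It f n (Z z)) := fun z hz => (hpq n _ (hcl z hz)).1
  have hne : ∀ z ∈ ball (0 : ℂ) 1, Z z ≠ 0 := fun z hz => (hZ.2 z hz).1
  have hItc : Continuous fun W : E3 => It f n W := continuous_pi fun i => ENT_Itcont f n i
  have hpqc : ContinuousOn (fun z => pq (It f n (Z z))) (ball 0 1) :=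
    (ENT_pqcont.comp hItc).comp_continuousOn hZc
  have hcrsc : ContinuousOn (fun z => nq (crs (Z z) (deriv Z z))) (ball 0 1) := by
    have h0 : ∀ i : Fin 3, ContinuousOn (fun z => Z z i) (ball 0 1) := fun i =>
      (continuous_apply i).comp_continuousOn hZc
    have h1 : ∀ i : Fin 3, ContinuousOn (fun z => deriv Z z i) (ball 0 1) := fun i =>
      (continuous_apply i).comp_continuousOn hZ'c
    have h2 : ∀ i j : Fin 3, ContinuousOn
        (fun z => Complex.normSq (Z z i * deriv Z z j - Z z j * deriv Z z i)) (ball 0 1) :=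
      fun i j => Complex.continuous_normSq.comp_continuousOn
        (((h0 i).mul (h1 j)).sub ((h0 j).mul (h1 i)))
    have h3 : (fun z => nq (crs (Z z) (deriv Z z))) = fun z =>
        Complex.normSq (Z z 1 * deriv Z z 2 - Z z 2 * deriv Z z 1) +
        Complex.normSq (Z z 2 * deriv Z z 0 - Z z 0 * deriv Z z 2) +
        Complex.normSq (Z z 0 * deriv Z z 1 - Z z 1 * deriv Z z 0) := by
      funext z
      rw [ENC_nq3]
      rfl
    rw [h3]
    exact ((h2 1 2).add (h2 2 0)).add (h2 0 1)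
  have harc : ContinuousOn (fun z => ar Z z) (ball 0 1) := by
    unfold ar
    refine hcrsc.div ((continuousOn_const).mul ((ENT_nqcont.comp_continuousOn hZc).pow 2)) ?_
    intro z hz
    have := ENC_nqpos (hne z hz)
    positivity
  have htauc : ContinuousOn (fun z => tau f n Z z) (ball 0 1) := by
    have h1 : ∀ i : Fin 3, ContinuousOn (fun z => It f n (Z z) i) (ball 0 1) := fun i =>
      (ENT_Itcont f n i).comp_continuousOn hZc
    have h2 : ∀ i : Fin 3, ContinuousOn (deriv fun z => It f n (Z z) i) (ball 0 1) := fun i =>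
      (((ENC_Itd f n i).comp_differentiableOn hZ.1).deriv isOpen_ball).continuousOn
    unfold tau
    refine (((continuousOn_const.mul (Complex.continuous_normSq.comp_continuousOn
      (((h1 1).mul (h2 0)).sub ((h1 0).mul (h2 1))))).div (hpqc.pow 2) ?_).div
        continuousOn_const ?_)
    · intro z hz
      exact (pow_pos (hpq0 z hz) 2).ne'
    · intro z hz
      positivity
  have hcvc : ContinuousOn (fun z => nq (cv f n (Z z))) (ball 0 1) := by
    have h1 : Continuous fun W : E3 => cv f n W := continuous_pi fun i => ENT_cvcont f n i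
    exact (ENT_nqcont.comp h1).comp_continuousOn hZc
  have hR0 : ∀ z ∈ ball (0 : ℂ) 1,
      0 ≤ nq (cv f n (Z z)) * nq (Z z) / pq (It f n (Z z)) ^ 2 := by
    intro z hz
    have h1 := ENT_nqnn (cv f n (Z z))
    have h2 := ENT_nqnn (Z z)
    positivity
  have hPc : ContinuousOn (fun z => Psc f n Λ (Z z)) (ball 0 1) := by
    unfold Psc
    refine continuousOn_const.mul (ContinuousOn.log (((hcvc.mul
      (ENT_nqcont.comp_continuousOn hZc)).div (hpqc.pow 2) ?_).add continuousOn_const) ?_)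
    · intro z hz
      exact (pow_pos (hpq0 z hz) 2).ne'
    · intro z hz
      have h1 := hR0 z hz
      have h2 := Real.exp_pos (-2 * Λ)
      exact (add_pos_of_nonneg_of_pos h1 h2).ne'
  have hdn : (1 : ℝ) ≤ (d : ℝ) ^ n := one_le_pow₀ (by exact_mod_cast (by omega : 1 ≤ d))
  -- the pointwise inequality
  have hpt : ∀ z ∈ ball (0 : ℂ) 1,
      (1 / 2) * (tau f n Z z - ar Z z) ≤ Psc f n Λ (Z z) * tau f n Z z := by
    intro z hz
    have hn := ENC_nqpos (hne z hz)
    have hp := hpq0 z hz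
    have hb := ENT_ccb f n (Z z) (deriv Z z) (hne z hz)
    have hcv := ENT_nqnn (cv f n (Z z))
    have hcr := ENT_nqnn (crs (Z z) (deriv Z z))
    have hcn := Complex.normSq_nonneg (cc f n (Z z) (deriv Z z))
    rw [ENT_tau f n (hZd z hz)]
    unfold ar Psc
    refine ENT_point (dn := (d : ℝ) ^ n) ?_ ?_ hdn ?_ (Real.exp_pos _) (hR0 z hz)
    · positivity
    · positivity
    · have hd0 : (0 : ℝ) < (d : ℝ) ^ n := lt_of_lt_of_le one_pos hdn
      have e1 : (d : ℝ) ^ n * (1 / 2 * Complex.normSq (cc f n (Z z) (deriv Z z)) /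
          pq (It f n (Z z)) ^ 2 / (d : ℝ) ^ n) =
          (Complex.normSq (cc f n (Z z) (deriv Z z)) * nq (Z z)) *
            (1 / (2 * nq (Z z) * pq (It f n (Z z)) ^ 2)) := by
        field_simp
      have e2 : nq (cv f n (Z z)) * nq (Z z) / pq (It f n (Z z)) ^ 2 *
          (nq (crs (Z z) (deriv Z z)) / (2 * nq (Z z) ^ 2)) =
          (nq (cv f n (Z z)) * nq (crs (Z z) (deriv Z z))) *
            (1 / (2 * nq (Z z) * pq (It f n (Z z)) ^ 2)) := by
        field_simp
      rw [e1, e2]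
      exact mul_le_mul_of_nonneg_right hb (by positivity)
  have heta : ∀ z : ℂ, z ∉ ball (0 : ℂ) 1 → eta z = 0 := by
    intro z hz
    have h1 : 1 ≤ ‖z‖ := by simpa using hz
    have h2 : Complex.normSq z = ‖z‖ ^ 2 := Complex.normSq_eq_norm_sq z
    have h3 : 5 - 8 * Complex.normSq z ≤ 0 := by rw [h2]; nlinarith
    unfold eta
    exact Real.smoothTransition.zero_of_nonpos h3
  have hint1 := ENT_int _ htauc
  have hint2 := ENT_int _ harc
  have hint3 := ENT_int _ (hPc.mul htauc)
  have hmono : ∫ z, eta z ^ 2 * ((1 / 2) * (tau f n Z z - ar Z z)) ≤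
      ∫ z, eta z ^ 2 * (Psc f n Λ (Z z) * tau f n Z z) := by
    refine integral_mono (ENT_int _ (continuousOn_const.mul (htauc.sub harc))) hint3 ?_
    intro z
    by_cases hz : z ∈ ball (0 : ℂ) 1
    · exact mul_le_mul_of_nonneg_left (hpt z hz) (sq_nonneg _)
    · show eta z ^ 2 * _ ≤ eta z ^ 2 * _
      rw [heta z hz]
      simp
  have hsplit : ∫ z, eta z ^ 2 * ((1 / 2) * (tau f n Z z - ar Z z)) =
      (1 / 2) * (mass f n Z - ∫ z, eta z ^ 2 * ar Z z) := by
    unfold mass
    rw [← integral_sub hint1 hint2, ← integral_const_mul]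
    refine integral_congr_ae (Eventually.of_forall fun z => ?_)
    show eta z ^ 2 * _ = _
    ring
  have hC2 := hCar n Z hZ
  have hm0 : 0 < mass f n Z := lt_of_lt_of_le (lt_of_lt_of_le one_pos (le_max_right C 1)) hmass
  unfold Jf
  rw [le_div_iff₀ hm0]
  have h1 : -C ≤ mass f n Z - ∫ z, eta z ^ 2 * ar Z z := by
    have := (abs_le.1 hC2).2
    linarith
  have h2 : 1 ≤ mass f n Z := (le_max_right C 1).trans hmass
  have h3 : 0 < max C 1 := lt_of_lt_of_le one_pos (le_max_right C 1)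
  have h4 : C ≤ max C 1 := le_max_left C 1
  nlinarith

end Pool.Agent.P2
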