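import Pool.Agent.helper37.P2.SpecB
import Pool.Agent.helper43.P2.CHN
import Pool.Agent.helper53.P2.MAU
import Pool.Agent.helper80.P2.ENC
import Pool.Agent.helper80.P2.ENT

/-!
# Row p2:PSC
-/

set_option autoImplicit false

open scoped ContDiff Topology
open MeasureTheory Filter Set Metric MvPolynomial Pool.Agent.helper37.QA

namespace Pool.Agent.P2

/-! ### smoothness -/

theorem PSC_normSq : ContDiff ℝ ∞ (Complex.normSq : ℂ → ℝ) := by
  have e : (Complex.normSq : ℂ → ℝ) = fun z => z.re * z.re + z.im * z.im := by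
    ext z
    exact Complex.normSq_apply z
  rw [e]
  have h1 : ContDiff ℝ ∞ (fun z : ℂ => z.re) := Complex.reCLM.contDiff
  have h2 : ContDiff ℝ ∞ (fun z : ℂ => z.im) := Complex.imCLM.contDiff
  exact (h1.mul h1).add (h2.mul h2)

theorem PSC_Itc {d : ℕ} (f : Endo 2 d) (n : ℕ) (i : Fin 3) :
    ContDiff ℂ ∞ fun W : E3 => It f n W i := ENT_evalcd (iter f.F n i)

theorem PSC_cvc {d : ℕ} (f : Endo 2 d) (n : ℕ) (i : Fin 3) :
    ContDiff ℂ ∞ fun W : E3 => cv f n W i := by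
  have h : ∀ j : Fin 3, ContDiff ℂ ∞ fun W : E3 =>
      fderiv ℂ (fun W : E3 => It f n W j) W (Pi.single i 1) := by
    intro j
    exact ((PSC_Itc f n j).fderiv_right (by simp)).clm_apply contDiff_const
  exact ((PSC_Itc f n 1).mul (h 0)).sub ((PSC_Itc f n 0).mul (h 1))

theorem PSC_nqs {G : E3 → E3} (hG : ∀ i : Fin 3, ContDiff ℂ ∞ fun W => G W i) :
    ContDiff ℝ ∞ fun W => nq (G W) := by
  have h : ∀ i : Fin 3, ContDiff ℝ ∞ fun W => Complex.normSq (G W i) := fun i =>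
    PSC_normSq.comp ((hG i).restrict_scalars ℝ)
  have e : (fun W => nq (G W)) = fun W => Complex.normSq (G W 0) + Complex.normSq (G W 1) +
      Complex.normSq (G W 2) := by
    funext W
    exact ENC_nq3 (G W)
  rw [e]
  exact ((h 0).add (h 1)).add (h 2)

theorem PSC_pqs {G : E3 → E3} (hG : ∀ i : Fin 3, ContDiff ℂ ∞ fun W => G W i) :
    ContDiff ℝ ∞ fun W => pq (G W) := by
  have h : ∀ i : Fin 3, ContDiff ℝ ∞ fun W => Complex.normSq (G W i) := fun i =>
    PSC_normSq.comp ((hG i).restrict_scalars ℝ)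
  exact (h 0).add (h 1)

/-! ### homogeneity -/

theorem PSC_dhom {d : ℕ} (f : Endo 2 d) (n : ℕ) (i : Fin 3) (c : ℂ) (Z X : E3) :
    c * fderiv ℂ (fun W : E3 => It f n W i) (c • Z) X =
      c ^ d ^ n * fderiv ℂ (fun W : E3 => It f n W i) Z X := by
  have h1 : HasFDerivAt (fun W : E3 => c • W) (c • ContinuousLinearMap.id ℂ E3) Z :=
    (hasFDerivAt_id Z).const_smul c
  have h2 : HasFDerivAt (fun W : E3 => It f n W i) (fderiv ℂ (fun W : E3 => It f n W i) (c • Z))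
      (c • Z) := (ENC_Itd f n i (c • Z)).hasFDerivAt
  have h3 := h2.comp Z h1
  have h4 : HasFDerivAt (fun W : E3 => c ^ d ^ n * It f n W i)
      (c ^ d ^ n • fderiv ℂ (fun W : E3 => It f n W i) Z) Z :=
    (ENC_Itd f n i Z).hasFDerivAt.const_mul _
  have h5 : ((fun W : E3 => It f n W i) ∘ fun W : E3 => c • W) =
      fun W : E3 => c ^ d ^ n * It f n W i := by
    funext W
    show It f n (c • W) i = _
    rw [ENC_Ithom]
    rfl
  rw [h5] at h3
  have h6 := congrArg (fun L : E3 →L[ℂ] ℂ => L X) (h3.unique h4)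
  have h7 : fderiv ℂ (fun W : E3 => It f n W i) (c • Z) (c • X) =
      c ^ d ^ n * fderiv ℂ (fun W : E3 => It f n W i) Z X := h6
  rw [← h7, map_smul, smul_eq_mul]

theorem PSC_cvhom {d : ℕ} (f : Endo 2 d) (n : ℕ) (i : Fin 3) (c : ℂ) (Z : E3) :
    c * cv f n (c • Z) i = c ^ d ^ n * c ^ d ^ n * cv f n Z i := by
  unfold cv cc
  rw [ENC_Ithom]
  simp only [Pi.smul_apply, smul_eq_mul]
  have h0 := PSC_dhom f n 0 c Z (Pi.single i 1)
  have h1 := PSC_dhom f n 1 c Z (Pi.single i 1)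
  linear_combination (c ^ d ^ n * It f n Z 1) * h0 - (c ^ d ^ n * It f n Z 0) * h1

theorem PSC_nqsmul (c : ℂ) (Z : E3) : nq (c • Z) = Complex.normSq c * nq Z := by
  rw [ENC_nq3, ENC_nq3]
  simp only [Pi.smul_apply, smul_eq_mul, Complex.normSq_mul]
  ring

theorem PSC_pqsmul (c : ℂ) (Z : E3) : pq (c • Z) = Complex.normSq c * pq Z := by
  unfold pq
  simp only [Pi.smul_apply, smul_eq_mul, Complex.normSq_mul]
  ring

theorem PSC_Rhom {d : ℕ} (f : Endo 2 d) (n : ℕ) (c : ℂ) (hc : c ≠ 0) (Z : E3) :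
    nq (cv f n (c • Z)) * nq (c • Z) / pq (It f n (c • Z)) ^ 2 =
      nq (cv f n Z) * nq Z / pq (It f n Z) ^ 2 := by
  have hc' : Complex.normSq c ≠ 0 := fun h => hc (Complex.normSq_eq_zero.1 h)
  have h1 : Complex.normSq c * nq (cv f n (c • Z)) =
      (Complex.normSq c ^ d ^ n) ^ 2 * nq (cv f n Z) := by
    rw [ENC_nq3, ENC_nq3]
    have h2 : ∀ i : Fin 3, Complex.normSq c * Complex.normSq (cv f n (c • Z) i) =
        (Complex.normSq c ^ d ^ n) ^ 2 * Complex.normSq (cv f n Z i) := by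
      intro i
      rw [← Complex.normSq_mul, PSC_cvhom, Complex.normSq_mul, Complex.normSq_mul, map_pow]
      ring
    linear_combination h2 0 + h2 1 + h2 2
  rw [PSC_nqsmul, ENC_Ithom, PSC_pqsmul, map_pow]
  have h3 : nq (cv f n (c • Z)) * (Complex.normSq c * nq Z) =
      (Complex.normSq c ^ d ^ n) ^ 2 * (nq (cv f n Z) * nq Z) := by
    linear_combination nq Z * h1
  rw [h3, mul_pow, mul_div_mul_left _ _ (pow_ne_zero _ (pow_ne_zero _ hc'))]

/-! ### the recursion -/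

/-- squared norm of the derivative of the lift -/
noncomputable def PSC_H {d : ℕ} (f : Endo 2 d) (Z : E3) : ℝ :=
  ∑ i : Fin 3, nq (fun j : Fin 3 => fderiv ℂ (fun W : E3 => It f 1 W j) Z (Pi.single i 1))

theorem PSC_ItF {d : ℕ} (f : Endo 2 d) (n : ℕ) (Z : E3) :
    It f (n + 1) Z = It f n (It f 1 Z) := pmap_iter_add f.F n 1 Z

theorem PSC_cvF {d : ℕ} (f : Endo 2 d) (n : ℕ) (Z : E3) (i : Fin 3) :
    cv f (n + 1) Z i = cv f n (It f 1 Z) 0 * fderiv ℂ (fun W : E3 => It f 1 W 0) Z (Pi.single i 1) +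
      cv f n (It f 1 Z) 1 * fderiv ℂ (fun W : E3 => It f 1 W 1) Z (Pi.single i 1) +
      cv f n (It f 1 Z) 2 * fderiv ℂ (fun W : E3 => It f 1 W 2) Z (Pi.single i 1) := by
  have hF : HasFDerivAt (fun W : E3 => It f 1 W)
      (ContinuousLinearMap.pi fun j : Fin 3 => fderiv ℂ (fun W : E3 => It f 1 W j) Z) Z :=
    hasFDerivAt_pi.2 fun j => (ENC_Itd f 1 j Z).hasFDerivAt
  have h1 : ∀ l : Fin 3, fderiv ℂ (fun W : E3 => It f (n + 1) W l) Z (Pi.single i 1) =
      fderiv ℂ (fun W : E3 => It f n W l) (It f 1 Z)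
        (fun j : Fin 3 => fderiv ℂ (fun W : E3 => It f 1 W j) Z (Pi.single i 1)) := by
    intro l
    have h2 : HasFDerivAt (fun W : E3 => It f n W l)
        (fderiv ℂ (fun W : E3 => It f n W l) (It f 1 Z)) (It f 1 Z) :=
      (ENC_Itd f n l (It f 1 Z)).hasFDerivAt
    have h3 := h2.comp Z hF
    have h4 : ((fun W : E3 => It f n W l) ∘ fun W : E3 => It f 1 W) =
        fun W : E3 => It f (n + 1) W l := by
      funext W
      exact congrFun (PSC_ItF f n W).symm l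
    rw [h4] at h3
    rw [h3.fderiv]
    rfl
  have h5 : cv f (n + 1) Z i = cc f n (It f 1 Z)
      (fun j : Fin 3 => fderiv ℂ (fun W : E3 => It f 1 W j) Z (Pi.single i 1)) := by
    unfold cv cc
    rw [h1 0, h1 1, PSC_ItF]
  rw [h5, ENC_cc]

theorem PSC_nqcvF {d : ℕ} (f : Endo 2 d) (n : ℕ) (Z : E3) :
    nq (cv f (n + 1) Z) ≤ nq (cv f n (It f 1 Z)) * PSC_H f Z := by
  have h : ∀ i : Fin 3, Complex.normSq (cv f (n + 1) Z i) ≤ nq (cv f n (It f 1 Z)) *
      nq (fun j : Fin 3 => fderiv ℂ (fun W : E3 => It f 1 W j) Z (Pi.single i 1)) := by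
    intro i
    rw [PSC_cvF]
    exact ENT_cs (cv f n (It f 1 Z))
      (fun j : Fin 3 => fderiv ℂ (fun W : E3 => It f 1 W j) Z (Pi.single i 1))
  unfold PSC_H
  rw [ENC_nq3, Fin.sum_univ_three]
  have h0 := h 0
  have h1 := h 1
  have h2 := h 2
  linarith

theorem PSC_Hbound {d : ℕ} (f : Endo 2 d) : ∃ C : ℝ, 1 ≤ C ∧ ∀ Z : E3, Z ≠ 0 →
    PSC_H f Z * nq Z ≤ C * nq (It f 1 Z) := by
  have hne : ∀ Z : E3, Z ≠ 0 → It f 1 Z ≠ 0 := fun Z hZ => pmap_ne (iter_nd f.nondeg 1) hZ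
  have hHc : Continuous fun Z : E3 => PSC_H f Z := by
    unfold PSC_H
    refine continuous_finsetSum _ fun i _ => ?_
    refine ENT_nqcont.comp (continuous_pi fun j => ?_)
    exact ((PSC_Itc f 1 j).continuous_fderiv (by simp)).clm_apply continuous_const
  have hItc : Continuous fun Z : E3 => nq (It f 1 Z) :=
    ENT_nqcont.comp (continuous_pi fun i => ENT_Itcont f 1 i)
  have hsph : IsCompact (sphere (0 : E3) 1) := isCompact_sphere _ _
  have hcont : ContinuousOn (fun Z : E3 => PSC_H f Z * nq Z / nq (It f 1 Z)) (sphere (0 : E3) 1) := by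
    refine ((hHc.mul ENT_nqcont).continuousOn).div hItc.continuousOn ?_
    intro Z hZ
    have hZ0 : Z ≠ 0 := by
      rintro rfl
      simp at hZ
    exact (ENC_nqpos (hne Z hZ0)).ne'
  obtain ⟨M, hM⟩ := hsph.bddAbove_image hcont
  refine ⟨max M 1, le_max_right _ _, ?_⟩
  intro Z hZ
  have hn : 0 < ‖Z‖ := norm_pos_iff.2 hZ
  set c : ℂ := ((‖Z‖ : ℝ) : ℂ) with hc
  have hc0 : c ≠ 0 := by
    rw [hc]
    exact_mod_cast hn.ne'
  set Y : E3 := c⁻¹ • Z with hY
  have hZY : Z = c • Y := by rw [hY, smul_smul, mul_inv_cancel₀ hc0, one_smul]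
  have hYn : ‖Y‖ = 1 := by
    rw [hY, norm_smul, norm_inv, hc, Complex.norm_real, norm_norm, inv_mul_cancel₀ hn.ne']
  have hYs : Y ∈ sphere (0 : E3) 1 := by simpa using hYn
  have hY0 : Y ≠ 0 := by
    intro h
    rw [h] at hYn
    simp at hYn
  have h1 : PSC_H f Y * nq Y / nq (It f 1 Y) ≤ M := hM ⟨Y, hYs, rfl⟩
  have hpos := ENC_nqpos (hne Y hY0)
  rw [div_le_iff₀ hpos] at h1
  have h2 : Complex.normSq c * PSC_H f (c • Y) =
      Complex.normSq c ^ d ^ 1 * PSC_H f Y := by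
    have h3 : ∀ (i j : Fin 3), Complex.normSq c * Complex.normSq
        (fderiv ℂ (fun W : E3 => It f 1 W j) (c • Y) (Pi.single i 1)) =
        Complex.normSq c ^ d ^ 1 * Complex.normSq
        (fderiv ℂ (fun W : E3 => It f 1 W j) Y (Pi.single i 1)) := by
      intro i j
      rw [← Complex.normSq_mul, PSC_dhom, Complex.normSq_mul, map_pow]
    unfold PSC_H
    simp only [Fin.sum_univ_three, ENC_nq3]
    linear_combination h3 0 0 + h3 0 1 + h3 0 2 + h3 1 0 + h3 1 1 + h3 1 2 + h3 2 0 + h3 2 1 +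
      h3 2 2
  rw [hZY, PSC_nqsmul c Y, ENC_Ithom f 1 c Y, PSC_nqsmul (c ^ d ^ 1) (It f 1 Y), map_pow]
  have h4 : PSC_H f (c • Y) * (Complex.normSq c * nq Y) =
      Complex.normSq c ^ d ^ 1 * (PSC_H f Y * nq Y) := by
    linear_combination nq Y * h2
  rw [h4]
  have h5 : PSC_H f Y * nq Y ≤ max M 1 * nq (It f 1 Y) :=
    h1.trans (mul_le_mul_of_nonneg_right (le_max_left _ _) hpos.le)
  have h6 : 0 ≤ Complex.normSq c ^ d ^ 1 := pow_nonneg (Complex.normSq_nonneg _) _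
  calc Complex.normSq c ^ d ^ 1 * (PSC_H f Y * nq Y) ≤
      Complex.normSq c ^ d ^ 1 * (max M 1 * nq (It f 1 Y)) := mul_le_mul_of_nonneg_left h5 h6
    _ = _ := by ring

/-! ### level zero -/

theorem PSC_It0 {d : ℕ} (f : Endo 2 d) (Z : E3) : It f 0 Z = Z := pmap_iter_zero f.F Z

theorem PSC_cv0 {d : ℕ} (f : Endo 2 d) (Z : E3) : nq (cv f 0 Z) = pq Z := by
  have h1 : ∀ (l : Fin 3) (X : E3), fderiv ℂ (fun W : E3 => It f 0 W l) Z X = X l := by
    intro l X
    have h2 : (fun W : E3 => It f 0 W l) = fun W : E3 => W l := by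
      funext W
      rw [PSC_It0]
    rw [h2, (hasFDerivAt_apply l Z).fderiv]
    rfl
  have h3 : ∀ i : Fin 3, cv f 0 Z i = Z 1 * (Pi.single i 1 : E3) 0 - Z 0 * (Pi.single i 1 : E3) 1 := by
    intro i
    unfold cv cc
    rw [h1, h1, PSC_It0]
  rw [ENC_nq3, h3, h3, h3]
  unfold pq
  simp [Complex.normSq_neg]
  ring

/-! ### the Levi form of the difference -/

theorem PSC_lapsub (g h : ℂ → ℝ) (z : ℂ) (hg : ContDiffAt ℝ 2 g z) (hh : ContDiffAt ℝ 2 h z) :
    lap (fun t => g t - h t) z = lap g z - lap h z := by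
  unfold lap
  have h1 : iteratedFDeriv ℝ 2 (fun t => g t - h t) z = iteratedFDeriv ℝ 2 g z -
      iteratedFDeriv ℝ 2 h z := iteratedFDeriv_sub_apply (i := 2) hg hh
  rw [h1]
  simp only [sub_apply]
  ring

theorem PSC_lapcongr {g h : ℂ → ℝ} {z : ℂ} (hgh : g =ᶠ[𝓝 z] h) : lap g z = lap h z := by
  unfold lap
  rw [(hgh.iteratedFDeriv (𝕜 := ℝ) 2).self_of_nhds]

theorem PSC_levi (hLSE : LSE_stmt) {d : ℕ} (f : Endo 2 d) (U : Set (PP 2)) (hUo : IsOpen U)
    (n : ℕ) (Λ : ℝ) (hpq : ∀ Z ∈ cone U, 0 < pq (It f n Z)) (Z : E3) (hZ : Z ∈ cone U) (E : E3)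
    (hE : cc f n Z E = 0) : 0 ≤ lev (Psc f n Λ) Z E := by
  let γ : ℂ → E3 := fun t => Z + t • E
  have hγ : ContDiff ℂ ∞ γ := contDiff_const.add (contDiff_id.smul contDiff_const)
  have hγ' : ∀ t, HasDerivAt γ E t := by
    intro t
    have h := ((hasDerivAt_id t).smul_const E).const_add Z
    rwa [one_smul] at h
  let Ω : Set ℂ := γ ⁻¹' cone U
  have hΩ : IsOpen Ω := (cone_open hUo).preimage hγ.continuous
  have hγ0 : γ 0 = Z := by simp [γ]
  have h0Ω : (0 : ℂ) ∈ Ω := by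
    show γ 0 ∈ cone U
    rw [hγ0]
    exact hZ
  have hIt : ∀ i : Fin 3, ContDiff ℂ ∞ fun t => It f n (γ t) i := fun i =>
    (PSC_Itc f n i).comp hγ
  have hcv : ∀ i : Fin 3, ContDiff ℂ ∞ fun t => cv f n (γ t) i := fun i =>
    (PSC_cvc f n i).comp hγ
  have hpqs : ContDiff ℝ ∞ fun t => pq (It f n (γ t)) :=
    (PSC_normSq.comp ((hIt 0).restrict_scalars ℝ)).add
      (PSC_normSq.comp ((hIt 1).restrict_scalars ℝ))
  -- the functions of `LSE`
  let B : ℂ → ℝ := fun t => Real.log (pq (It f n (γ t))) - Λ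
  have hBs : ContDiffOn ℝ 2 B Ω := by
    refine ContDiffOn.sub (ContDiffOn.log ((hpqs.of_le ENat.LEInfty.out).contDiffOn) ?_)
      contDiffOn_const
    intro t ht
    exact (hpq _ ht).ne'
  have hB0 : lap (fun t => Real.log (pq (It f n (γ t)))) 0 = 0 := by
    have hne : It f n (γ 0) 0 ≠ 0 ∨ It f n (γ 0) 1 ≠ 0 := by
      by_contra hcon
      push Not at hcon
      have h1 := hpq (γ 0) h0Ω
      unfold pq at h1
      rw [hcon.1, hcon.2] at h1
      simp at h1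
    have h1 := MAU_core (fun t => It f n (γ t) 0) (fun t => It f n (γ t) 1) 0 (1 / 2) Ω hΩ h0Ω
      ((hIt 0).differentiable (by simp)).differentiableOn
      ((hIt 1).differentiable (by simp)).differentiableOn hne
    have h2 : (fun t => (1 / 2) * Real.log (Complex.normSq (It f n (γ t) 0) +
        Complex.normSq (It f n (γ t) 1)) / (1 / 2)) = fun t => Real.log (pq (It f n (γ t))) := by
      funext t
      unfold pq
      ring
    rw [h2] at h1
    have hder : ∀ i : Fin 3, deriv (fun t => It f n (γ t) i) 0 =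
        fderiv ℂ (fun W : E3 => It f n W i) (γ 0) E := by
      intro i
      have h3 := ENT_deriv f n i (hγ' 0).differentiableAt
      rw [(hγ' 0).deriv] at h3
      exact h3
    have h4 : It f n (γ 0) 0 * deriv (fun t => It f n (γ t) 1) 0 -
        It f n (γ 0) 1 * deriv (fun t => It f n (γ t) 0) 0 = 0 := by
      rw [hder, hder, hγ0]
      have h5 : cc f n Z E = It f n Z 1 * fderiv ℂ (fun W => It f n W 0) Z E -
        It f n Z 0 * fderiv ℂ (fun W => It f n W 1) Z E := rfl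
      rw [hE] at h5
      linear_combination h5
    rw [h1, h4]
    simp
  have hBlap : lap B 0 = 0 := by
    have h1 : ContDiffAt ℝ 2 (fun t => Real.log (pq (It f n (γ t)))) 0 :=
      ((hpqs.of_le ENat.LEInfty.out).contDiffAt).log (hpq _ h0Ω).ne'
    have h2 := PSC_lapsub (fun t => Real.log (pq (It f n (γ t)))) (fun _ => Λ) 0 h1
      contDiffAt_const
    have h3 : lap (fun _ : ℂ => Λ) 0 = 0 := by
      unfold lap
      rw [iteratedFDeriv_two_apply, iteratedFDeriv_two_apply]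
      simp
    rw [hB0, h3, sub_zero] at h2
    exact h2
  let e : Fin 3 × Fin 3 ≃ Fin (3 * 3) := finProdFinEquiv
  let G : ℂ → Fin (3 * 3) → ℂ := fun t k => cv f n (γ t) (e.symm k).1 * γ t (e.symm k).2
  have hG : DifferentiableOn ℂ G Ω := by
    rw [differentiableOn_pi]
    intro k
    refine ((hcv (e.symm k).1).differentiable (by simp)).differentiableOn.mul ?_
    exact (((contDiff_apply ℂ ℂ (e.symm k).2).comp hγ).differentiable (by simp)).differentiableOn
  have hGn : ∀ t, nq (G t) = nq (cv f n (γ t)) * nq (γ t) := by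
    intro t
    have h1 : nq (G t) = ∑ p : Fin 3 × Fin 3, Complex.normSq (cv f n (γ t) p.1 * γ t p.2) := by
      unfold nq
      rw [← e.sum_comp]
      refine Finset.sum_congr rfl fun p _ => ?_
      show Complex.normSq (cv f n (γ t) (e.symm (e p)).1 * γ t (e.symm (e p)).2) = _
      rw [e.symm_apply_apply]
    rw [h1, Fintype.sum_prod_type]
    unfold nq
    rw [Finset.sum_mul_sum]
    refine Finset.sum_congr rfl fun i _ => Finset.sum_congr rfl fun j _ => ?_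
    rw [Complex.normSq_mul]
  have hL := hLSE (3 * 3) G B Ω hΩ h0Ω hG hBs hBlap.ge
  -- the identity
  have hid : (fun t => Psc f n Λ (γ t)) =ᶠ[𝓝 0] fun t =>
      (1 / 2) * Real.log (nq (G t) + Real.exp (2 * B t)) - Real.log (pq (It f n (γ t))) := by
    filter_upwards [hΩ.mem_nhds h0Ω] with t ht
    have hp := hpq _ ht
    have h1 : Real.exp (2 * B t) = Real.exp (-2 * Λ) * pq (It f n (γ t)) ^ 2 := by
      show Real.exp (2 * (Real.log (pq (It f n (γ t))) - Λ)) = _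
      rw [show 2 * (Real.log (pq (It f n (γ t))) - Λ) =
        -2 * Λ + (Real.log (pq (It f n (γ t))) + Real.log (pq (It f n (γ t)))) by ring,
        Real.exp_add, Real.exp_add, Real.exp_log hp, pow_two]
    have h2 : nq (cv f n (γ t)) * nq (γ t) / pq (It f n (γ t)) ^ 2 + Real.exp (-2 * Λ) =
        (nq (G t) + Real.exp (2 * B t)) / pq (It f n (γ t)) ^ 2 := by
      rw [h1, hGn, add_div, mul_div_cancel_right₀ _ (pow_ne_zero 2 hp.ne')]
    have h3 : 0 < nq (G t) + Real.exp (2 * B t) := by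
      have h4 : 0 ≤ nq (G t) := by
        rw [hGn]
        exact mul_nonneg (ENT_nqnn _) (ENT_nqnn _)
      exact add_pos_of_nonneg_of_pos h4 (Real.exp_pos _)
    unfold Psc
    rw [h2, Real.log_div h3.ne' (pow_ne_zero 2 hp.ne'), Real.log_pow]
    push_cast
    ring
  have hnqG : ContDiff ℝ 2 fun t => nq (G t) := by
    have h1 : (fun t => nq (G t)) = fun t => nq (cv f n (γ t)) * nq (γ t) := funext hGn
    rw [h1]
    have h2 : ∀ i : Fin 3, ContDiff ℝ ∞ fun t => Complex.normSq (cv f n (γ t) i) := fun i =>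
      PSC_normSq.comp ((hcv i).restrict_scalars ℝ)
    have h3 : ∀ i : Fin 3, ContDiff ℝ ∞ fun t => Complex.normSq (γ t i) := fun i =>
      PSC_normSq.comp (((contDiff_apply ℂ ℂ i).comp hγ).restrict_scalars ℝ)
    have h4 : ContDiff ℝ ∞ fun t => nq (cv f n (γ t)) * nq (γ t) := by
      simp only [ENC_nq3]
      exact (((h2 0).add (h2 1)).add (h2 2)).mul (((h3 0).add (h3 1)).add (h3 2))
    exact h4.of_le ENat.LEInfty.out
  have hA : ContDiffAt ℝ 2 (fun t => (1 / 2) * Real.log (nq (G t) + Real.exp (2 * B t))) 0 := by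
    have h1 : ContDiffAt ℝ 2 B 0 := hBs.contDiffAt (hΩ.mem_nhds h0Ω)
    have h2 : ContDiffAt ℝ 2 (fun t => nq (G t) + Real.exp (2 * B t)) 0 :=
      hnqG.contDiffAt.add (contDiffAt_const.mul h1).exp
    refine contDiffAt_const.mul (h2.log ?_)
    have h4 : 0 ≤ nq (G 0) := by
      rw [hGn]
      exact mul_nonneg (ENT_nqnn _) (ENT_nqnn _)
    exact (add_pos_of_nonneg_of_pos h4 (Real.exp_pos _)).ne'
  have hC : ContDiffAt ℝ 2 (fun t => Real.log (pq (It f n (γ t)))) 0 :=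
    ((hpqs.of_le ENat.LEInfty.out).contDiffAt).log (hpq _ h0Ω).ne'
  unfold lev
  show 0 ≤ lap (fun t => Psc f n Λ (γ t)) 0
  rw [PSC_lapcongr hid, PSC_lapsub _ _ 0 hA hC, hB0, sub_zero]
  exact hL

/-! ### the row -/

theorem PSC_coneF {d : ℕ} (f : Endo 2 d) (U : Set (PP 2)) (hU : IsTrapping f U) {Z : E3}
    (hZ : Z ∈ cone U) : It f 1 Z ∈ cone U := by
  obtain ⟨h0, h1⟩ := hZ
  refine ⟨pmap_ne (iter_nd f.nondeg 1) h0, ?_⟩
  have h2 := map_iter f 1 h0
  have h3 : f.map^[1] (toPP ⟨Z, h0⟩) ∈ U := by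
    rw [Function.iterate_one]
    exact hU.2.2 ⟨_, subset_closure h1, rfl⟩
  rw [h2] at h3
  exact h3

theorem PSC (hUN1 : UN1_stmt) (hMAU : MAU_stmt) (hCHN : CHN_stmt) (hLSE : LSE_stmt) :
    PSC_stmt := by
  intro d f U hd hU
  obtain ⟨C0, hC0, -, -, hpq, -⟩ := hUN1 d f U hd hU
  obtain ⟨C1, hC1, hH⟩ := PSC_Hbound f
  have hpq' : ∀ n : ℕ, ∀ Z ∈ cone U, 0 < pq (It f n Z) ∧ nq (It f n Z) ≤ C0 * pq (It f n Z) :=
    fun n Z hZ => hpq n Z ⟨hZ.1, subset_closure hZ.2⟩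
  set R : ℕ → E3 → ℝ := fun n Z => nq (cv f n Z) * nq Z / pq (It f n Z) ^ 2 with hR
  have hR0 : ∀ n Z, 0 ≤ R n Z := fun n Z =>
    div_nonneg (mul_nonneg (ENT_nqnn _) (ENT_nqnn _)) (sq_nonneg _)
  have hlogC1 : 0 ≤ Real.log C1 := Real.log_nonneg hC1
  have hlogC0 : 0 ≤ Real.log (C0 + 1) := Real.log_nonneg (by linarith)
  set C : ℝ := 1 + (1 / 2) * Real.log C1 + (1 / 2) * Real.log (C0 + 1) with hC
  have hC1' : 1 ≤ C := by rw [hC]; linarith
  -- the recursion
  have hrec : ∀ (n : ℕ) (Λ : ℝ), ∀ Z ∈ cone U,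
      Psc f (n + 1) Λ Z ≤ Psc f n Λ (It f 1 Z) + (1 / 2) * Real.log C1 := by
    intro n Λ Z hZ
    have hp := (hpq' (n + 1) Z hZ).1
    have h1 : R (n + 1) Z ≤ C1 * R n (It f 1 Z) := by
      have h2 := PSC_nqcvF f n Z
      have h3 := hH Z hZ.1
      have hItn : It f n (It f 1 Z) = It f (n + 1) Z := (PSC_ItF f n Z).symm
      show nq (cv f (n + 1) Z) * nq Z / pq (It f (n + 1) Z) ^ 2 ≤
        C1 * (nq (cv f n (It f 1 Z)) * nq (It f 1 Z) / pq (It f n (It f 1 Z)) ^ 2)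
      rw [hItn, ← mul_div_assoc]
      refine div_le_div_of_nonneg_right ?_ (sq_nonneg _)
      calc nq (cv f (n + 1) Z) * nq Z ≤ (nq (cv f n (It f 1 Z)) * PSC_H f Z) * nq Z :=
            mul_le_mul_of_nonneg_right h2 (ENT_nqnn _)
        _ = nq (cv f n (It f 1 Z)) * (PSC_H f Z * nq Z) := by ring
        _ ≤ nq (cv f n (It f 1 Z)) * (C1 * nq (It f 1 Z)) :=
            mul_le_mul_of_nonneg_left h3 (ENT_nqnn _)
        _ = _ := by ring
    have hE := Real.exp_pos (-2 * Λ)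
    have h4 : R (n + 1) Z + Real.exp (-2 * Λ) ≤ C1 * (R n (It f 1 Z) + Real.exp (-2 * Λ)) := by
      nlinarith
    have h5 : 0 < R n (It f 1 Z) + Real.exp (-2 * Λ) := add_pos_of_nonneg_of_pos (hR0 _ _) hE
    have h6 : Real.log (R (n + 1) Z + Real.exp (-2 * Λ)) ≤
        Real.log C1 + Real.log (R n (It f 1 Z) + Real.exp (-2 * Λ)) := by
      rw [← Real.log_mul (by linarith) h5.ne']
      exact Real.log_le_log (add_pos_of_nonneg_of_pos (hR0 _ _) hE) h4
    show (1 / 2) * Real.log (R (n + 1) Z + Real.exp (-2 * Λ)) ≤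
      (1 / 2) * Real.log (R n (It f 1 Z) + Real.exp (-2 * Λ)) + (1 / 2) * Real.log C1
    linarith
  -- level zero
  have hzero : ∀ (Λ : ℝ), 0 ≤ Λ → ∀ Z ∈ cone U, Psc f 0 Λ Z ≤ (1 / 2) * Real.log (C0 + 1) := by
    intro Λ hΛ Z hZ
    obtain ⟨hp, hq⟩ := hpq' 0 Z hZ
    rw [PSC_It0] at hp hq
    have h1 : R 0 Z ≤ C0 := by
      show nq (cv f 0 Z) * nq Z / pq (It f 0 Z) ^ 2 ≤ C0
      rw [PSC_cv0, PSC_It0, div_le_iff₀ (pow_pos hp 2)]
      nlinarith
    have h2 : Real.exp (-2 * Λ) ≤ 1 := Real.exp_le_one_iff.2 (by linarith)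
    have hE := Real.exp_pos (-2 * Λ)
    have h3 : Real.log (R 0 Z + Real.exp (-2 * Λ)) ≤ Real.log (C0 + 1) :=
      Real.log_le_log (add_pos_of_nonneg_of_pos (hR0 _ _) hE) (by linarith)
    show (1 / 2) * Real.log (R 0 Z + Real.exp (-2 * Λ)) ≤ _
    linarith
  have hupper : ∀ (n : ℕ) (Λ : ℝ), 0 ≤ Λ → ∀ Z ∈ cone U, Psc f n Λ Z ≤ C * (n + 1) := by
    intro n Λ hΛ
    induction n with
    | zero =>
      intro Z hZ
      have h1 := hzero Λ hΛ Z hZ
      rw [hC]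
      push_cast
      linarith
    | succ n ih =>
      intro Z hZ
      have h1 := hrec n Λ Z hZ
      have h2 := ih _ (PSC_coneF f U hU.1 hZ)
      push_cast
      have h3 : (1 / 2) * Real.log C1 ≤ C := by rw [hC]; linarith
      nlinarith
  refine ⟨C, hC1', ?_⟩
  intro n Λ hΛ
  refine ⟨⟨?_, ?_, ?_, ?_⟩, ?_⟩
  · -- smoothness
    have h1 : ContDiff ℝ ∞ fun Z : E3 => nq (cv f n Z) := PSC_nqs (PSC_cvc f n)
    have h2 : ContDiff ℝ ∞ fun Z : E3 => nq Z :=
      PSC_nqs (G := fun Z => Z) fun i => contDiff_apply ℂ ℂ i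
    have h3 : ContDiff ℝ ∞ fun Z : E3 => pq (It f n Z) := PSC_pqs (PSC_Itc f n)
    unfold Psc
    refine contDiffOn_const.mul (ContDiffOn.log (((h1.mul h2).contDiffOn.div
      (h3.pow 2).contDiffOn ?_).add contDiffOn_const) ?_)
    · intro Z hZ
      exact (pow_pos (hpq' n Z hZ).1 2).ne'
    · intro Z hZ
      exact (add_pos_of_nonneg_of_pos (hR0 n Z) (Real.exp_pos _)).ne'
  · intro Z hZ
    have h1 := hupper n Λ hΛ Z hZ
    have h2 : -Λ ≤ Psc f n Λ Z := by
      have h3 : Real.log (Real.exp (-2 * Λ)) ≤ Real.log (R n Z + Real.exp (-2 * Λ)) :=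
        Real.log_le_log (Real.exp_pos _) (by linarith [hR0 n Z])
      rw [Real.log_exp] at h3
      show -Λ ≤ (1 / 2) * Real.log (R n Z + Real.exp (-2 * Λ))
      linarith
    have h4 : 0 ≤ C * ((n : ℝ) + 1) := by positivity
    rw [abs_le]
    constructor <;> linarith
  · intro Z hZ c hc
    unfold Psc
    rw [PSC_Rhom f n c hc Z]
  · intro Z hZ E hE
    exact PSC_levi hLSE f U hU.1.1 n Λ (fun Z hZ => (hpq' n Z hZ).1) Z hZ E hE
  · intro Z hZ
    refine ⟨hupper n Λ hΛ Z hZ, ?_⟩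
    have h1 := hrec n Λ Z hZ
    have h3 : (1 / 2) * Real.log C1 ≤ C := by rw [hC]; linarith
    linarith

end Pool.Agent.P2
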