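import Pool.Agent.helper15.P2.SpecI

/-!
# Row p2:BRS
-/

set_option autoImplicit false

open scoped ContDiff Topology ComplexConjugate
open MeasureTheory Filter Set Metric

namespace Pool.Agent.P2I

open Pool.Agent.P2

theorem BRS_mu (a b p q t : ℂ) (hab : a ≠ 0 ∨ b ≠ 0) (hpq : p ≠ 0 ∨ q ≠ 0)
    (h : p * (b + t * conj a) = q * (a - t * conj b)) :
    ∃ μ : ℂ, μ ≠ 0 ∧ p = μ * (a - t * conj b) ∧ q = μ * (b + t * conj a) := by
  by_cases h1 : a - t * conj b = 0
  · by_cases h2 : b + t * conj a = 0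
    · exfalso
      have e1 : a = t * conj b := sub_eq_zero.1 h1
      have e2 : b = -(t * conj a) := eq_neg_of_add_eq_zero_left h2
      have key : ∀ x : ℂ, x * (1 + t * conj t) = 0 → x = 0 := by
        intro x hx
        rcases mul_eq_zero.1 hx with h3 | h3
        · exact h3
        · exfalso
          rw [Complex.mul_conj] at h3
          have h4 : (1 + Complex.normSq t : ℝ) = 0 := by exact_mod_cast h3
          have h5 := Complex.normSq_nonneg t
          linarith
      have ha : a = 0 := by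
        apply key
        have h3 : conj b = -(conj t * a) := by
          rw [e2, map_neg, map_mul, Complex.conj_conj]
        rw [h3] at e1
        linear_combination e1
      have hb : b = 0 := by rw [e2, ha]; simp
      rcases hab with h | h
      · exact h ha
      · exact h hb
    · have hp : p = 0 := by
        rw [h1, mul_zero] at h
        exact (mul_eq_zero.1 h).resolve_right h2
      have hq : q ≠ 0 := hpq.resolve_left fun h => h hp
      refine ⟨q / (b + t * conj a), div_ne_zero hq h2, ?_, ?_⟩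
      · rw [h1, mul_zero, hp]
      · rw [div_mul_cancel₀ _ h2]
  · have hp : p ≠ 0 := by
      intro hp
      rw [hp, zero_mul] at h
      have hq : q = 0 := (mul_eq_zero.1 h.symm).resolve_right h1
      rcases hpq with h' | h'
      · exact h' hp
      · exact h' hq
    refine ⟨p / (a - t * conj b), div_ne_zero hp h1, ?_, ?_⟩
    · rw [div_mul_cancel₀ _ h1]
    · field_simp
      rw [← h]

theorem BRS (hBRA : BRA_stmt) : BRS_stmt := by
  intro P Q hA z hz S τ X hS hτ hX t₀ ht₀
  obtain ⟨hXd, hX0, hXe⟩ := hX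
  obtain ⟨hXS, heq⟩ := hXe t₀ ht₀
  obtain ⟨μ, hμ, hp, hq⟩ := BRS_mu (P z) (Q z) (P (X t₀)) (Q (X t₀)) t₀ (hA.2.2 z hz)
    (hA.2.2 _ (hS hXS)) heq
  have hl : ‖conj μ / μ‖ = 1 := by
    rw [norm_div, Complex.norm_conj, div_self (norm_ne_zero_iff.2 hμ)]
  refine ⟨conj μ / μ, hl, ?_⟩
  generalize hleq : conj μ / μ = l at hl ⊢
  have hlμ : conj μ = l * μ := by rw [← hleq, div_mul_cancel₀ _ hμ]
  intro τ' hτ'
  have hmem : ∀ s ∈ ball (0 : ℂ) τ', 1 - conj t₀ * (l * s) ≠ 0 ∧
      (l * s + t₀) / (1 - conj t₀ * (l * s)) ∈ ball (0 : ℂ) τ := by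
    intro s hs
    have h1 : l * s ∈ ball (0 : ℂ) τ' := by
      rw [mem_ball_zero_iff, norm_mul, hl, one_mul]
      rwa [mem_ball_zero_iff] at hs
    have h2 := hτ' _ h1
    have h3 : 1 - conj t₀ * (l * s) ≠ 0 := by
      intro h
      rw [h, norm_zero, mul_zero] at h2
      exact absurd h2 (not_lt.2 (norm_nonneg _))
    refine ⟨h3, ?_⟩
    rw [mem_ball_zero_iff, norm_div, div_lt_iff₀ (norm_pos_iff.2 h3)]
    exact h2
  refine ⟨?_, ?_, ?_⟩
  · refine hXd.comp ?_ fun s hs => (hmem s hs).2
    refine DifferentiableOn.div ?_ ?_ fun s hs => (hmem s hs).1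
    · exact ((differentiable_id.const_mul l).add_const t₀).differentiableOn
    · exact (((differentiable_id.const_mul l).const_mul (conj t₀)).const_sub 1).differentiableOn
  · show X ((l * 0 + t₀) / (1 - conj t₀ * (l * 0))) = X t₀
    congr 1
    simp
  · intro s hs
    obtain ⟨hden, ht⟩ := hmem s hs
    obtain ⟨h1, h2⟩ := hXe _ ht
    refine ⟨h1, ?_⟩
    set t : ℂ := (l * s + t₀) / (1 - conj t₀ * (l * s)) with htdef
    have htt : t * (1 - conj t₀ * (l * s)) = l * s + t₀ := by
      rw [htdef, div_mul_cancel₀ _ hden]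
    have hpc : conj (P (X t₀)) = l * μ * (conj (P z) - conj t₀ * Q z) := by
      rw [hp, map_mul, map_sub, map_mul, Complex.conj_conj, hlμ]
    have hqc : conj (Q (X t₀)) = l * μ * (conj (Q z) + conj t₀ * P z) := by
      rw [hq, map_mul, map_add, map_mul, Complex.conj_conj, hlμ]
    have e1 : Q (X t₀) + s * conj (P (X t₀)) =
        μ * (1 - conj t₀ * (l * s)) * (Q z + t * conj (P z)) := by
      rw [hpc, hq]
      linear_combination (-(μ * conj (P z))) * htt
    have e2 : P (X t₀) - s * conj (Q (X t₀)) =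
        μ * (1 - conj t₀ * (l * s)) * (P z - t * conj (Q z)) := by
      rw [hqc, hp]
      linear_combination (μ * conj (Q z)) * htt
    show P (X t) * (Q (X t₀) + s * conj (P (X t₀))) = Q (X t) * (P (X t₀) - s * conj (Q (X t₀)))
    rw [e1, e2]
    linear_combination (μ * (1 - conj t₀ * (l * s))) * h2

end Pool.Agent.P2I
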