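import Pool.Agent.helper15.P2.SpecI

/-!
# Row p2:LGA
-/

set_option autoImplicit false

open scoped ContDiff Topology ComplexConjugate
open MeasureTheory Filter Set Metric

namespace Pool.Agent.P2I

open Pool.Agent.P2

theorem LGA_jensen {f : ℂ → ℂ} {c : ℂ} {s R' : ℝ} (hs : 0 < s) (hsR : s < R')
    (hf : DifferentiableOn ℂ f (ball c R')) (hc : f c ≠ 0) :
    Real.log ‖f c‖ ≤ Real.circleAverage (fun z => Real.log ‖f z‖) c s := by
  have hsub : closedBall c |s| ⊆ ball c R' := by
    rw [abs_of_pos hs]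
    exact closedBall_subset_ball hsR
  have h : AnalyticOnNhd ℂ f (closedBall c |s|) := (hf.analyticOnNhd isOpen_ball).mono hsub
  rw [h.circleAverage_log_norm hs.ne' hc]
  have h1 : 0 ≤ ∑ᶠ u, MeromorphicOn.divisor f (closedBall c |s|) u * Real.log (s * ‖c - u‖⁻¹) := by
    refine finsum_nonneg fun u => ?_
    by_cases hu : u ∈ closedBall c |s|
    · refine mul_nonneg (mod_cast (MeromorphicOn.AnalyticOnNhd.divisor_nonneg h) u) ?_
      by_cases h3 : ‖c - u‖ = 0
      · rw [h3]
        simp
      · have h4 : 0 < ‖c - u‖ := lt_of_le_of_ne (norm_nonneg _) (Ne.symm h3)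
        apply Real.log_nonneg
        rw [mem_closedBall, dist_eq_norm', abs_of_pos hs] at hu
        rw [← div_eq_mul_inv, one_le_div h4]
        exact hu
    · simp [hu]
  linarith

theorem LGA_circle {f : ℂ → ℂ} {c : ℂ} {s R' M : ℝ} (hs : 0 < s) (hsR : s < R') (hM : 0 ≤ M)
    (hf : DifferentiableOn ℂ f (ball c R')) (hb : ∀ z ∈ ball c R', ‖f z‖ ≤ Real.exp M)
    (hc : f c ≠ 0) :
    ∫⁻ θ in Ioo (-Real.pi) Real.pi, ENNReal.ofReal |Real.log ‖f (circleMap c s θ)‖| ≤
      ENNReal.ofReal (2 * Real.pi * (2 * M - Real.log ‖f c‖)) := by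
  have hsub : closedBall c |s| ⊆ ball c R' := by
    rw [abs_of_pos hs]
    exact closedBall_subset_ball hsR
  have h : AnalyticOnNhd ℂ f (closedBall c |s|) := (hf.analyticOnNhd isOpen_ball).mono hsub
  have hint : CircleIntegrable (fun z => Real.log ‖f z‖) c s :=
    (h.mono sphere_subset_closedBall).meromorphicOn.circleIntegrable_log_norm
  set φ : ℝ → ℝ := fun θ => Real.log ‖f (circleMap c s θ)‖ with hφ
  have hint' : IntervalIntegrable φ volume 0 (2 * Real.pi) := hint
  have hper : Function.Periodic φ (2 * Real.pi) := by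
    intro θ
    show Real.log ‖f (circleMap c s (θ + 2 * Real.pi))‖ = Real.log ‖f (circleMap c s θ)‖
    rw [periodic_circleMap c s θ]
  have hint2 : ∀ a b : ℝ, IntervalIntegrable φ volume a b := fun a b =>
    hper.intervalIntegrable Real.two_pi_pos.ne' (t := 0) (by rw [zero_add]; exact hint') a b
  have hpp : -Real.pi ≤ Real.pi := by linarith [Real.pi_pos]
  have hI : IntegrableOn (fun θ => |φ θ|) (Ioo (-Real.pi) Real.pi) := by
    have h1 := (hint2 (-Real.pi) Real.pi).abs
    rw [intervalIntegrable_iff_integrableOn_Ioo_of_le hpp] at h1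
    exact h1
  rw [← ofReal_integral_eq_lintegral_ofReal hI (Eventually.of_forall fun θ => abs_nonneg _)]
  apply ENNReal.ofReal_le_ofReal
  have e1 : ∫ θ in Ioo (-Real.pi) Real.pi, |φ θ| = ∫ θ in (-Real.pi)..Real.pi, |φ θ| := by
    rw [intervalIntegral.integral_of_le hpp, integral_Ioc_eq_integral_Ioo]
  have hper' : Function.Periodic (fun θ => |φ θ|) (2 * Real.pi) := by
    intro θ
    show |φ (θ + 2 * Real.pi)| = |φ θ|
    rw [hper θ]
  have e2 : ∫ θ in (-Real.pi)..Real.pi, |φ θ| = ∫ θ in (0 : ℝ)..(2 * Real.pi), |φ θ| := by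
    have h1 := hper'.intervalIntegral_add_eq (-Real.pi) 0
    rw [show -Real.pi + 2 * Real.pi = Real.pi by ring, zero_add] at h1
    exact h1
  have h2 : ∫ θ in (0 : ℝ)..(2 * Real.pi), |φ θ| ≤ ∫ θ in (0 : ℝ)..(2 * Real.pi), (2 * M - φ θ) := by
    refine intervalIntegral.integral_mono_on Real.two_pi_pos.le hint'.abs
      (intervalIntegrable_const.sub hint') ?_
    intro θ _
    have h3 : φ θ ≤ M := by
      have h4 : circleMap c s θ ∈ ball c R' := by
        apply hsub
        rw [mem_closedBall, dist_eq_norm]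
        simp
      have h5 := hb _ h4
      show Real.log ‖f (circleMap c s θ)‖ ≤ M
      rcases (norm_nonneg (f (circleMap c s θ))).eq_or_lt with h6 | h6
      · rw [← h6, Real.log_zero]
        exact hM
      · rw [Real.log_le_iff_le_exp h6]
        exact h5
    rw [abs_le]
    constructor <;> linarith
  have h3 : ∫ θ in (0 : ℝ)..(2 * Real.pi), (2 * M - φ θ) =
      2 * Real.pi * (2 * M) - ∫ θ in (0 : ℝ)..(2 * Real.pi), φ θ := by
    rw [intervalIntegral.integral_sub intervalIntegrable_const hint', intervalIntegral.integral_const]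
    simp
  have h4 := LGA_jensen hs hsR hf hc
  rw [Real.circleAverage_def, smul_eq_mul, inv_mul_eq_div, le_div_iff₀ Real.two_pi_pos] at h4
  have h5 : (∫ θ in (0 : ℝ)..(2 * Real.pi), φ θ) =
    ∫ θ in (0 : ℝ)..(2 * Real.pi), Real.log ‖f (circleMap c s θ)‖ := rfl
  rw [e1, e2]
  rw [h3, h5] at h2
  linarith

theorem LGA : LGA_stmt := by
  intro f c R R' M hR hRR' hM hf hb hc
  classical
  set A : ℝ := 2 * M - Real.log ‖f c‖ with hA
  have hA0 : 0 ≤ A := by
    have h1 := hb c (mem_ball_self (hR.trans hRR'))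
    have h2 : Real.log ‖f c‖ ≤ M := by
      rw [Real.log_le_iff_le_exp (norm_pos_iff.2 hc)]
      exact h1
    rw [hA]
    linarith
  -- a measurable extension
  set F : ℂ → ℂ := (ball c R).piecewise f (fun _ => 1) with hF
  have hFm : Measurable F := by
    refine ContinuousOn.measurable_piecewise ?_ continuousOn_const measurableSet_ball
    exact hf.continuousOn.mono (ball_subset_ball hRR'.le)
  set g : ℂ → ENNReal := fun z => ENNReal.ofReal |Real.log ‖F z‖| with hg
  have hgm : Measurable g :=
    (continuous_abs.measurable.comp (Real.measurable_log.comp hFm.norm)).ennreal_ofReal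
  have hFin : ∀ z ∈ ball c R, F z = f z := fun z hz => Set.piecewise_eq_of_mem _ _ _ hz
  have hFout : ∀ z ∉ ball c R, F z = 1 := fun z hz => Set.piecewise_eq_of_notMem _ _ _ hz
  have e1 : ∫⁻ z in ball c R, ENNReal.ofReal |Real.log ‖f z‖| ≤ ∫⁻ z, g z := by
    calc ∫⁻ z in ball c R, ENNReal.ofReal |Real.log ‖f z‖| = ∫⁻ z in ball c R, g z := by
          refine setLIntegral_congr_fun measurableSet_ball fun z hz => ?_
          show _ = ENNReal.ofReal |Real.log ‖F z‖|
          rw [hFin z hz]
      _ ≤ ∫⁻ z, g z := setLIntegral_le_lintegral _ _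
  have e2 : ∫⁻ z, g z = ∫⁻ z, g (c + z) := (lintegral_add_left_eq_self g c).symm
  rw [e2, ← Complex.lintegral_comp_polarCoord_symm (fun z => g (c + z))] at e1
  refine e1.trans ?_
  have e3 : ∫⁻ p in polarCoord.target, ENNReal.ofReal p.1 • g (c + Complex.polarCoord.symm p) =
      ∫⁻ r in Ioi (0 : ℝ), ∫⁻ θ in Ioo (-Real.pi) Real.pi,
        ENNReal.ofReal r * g (circleMap c r θ) := by
    have hcirc : ∀ r θ : ℝ, c + Complex.polarCoord.symm (r, θ) = circleMap c r θ := by
      intro r θ
      rw [Complex.polarCoord_symm_apply, circleMap, Complex.exp_mul_I]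
      push_cast
      ring
    rw [polarCoord_target, Measure.volume_eq_prod, ← Measure.prod_restrict, lintegral_prod]
    · refine lintegral_congr fun r => lintegral_congr fun θ => ?_
      rw [hcirc, smul_eq_mul]
    · have h1 : Measurable fun p : ℝ × ℝ => ENNReal.ofReal p.1 •
          g (c + Complex.polarCoord.symm p) := by
        have h2 : Measurable fun p : ℝ × ℝ => g (c + Complex.polarCoord.symm p) := by
          have h3 : Continuous fun p : ℝ × ℝ => circleMap c p.1 p.2 := by
            unfold circleMap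
            fun_prop
          have h4 : (fun p : ℝ × ℝ => g (c + Complex.polarCoord.symm p)) =
              fun p : ℝ × ℝ => g (circleMap c p.1 p.2) := by
            funext p
            rw [← hcirc]
          rw [h4]
          exact hgm.comp h3.measurable
        exact measurable_fst.ennreal_ofReal.mul h2
      exact h1.aemeasurable
  rw [e3]
  have e4 : ∀ r ∈ Ioi (0 : ℝ), (∫⁻ θ in Ioo (-Real.pi) Real.pi,
      ENNReal.ofReal r * g (circleMap c r θ)) ≤
      (Ioo 0 R).indicator (fun r => ENNReal.ofReal (r * (2 * Real.pi * A))) r := by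
    intro r hr
    have hr0 : 0 < r := hr
    by_cases hrR : r < R
    · rw [indicator_of_mem (show r ∈ Ioo 0 R from ⟨hr0, hrR⟩)]
      have h1 : ∫⁻ θ in Ioo (-Real.pi) Real.pi, ENNReal.ofReal r * g (circleMap c r θ) =
          ENNReal.ofReal r * ∫⁻ θ in Ioo (-Real.pi) Real.pi,
            ENNReal.ofReal |Real.log ‖f (circleMap c r θ)‖| := by
        rw [lintegral_const_mul' _ _ ENNReal.ofReal_ne_top]
        congr 1
        refine lintegral_congr fun θ => ?_
        show ENNReal.ofReal |Real.log ‖F (circleMap c r θ)‖| = _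
        rw [hFin]
        rw [mem_ball, dist_eq_norm]
        simp [abs_of_pos hr0, hrR]
      rw [h1, ENNReal.ofReal_mul hr0.le]
      gcongr
      exact LGA_circle hr0 (hrR.trans hRR') hM hf hb hc
    · rw [indicator_of_notMem (fun h => hrR h.2)]
      have h1 : ∀ θ, g (circleMap c r θ) = 0 := by
        intro θ
        show ENNReal.ofReal |Real.log ‖F (circleMap c r θ)‖| = 0
        rw [hFout]
        · simp
        · rw [mem_ball, dist_eq_norm]
          simp only [circleMap_sub_center, norm_circleMap_zero, abs_of_pos hr0]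
          exact hrR
      simp [h1]
  have e5 : (∫⁻ r in Ioi (0 : ℝ), ∫⁻ θ in Ioo (-Real.pi) Real.pi,
        ENNReal.ofReal r * g (circleMap c r θ)) ≤
      ∫⁻ r in Ioo 0 R, ENNReal.ofReal (r * (2 * Real.pi * A)) := by
    calc (∫⁻ r in Ioi (0 : ℝ), ∫⁻ θ in Ioo (-Real.pi) Real.pi,
        ENNReal.ofReal r * g (circleMap c r θ)) ≤ ∫⁻ r in Ioi (0 : ℝ),
          (Ioo 0 R).indicator (fun r => ENNReal.ofReal (r * (2 * Real.pi * A))) r :=
          setLIntegral_mono' measurableSet_Ioi e4
      _ ≤ ∫⁻ r, (Ioo 0 R).indicator (fun r => ENNReal.ofReal (r * (2 * Real.pi * A))) r :=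
          setLIntegral_le_lintegral _ _
      _ = _ := lintegral_indicator measurableSet_Ioo _
  refine e5.trans ?_
  have hK : 0 ≤ 2 * Real.pi * A := mul_nonneg Real.two_pi_pos.le hA0
  have hII : IntervalIntegrable (fun r : ℝ => r * (2 * Real.pi * A)) volume 0 R :=
    (continuous_id.mul continuous_const).intervalIntegrable _ _
  have hIO : IntegrableOn (fun r : ℝ => r * (2 * Real.pi * A)) (Ioo 0 R) := by
    rwa [intervalIntegrable_iff_integrableOn_Ioo_of_le hR.le] at hII
  rw [← ofReal_integral_eq_lintegral_ofReal hIO ?_]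
  · apply ENNReal.ofReal_le_ofReal
    rw [← integral_Ioc_eq_integral_Ioo, ← intervalIntegral.integral_of_le hR.le,
      intervalIntegral.integral_mul_const, integral_id]
    apply le_of_eq
    ring
  · refine (ae_restrict_mem measurableSet_Ioo).mono fun r hr => ?_
    exact mul_nonneg hr.1.le hK

end Pool.Agent.P2I
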