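import Pool.Agent.helper15.P2.SpecI

/-!
# Row p2:LGW
-/

set_option autoImplicit false

open scoped ContDiff Topology ComplexConjugate
open MeasureTheory Filter Set Metric

namespace Pool.Agent.P2I

open Pool.Agent.P2

theorem LGW_bounds {P Q : ℂ → ℂ} {E : ℝ} (hA : Adm P Q)
    (hU : ∀ z ∈ ball (0 : ℂ) 1, |Up P Q z| ≤ E) {z : ℂ} (hz : z ∈ ball (0 : ℂ) 1) :
    ‖P z‖ ≤ Real.exp E ∧ ‖Q z‖ ≤ Real.exp E ∧
      Real.exp (-(2 * E)) ≤ Complex.normSq (P z) + Complex.normSq (Q z) := by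
  have hN : 0 < Complex.normSq (P z) + Complex.normSq (Q z) := by
    rcases hA.2.2 z hz with h | h
    · exact add_pos_of_pos_of_nonneg (Complex.normSq_pos.2 h) (Complex.normSq_nonneg _)
    · exact add_pos_of_nonneg_of_pos (Complex.normSq_nonneg _) (Complex.normSq_pos.2 h)
  have h1 := abs_le.1 (hU z hz)
  unfold Up at h1
  have h2 : Real.log (Complex.normSq (P z) + Complex.normSq (Q z)) ≤ 2 * E := by linarith [h1.2]
  have h3 : -(2 * E) ≤ Real.log (Complex.normSq (P z) + Complex.normSq (Q z)) := by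
    linarith [h1.1]
  rw [Real.log_le_iff_le_exp hN] at h2
  rw [Real.le_log_iff_exp_le hN] at h3
  have h4 : Real.exp (2 * E) = Real.exp E ^ 2 := by
    rw [← Real.exp_nat_mul]
    norm_num
  rw [h4] at h2
  refine ⟨?_, ?_, h3⟩
  · apply le_of_sq_le_sq _ (Real.exp_pos E).le
    have h5 := Complex.normSq_nonneg (Q z)
    rw [← Complex.normSq_eq_norm_sq]
    linarith
  · apply le_of_sq_le_sq _ (Real.exp_pos E).le
    have h5 := Complex.normSq_nonneg (P z)
    rw [← Complex.normSq_eq_norm_sq]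
    linarith

theorem LGW_W {P Q : ℂ → ℂ} {E : ℝ} (hA : Adm P Q)
    (hU : ∀ z ∈ ball (0 : ℂ) 1, |Up P Q z| ≤ E) {z : ℂ} {δ : ℝ} (hδ : 0 < δ) (hz : ‖z‖ + δ < 1) :
    ‖Wr P Q z‖ ≤ 2 / δ * Real.exp (2 * E) := by
  have hsub : closedBall z δ ⊆ ball (0 : ℂ) 1 := by
    intro x hx
    rw [mem_closedBall, dist_eq_norm] at hx
    rw [mem_ball_zero_iff]
    have h1 : ‖x‖ ≤ ‖z‖ + ‖x - z‖ := by
      calc ‖x‖ = ‖z + (x - z)‖ := by congr 1; ring
        _ ≤ _ := norm_add_le _ _
    linarith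
  have hz1 : z ∈ ball (0 : ℂ) 1 := hsub (mem_closedBall_self hδ.le)
  obtain ⟨hPz, hQz, -⟩ := LGW_bounds hA hU hz1
  have hP' : ‖deriv P z‖ ≤ Real.exp E / δ :=
    Complex.norm_deriv_le_of_forall_mem_sphere_norm_le hδ (hA.1.diffContOnCl_ball hsub)
      fun x hx => (LGW_bounds hA hU (hsub (sphere_subset_closedBall hx))).1
  have hQ' : ‖deriv Q z‖ ≤ Real.exp E / δ :=
    Complex.norm_deriv_le_of_forall_mem_sphere_norm_le hδ (hA.2.1.diffContOnCl_ball hsub)
      fun x hx => (LGW_bounds hA hU (hsub (sphere_subset_closedBall hx))).2.1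
  have h4 : Real.exp (2 * E) = Real.exp E * Real.exp E := by
    rw [← Real.exp_add]
    congr 1
    ring
  unfold Wr
  have hE := (Real.exp_pos E).le
  calc ‖Q z * deriv P z - P z * deriv Q z‖ ≤ ‖Q z * deriv P z‖ + ‖P z * deriv Q z‖ :=
        norm_sub_le _ _
    _ = ‖Q z‖ * ‖deriv P z‖ + ‖P z‖ * ‖deriv Q z‖ := by rw [norm_mul, norm_mul]
    _ ≤ Real.exp E * (Real.exp E / δ) + Real.exp E * (Real.exp E / δ) := by
        gcongr
    _ = 2 / δ * Real.exp (2 * E) := by rw [h4]; ring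

theorem LGW_Wd {P Q : ℂ → ℂ} (hA : Adm P Q) : DifferentiableOn ℂ (Wr P Q) (ball 0 1) :=
  (hA.2.1.mul (hA.1.deriv isOpen_ball)).sub (hA.1.mul (hA.2.1.deriv isOpen_ball))

theorem LGW (hLGA : LGA_stmt) : LGW_stmt := by
  refine ⟨10 ^ 7, by norm_num, ?_⟩
  intro P Q E hA hE hU hmass
  have hWd := LGW_Wd hA
  have hexp1 : (40 : ℝ) ≤ Real.exp (4 * E) := by
    have h1 := Real.exp_one_gt_d9
    have h2 : Real.exp 4 = Real.exp 1 ^ 4 := by rw [← Real.exp_nat_mul]; norm_num
    have h3 : Real.exp 4 ≤ Real.exp (4 * E) := Real.exp_le_exp.2 (by linarith)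
    have h4 : (2.7 : ℝ) ^ 4 ≤ Real.exp 1 ^ 4 := by gcongr; linarith
    norm_num at h4
    linarith
  have hexp2 : (200 : ℝ) ≤ Real.exp (6 * E) := by
    have h1 := Real.exp_one_gt_d9
    have h2 : Real.exp 6 = Real.exp 1 ^ 6 := by rw [← Real.exp_nat_mul]; norm_num
    have h3 : Real.exp 6 ≤ Real.exp (6 * E) := Real.exp_le_exp.2 (by linarith)
    have h4 : (2.7 : ℝ) ^ 6 ≤ Real.exp 1 ^ 6 := by gcongr; linarith
    norm_num at h4
    linarith
  have hW1 : ∀ z ∈ ball (0 : ℂ) (19 / 20), ‖Wr P Q z‖ ≤ Real.exp (6 * E) := by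
    intro z hz
    rw [mem_ball_zero_iff] at hz
    have h1 := LGW_W hA hU (z := z) (δ := 1 / 20) (by norm_num) (by linarith)
    have h2 : Real.exp (6 * E) = Real.exp (4 * E) * Real.exp (2 * E) := by
      rw [← Real.exp_add]; congr 1; ring
    rw [h2]
    refine h1.trans ?_
    have h3 := Real.exp_pos (2 * E)
    nlinarith
  have hW2 : ∀ z ∈ ball (0 : ℂ) (99 / 100), ‖Wr P Q z‖ ≤ Real.exp (8 * E) := by
    intro z hz
    rw [mem_ball_zero_iff] at hz
    have h1 := LGW_W hA hU (z := z) (δ := 1 / 100) (by norm_num) (by linarith)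
    have h2 : Real.exp (8 * E) = Real.exp (6 * E) * Real.exp (2 * E) := by
      rw [← Real.exp_add]; congr 1; ring
    rw [h2]
    refine h1.trans ?_
    have h3 := Real.exp_pos (2 * E)
    nlinarith
  -- a point with large spherical derivative
  have hz0 : ∃ z0 ∈ ball (0 : ℂ) (1 / 2), 1 ≤ sph P Q z0 := by
    by_contra hcon
    push Not at hcon
    have h1 : ‖∫ z in ball (0 : ℂ) (1 / 2), sph P Q z‖ ≤ 1 * volume.real (ball (0 : ℂ) (1 / 2)) := by
      refine norm_setIntegral_le_of_norm_le_const measure_ball_lt_top fun z hz => ?_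
      have h2 : 0 ≤ sph P Q z := by
        unfold sph
        exact div_nonneg (Complex.normSq_nonneg _) (sq_nonneg _)
      rw [Real.norm_of_nonneg h2]
      exact (hcon z hz).le
    have h3 : volume.real (ball (0 : ℂ) (1 / 2)) = Real.pi / 4 := by
      rw [Measure.real, Complex.volume_ball, ENNReal.toReal_mul, ENNReal.toReal_pow,
        ENNReal.toReal_ofReal (by norm_num)]
      simp
      ring
    rw [h3] at h1
    have h4 := (le_abs_self _).trans h1
    have h5 := Real.pi_lt_d2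
    linarith
  obtain ⟨z0, hz0, hsph⟩ := hz0
  have hz0n : ‖z0‖ < 1 / 2 := by rwa [mem_ball_zero_iff] at hz0
  have hz01 : z0 ∈ ball (0 : ℂ) 1 := by
    rw [mem_ball_zero_iff]
    linarith
  have hWz0 : Real.exp (-(2 * E)) ≤ ‖Wr P Q z0‖ := by
    obtain ⟨-, -, hN⟩ := LGW_bounds hA hU hz01
    refine hN.trans ?_
    have hNp : 0 < Complex.normSq (P z0) + Complex.normSq (Q z0) :=
      lt_of_lt_of_le (Real.exp_pos _) hN
    unfold sph at hsph
    rw [one_le_div (pow_pos hNp 2), Complex.normSq_eq_norm_sq (Wr P Q z0)] at hsph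
    exact le_of_sq_le_sq hsph (norm_nonneg _)
  have hWz0ne : Wr P Q z0 ≠ 0 := norm_pos_iff.1 (lt_of_lt_of_le (Real.exp_pos _) hWz0)
  have hlogz0 : -(2 * E) ≤ Real.log ‖Wr P Q z0‖ := by
    rw [Real.le_log_iff_exp_le (norm_pos_iff.2 hWz0ne)]
    exact hWz0
  -- first application
  have hsub1 : ball z0 (49 / 100) ⊆ ball (0 : ℂ) (99 / 100) := by
    apply ball_subset_ball'
    rw [dist_zero_right]
    linarith
  have hI1 := hLGA (Wr P Q) z0 (48 / 100) (49 / 100) (8 * E) (by norm_num) (by norm_num)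
    (by linarith) (hWd.mono (hsub1.trans (ball_subset_ball (by norm_num))))
    (fun z hz => hW2 z (hsub1 hz)) hWz0ne
  -- the small ball
  obtain ⟨y, hyn, hysub⟩ : ∃ y : ℂ, ‖y‖ ≤ 3 / 100 ∧ ball y (1 / 100) ⊆ ball z0 (48 / 100) := by
    by_cases h : ‖z0‖ < 3 / 100
    · refine ⟨0, by rw [norm_zero]; norm_num, ball_subset_ball' ?_⟩
      rw [dist_comm, dist_zero_right]
      linarith
    · push Not at h
      have hpos : 0 < ‖z0‖ := by linarith
      refine ⟨((3 / 100 / ‖z0‖ : ℝ) : ℂ) * z0, ?_, ball_subset_ball' ?_⟩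
      · rw [norm_mul, Complex.norm_real, Real.norm_of_nonneg (by positivity),
          div_mul_cancel₀ _ hpos.ne']
      · rw [dist_comm, dist_eq_norm]
        have h1 : z0 - ((3 / 100 / ‖z0‖ : ℝ) : ℂ) * z0 = ((1 - 3 / 100 / ‖z0‖ : ℝ) : ℂ) * z0 := by
          push_cast
          ring
        have h2 : 0 ≤ 1 - 3 / 100 / ‖z0‖ := by
          rw [sub_nonneg, div_le_one hpos]
          exact h
        rw [h1, norm_mul, Complex.norm_real, Real.norm_of_nonneg h2, sub_mul,
          div_mul_cancel₀ _ hpos.ne']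
        linarith
  have hysub1 : ball y (1 / 100) ⊆ ball (0 : ℂ) 1 := by
    apply ball_subset_ball'
    rw [dist_zero_right]
    linarith
  have hz1 : ∃ z1 ∈ ball y (1 / 100), Wr P Q z1 ≠ 0 ∧ |Real.log ‖Wr P Q z1‖| ≤ 10 ^ 5 * E := by
    by_contra hcon
    push Not at hcon
    have hae : ∀ᵐ z ∂(volume.restrict (ball (0 : ℂ) 1)), Wr P Q z ≠ 0 := by
      have h1 := (hWd.analyticOnNhd isOpen_ball).preimage_zero_mem_codiscreteWithin hWz0ne hz01
        ((convex_ball (0 : ℂ) 1).isConnected ⟨0, mem_ball_self one_pos⟩)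
      exact ae_restrict_le_codiscreteWithin measurableSet_ball h1
    have h2 : ∫⁻ z in ball y (1 / 100), ENNReal.ofReal (10 ^ 5 * E) ≤
        ∫⁻ z in ball y (1 / 100), ENNReal.ofReal |Real.log ‖Wr P Q z‖| := by
      refine lintegral_mono_ae ?_
      have h3 := ae_restrict_of_ae_restrict_of_subset hysub1 hae
      filter_upwards [h3, ae_restrict_mem measurableSet_ball] with z hz hzb
      exact ENNReal.ofReal_le_ofReal (hcon z hzb hz).le
    have h4 : ∫⁻ z in ball y (1 / 100), ENNReal.ofReal |Real.log ‖Wr P Q z‖| ≤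
        ENNReal.ofReal (Real.pi * (48 / 100) ^ 2 * (2 * (8 * E) - Real.log ‖Wr P Q z0‖)) :=
      (lintegral_mono_set hysub).trans hI1
    have h5 := h2.trans h4
    rw [setLIntegral_const, Complex.volume_ball] at h5
    have h6 : ENNReal.ofReal (10 ^ 5 * E) * (ENNReal.ofReal (1 / 100) ^ 2 * NNReal.pi) =
        ENNReal.ofReal (10 ^ 5 * E * ((1 / 100) ^ 2 * Real.pi)) := by
      have hE0 : 0 ≤ 10 ^ 5 * E := by positivity
      rw [ENNReal.ofReal_mul hE0, ENNReal.ofReal_mul (p := (1 / 100) ^ 2) (by positivity),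
        ENNReal.ofReal_pow (by norm_num)]
      congr 2
      exact (ENNReal.ofReal_coe_nnreal (p := NNReal.pi)).symm
    rw [h6, ENNReal.ofReal_le_ofReal_iff] at h5
    · have hpi := Real.pi_pos
      have h7 : Real.pi * (48 / 100) ^ 2 * (2 * (8 * E) - Real.log ‖Wr P Q z0‖) ≤
          Real.pi * (48 / 100) ^ 2 * (18 * E) := by
        apply mul_le_mul_of_nonneg_left _ (by positivity)
        linarith
      have h8 : 0 < Real.pi * E := mul_pos hpi (by linarith)
      nlinarith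
    · have h9 : 0 ≤ 2 * (8 * E) - Real.log ‖Wr P Q z0‖ := by
        have h10 : Real.log ‖Wr P Q z0‖ ≤ 8 * E := by
          rw [Real.log_le_iff_le_exp (norm_pos_iff.2 hWz0ne)]
          apply hW2
          rw [mem_ball_zero_iff]
          linarith
        linarith
      have hpi := Real.pi_pos
      positivity
  obtain ⟨z1, hz1b, hWz1, hlogz1⟩ := hz1
  have hz1n : ‖z1‖ < 4 / 100 := by
    rw [mem_ball, dist_eq_norm] at hz1b
    have h1 : ‖z1‖ ≤ ‖y‖ + ‖z1 - y‖ := by
      calc ‖z1‖ = ‖y + (z1 - y)‖ := by congr 1; ring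
        _ ≤ _ := norm_add_le _ _
    linarith
  have hsub2 : ball z1 (9 / 10) ⊆ ball (0 : ℂ) (19 / 20) := by
    apply ball_subset_ball'
    rw [dist_zero_right]
    linarith
  have hI2 := hLGA (Wr P Q) z1 (86 / 100) (9 / 10) (6 * E) (by norm_num) (by norm_num)
    (by linarith) (hWd.mono (hsub2.trans (ball_subset_ball (by norm_num))))
    (fun z hz => hW1 z (hsub2 hz)) hWz1
  have hsub3 : ball (0 : ℂ) (4 / 5) ⊆ ball z1 (86 / 100) := by
    apply ball_subset_ball'
    rw [dist_comm, dist_zero_right]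
    linarith
  have hI3 : ∫⁻ z in ball (0 : ℂ) (4 / 5), ENNReal.ofReal |Real.log ‖Wr P Q z‖| ≤
      ENNReal.ofReal (10 ^ 7 * E) := by
    refine ((lintegral_mono_set hsub3).trans hI2).trans (ENNReal.ofReal_le_ofReal ?_)
    have h1 := (abs_le.1 hlogz1).1
    have hpi := Real.pi_lt_d2
    have hpi0 := Real.pi_pos
    have h2 : 2 * (6 * E) - Real.log ‖Wr P Q z1‖ ≤ (12 + 10 ^ 5) * E := by linarith
    calc Real.pi * (86 / 100) ^ 2 * (2 * (6 * E) - Real.log ‖Wr P Q z1‖) ≤
        Real.pi * (86 / 100) ^ 2 * ((12 + 10 ^ 5) * E) := by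
          apply mul_le_mul_of_nonneg_left h2 (by positivity)
      _ ≤ 3.15 * (86 / 100) ^ 2 * ((12 + 10 ^ 5) * E) := by
          gcongr
      _ ≤ _ := by nlinarith
  have hmeas : AEStronglyMeasurable (fun z => Real.log ‖Wr P Q z‖)
      (volume.restrict (ball (0 : ℂ) (4 / 5))) := by
    have h1 : AEStronglyMeasurable (Wr P Q) (volume.restrict (ball (0 : ℂ) (4 / 5))) :=
      (hWd.continuousOn.mono (ball_subset_ball (by norm_num))).aestronglyMeasurable
        measurableSet_ball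
    exact (Real.measurable_log.comp_aemeasurable h1.norm.aemeasurable).aestronglyMeasurable
  have hint : IntegrableOn (fun z => Real.log ‖Wr P Q z‖) (ball (0 : ℂ) (4 / 5)) := by
    refine ⟨hmeas, ?_⟩
    rw [hasFiniteIntegral_iff_norm]
    simp only [Real.norm_eq_abs]
    exact lt_of_le_of_lt hI3 ENNReal.ofReal_lt_top
  refine ⟨hW1, hint, ?_⟩
  have habs : ∫ z in ball (0 : ℂ) (4 / 5), |Real.log ‖Wr P Q z‖| =
      (∫⁻ z in ball (0 : ℂ) (4 / 5), ENNReal.ofReal |Real.log ‖Wr P Q z‖|).toReal :=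
    integral_eq_lintegral_of_nonneg_ae (Eventually.of_forall fun z => abs_nonneg _)
      (continuous_abs.comp_aestronglyMeasurable hmeas)
  rw [habs]
  exact ENNReal.toReal_le_of_le_ofReal (by positivity) hI3

end Pool.Agent.P2I
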