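import Pool.Agent.helper56.P2.SpecW
import Pool.Agent.helper85.P2.INTM
import Pool.Agent.helper42.P2.DMS

set_option autoImplicit false

/-! Project P2 (MP_063734_an), row WAF. -/

open scoped ContDiff Topology ComplexConjugate ENNReal
open MeasureTheory Filter Set Metric MvPolynomial Pool.Agent.helper37.QA

namespace Pool.Agent.P2W

open Pool.Agent.P2

theorem WAF : WAF_stmt := by
  intro G p hG hp
  have hnq : nq (G p) ≠ 0 := (INTM_nq_pos _ hp).ne'
  refine ⟨?_, ?_⟩
  · have c : ∀ i, ContDiffAt ℝ ∞ (fun q => G q i) p := by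
      intro i
      have h1 : AnalyticAt ℂ (fun q => G q i) p := by
        have h2 : AnalyticAt ℂ (fun v : E3 => v i) (G p) :=
          (ContinuousLinearMap.proj (R := ℂ) (φ := fun _ : Fin 3 => ℂ) i).analyticAt _
        exact h2.comp hG
      exact (h1.contDiffAt (n := ∞)).restrict_scalars ℝ
    have hN2 : ContDiffAt ℝ ∞ (fun q => nq (G q)) p := by
      unfold nq
      exact ContDiffAt.sum fun i _ => DMS_normSq.contDiffAt.comp p (c i)
    exact contDiffAt_const.mul (hN2.log hnq)
  · intro a
    unfold lev
    have hl : AnalyticAt ℂ (fun t : ℂ => p + t • a) 0 := by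
      have h1 : Differentiable ℂ (fun t : ℂ => p + t • a) := by fun_prop
      exact h1.analyticAt 0
    have e0 : p + (0 : ℂ) • a = p := by rw [zero_smul, add_zero]
    have hG' : AnalyticAt ℂ G (p + (0 : ℂ) • a) := by rw [e0]; exact hG
    have hh : AnalyticAt ℂ (fun t : ℂ => G (p + t • a)) 0 :=
      AnalyticAt.comp (g := G) (f := fun t : ℂ => p + t • a) hG' hl
    obtain ⟨r, hr, hball⟩ := hh.exists_ball_analyticOnNhd
    have hd : deriv (fun t : ℂ => G (p + t • a)) 0 = fderiv ℂ G p a := by
      have h1 : HasDerivAt (fun t : ℂ => p + t • a) a 0 := by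
        have h2 := ((hasDerivAt_id (0 : ℂ)).smul_const a).const_add p
        rw [one_smul] at h2
        exact h2
      have h3 : HasFDerivAt G (fderiv ℂ G p) (p + (0 : ℂ) • a) := by
        rw [e0]
        exact hG.differentiableAt.hasFDerivAt
      exact (h3.comp_hasDerivAt (0 : ℂ) h1).deriv
    have h4 := INTM_lap (fun t : ℂ => G (p + t • a)) (ball 0 r) isOpen_ball 0 (mem_ball_self hr)
      hball.differentiableOn (by rw [e0]; exact hp)
    rw [hd] at h4
    simp only [e0] at h4
    rw [INTM_lagr]
    exact h4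

end Pool.Agent.P2W
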