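import Pool.Agent.helper56.P2.SpecW

set_option autoImplicit false

/-! Project P2 (MP_063734_an), row WCH: charts. -/

open scoped ContDiff Topology ComplexConjugate ENNReal
open MeasureTheory Filter Set Metric MvPolynomial Pool.Agent.helper37.QA

namespace Pool.Agent.P2W

open Pool.Agent.P2

/-! ### Holomorphy of `sF` -/

theorem WCH_gam {γ : ℂ → ℂ} (hγ : DifferentiableOn ℂ γ (ball 0 1)) {ξ0 : ℂ} {ρ : ℝ} (hξ : ‖ξ0‖ ≤ 1 / 16)
    (hρ : 0 < ρ) (hρ1 : ρ ≤ 1 / 16) {p : ℂ × ℂ} (hp : ‖p.1‖ < 4) :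
    AnalyticAt ℂ (fun q : ℂ × ℂ => γ (ξ0 + ρ * q.1)) p := by
  have h1 : ‖ξ0 + ρ * p.1‖ < 1 := by
    have h2 : ‖(ρ : ℂ) * p.1‖ ≤ 1 / 16 * 4 := by
      rw [norm_mul, Complex.norm_real, Real.norm_of_nonneg hρ.le]
      exact mul_le_mul hρ1 hp.le (norm_nonneg _) (by norm_num)
    have h3 := norm_add_le ξ0 ((ρ : ℂ) * p.1)
    linarith
  have h2 : AnalyticAt ℂ γ (ξ0 + ρ * p.1) :=
    hγ.analyticAt (isOpen_ball.mem_nhds (by rw [mem_ball_zero_iff]; exact h1))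
  have h3 : AnalyticAt ℂ (fun q : ℂ × ℂ => ξ0 + (ρ : ℂ) * q.1) p := by
    have h4 : Differentiable ℂ (fun q : ℂ × ℂ => ξ0 + (ρ : ℂ) * q.1) := by fun_prop
    exact analyticAt_const.add (analyticAt_const.mul analyticAt_fst)
  exact AnalyticAt.comp (g := γ) (f := fun q : ℂ × ℂ => ξ0 + (ρ : ℂ) * q.1) h2 h3

theorem WCH_hol {d : ℕ} (f : Endo 2 d) (ι : Fin 2) (c : ℂ) (κ : ℝ) (γ : ℂ → ℂ) (n : ℕ) (ξ0 : ℂ) (ρ : ℝ)
    (hγ : DifferentiableOn ℂ γ (ball 0 1)) (hξ : ‖ξ0‖ ≤ 1 / 16)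
    (hρ : 0 < ρ) (hρ1 : ρ ≤ 1 / 16) (p : ℂ × ℂ) (hp : ‖p.1‖ < 4) (i : Fin 3) :
    AnalyticAt ℂ (fun q => sF f n ι c κ γ ξ0 ρ q i) p := by
  have h0 := WCH_gam hγ hξ hρ hρ1 hp
  have h1 : ∀ j, AnalyticAt ℂ (fun q => gp ι c κ γ (Sc ξ0 ρ κ q) j) p := by
    intro j
    have a1 : AnalyticAt ℂ (fun q : ℂ × ℂ => c + (κ : ℂ) * (ξ0 + (ρ : ℂ) * q.1)) p :=
      analyticAt_const.add (analyticAt_const.mul (analyticAt_const.add (analyticAt_const.mul analyticAt_fst)))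
    have a2 : AnalyticAt ℂ (fun q : ℂ × ℂ => γ (ξ0 + (ρ : ℂ) * q.1) + (κ : ℂ) * ((ρ : ℂ) * q.2)) p :=
      h0.add (analyticAt_const.mul (analyticAt_const.mul analyticAt_snd))
    have a3 : AnalyticAt ℂ (fun _ : ℂ × ℂ => (1 : ℂ)) p := analyticAt_const
    unfold gp cht Sc
    by_cases hι : ι = 0
    · simp only [if_pos hι]
      fin_cases j
      · exact a3
      · exact a1
      · exact a2
    · simp only [if_neg hι]
      fin_cases j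
      · exact a1
      · exact a3
      · exact a2
  exact AnalyticAt.aeval_mvPolynomial h1 (iter f.F n i)

/-! ### Chart algebra -/

/-- estimates for one chart -/
theorem WCH_est (x1 x2 : ℂ) (κB : ℝ) (hκB : 0 < κB) (hκB1 : κB ≤ 1 / 40) (hx1 : ‖x1‖ ≤ 2 + 1 / 80)
    (h12 : ‖x2 - x1‖ < 3 / 2 * κB) :
    1 + x2 * conj x1 ≠ 0 ∧ ‖(x2 - x1) / (1 + x2 * conj x1)‖ < 2 * κB := by
  have h1 : (1 : ℂ) + x2 * conj x1 = ((1 + ‖x1‖ ^ 2 : ℝ) : ℂ) + (x2 - x1) * conj x1 := by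
    push_cast
    rw [← Complex.mul_conj' x1]
    ring
  have h2 : 99 / 100 ≤ ‖(1 : ℂ) + x2 * conj x1‖ := by
    rw [h1]
    have h3 : ‖((1 + ‖x1‖ ^ 2 : ℝ) : ℂ)‖ = 1 + ‖x1‖ ^ 2 := by
      rw [Complex.norm_real, Real.norm_of_nonneg (by positivity)]
    have h4 : ‖(x2 - x1) * conj x1‖ ≤ 3 / 80 * ‖x1‖ := by
      rw [norm_mul, RCLike.norm_conj]
      exact mul_le_mul_of_nonneg_right (by linarith) (norm_nonneg _)
    have h5 := norm_sub_le_norm_add ((1 + ‖x1‖ ^ 2 : ℝ) : ℂ) ((x2 - x1) * conj x1)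
    rw [h3] at h5
    nlinarith [sq_nonneg (‖x1‖ - 3 / 160)]
  have h6 : (1 : ℂ) + x2 * conj x1 ≠ 0 := by
    intro h7
    rw [h7, norm_zero] at h2
    linarith
  refine ⟨h6, ?_⟩
  rw [norm_div, div_lt_iff₀ (by linarith)]
  nlinarith

theorem WCH_chart0 (A B c' x1 : ℂ) (κB : ℝ) (hκB : 0 < κB) (hκB1 : κB ≤ 1 / 40) (hc' : ‖c'‖ ≤ 2)
    (hA : A ≠ 0) (hB : B = x1 * A) (hx1 : ‖x1 - c'‖ ≤ κB / 2) :
    ∃ T L : ℂ → ℂ, DifferentiableOn ℂ T (ball 0 1) ∧ DifferentiableOn ℂ L (ball 0 1) ∧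
      T ((x1 - c') / κB) = 0 ∧ ∀ ζ ∈ ball (0 : ℂ) 1, ‖T ζ‖ < 2 * κB ∧ L ζ ≠ 0 ∧
        Real.sqrt (Complex.normSq A + Complex.normSq B) ≤ 3 * ‖L ζ‖ ∧ A - T ζ * conj B = L ζ ∧
        B + T ζ * conj A = L ζ * (c' + κB * ζ) := by
  have hAc : conj A ≠ 0 := (map_ne_zero (starRingEnd ℂ)).2 hA
  have hκc : (κB : ℂ) ≠ 0 := by exact_mod_cast hκB.ne'
  have hx1n : ‖x1‖ ≤ 2 + 1 / 80 := by
    have h1 := norm_add_le (x1 - c') c'
    rw [sub_add_cancel] at h1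
    linarith
  have h12 : ∀ ζ ∈ ball (0 : ℂ) 1, ‖(c' + κB * ζ) - x1‖ < 3 / 2 * κB := by
    intro ζ hζ
    rw [mem_ball_zero_iff] at hζ
    have h1 : (c' + κB * ζ) - x1 = (κB : ℂ) * ζ - (x1 - c') := by ring
    have h2 : ‖(κB : ℂ) * ζ‖ < κB := by
      rw [norm_mul, Complex.norm_real, Real.norm_of_nonneg hκB.le]
      nlinarith
    have h3 := norm_sub_le ((κB : ℂ) * ζ) (x1 - c')
    rw [h1]
    linarith
  set T : ℂ → ℂ := fun ζ => (A / conj A) * (((c' + κB * ζ) - x1) / (1 + (c' + κB * ζ) * conj x1)) with hT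
  have hne : ∀ ζ ∈ ball (0 : ℂ) 1, 1 + (c' + κB * ζ) * conj x1 ≠ 0 := fun ζ hζ =>
    (WCH_est x1 (c' + κB * ζ) κB hκB hκB1 hx1n (h12 ζ hζ)).1
  have hTn : ∀ ζ ∈ ball (0 : ℂ) 1, ‖T ζ‖ < 2 * κB := by
    intro ζ hζ
    have h1 := (WCH_est x1 (c' + κB * ζ) κB hκB hκB1 hx1n (h12 ζ hζ)).2
    have h2 : ‖A / conj A‖ = 1 := by
      rw [norm_div, RCLike.norm_conj, div_self (norm_ne_zero_iff.2 hA)]
    show ‖(A / conj A) * (((c' + κB * ζ) - x1) / (1 + (c' + κB * ζ) * conj x1))‖ < 2 * κB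
    rw [norm_mul, h2, one_mul]
    exact h1
  have hTd : DifferentiableOn ℂ T (ball 0 1) := by
    refine (differentiableOn_const _).mul (DifferentiableOn.div ?_ ?_ hne)
    · have : Differentiable ℂ fun ζ : ℂ => (c' + κB * ζ) - x1 := by fun_prop
      exact this.differentiableOn
    · have : Differentiable ℂ fun ζ : ℂ => 1 + (c' + κB * ζ) * conj x1 := by fun_prop
      exact this.differentiableOn
  have hLn : ∀ ζ ∈ ball (0 : ℂ) 1, 8 / 9 * ‖A‖ ≤ ‖A - T ζ * conj B‖ := by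
    intro ζ hζ
    have h1 := hTn ζ hζ
    have h2 : ‖T ζ * conj B‖ ≤ 1 / 9 * ‖A‖ := by
      rw [norm_mul (T ζ) (conj B), RCLike.norm_conj, hB, norm_mul x1 A, ← mul_assoc]
      refine mul_le_mul_of_nonneg_right ?_ (norm_nonneg _)
      have h3 : ‖T ζ‖ * ‖x1‖ ≤ 1 / 20 * (2 + 1 / 80) :=
        mul_le_mul (by linarith) hx1n (norm_nonneg _) (by norm_num)
      linarith
    have h3 := norm_sub_norm_le A (T ζ * conj B)
    linarith
  have hAn : 0 < ‖A‖ := norm_pos_iff.2 hA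
  refine ⟨T, fun ζ => A - T ζ * conj B, hTd, (differentiableOn_const _).sub (hTd.mul_const _), ?_, ?_⟩
  · show (A / conj A) * (((c' + κB * ((x1 - c') / κB)) - x1) / (1 + (c' + κB * ((x1 - c') / κB)) * conj x1)) = 0
    have h1 : c' + κB * ((x1 - c') / κB) - x1 = 0 := by
      field_simp
      ring
    rw [h1, zero_div, mul_zero]
  · intro ζ hζ
    have h1 := hLn ζ hζ
    refine ⟨hTn ζ hζ, ?_, ?_, rfl, ?_⟩
    · intro h2
      have h3 : ‖A - T ζ * conj B‖ = 0 := by rw [norm_eq_zero]; exact h2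
      rw [h3] at h1
      nlinarith
    · have h2 : Complex.normSq A + Complex.normSq B ≤ (8 / 3 * ‖A‖) ^ 2 := by
        rw [Complex.normSq_eq_norm_sq, Complex.normSq_eq_norm_sq, hB, norm_mul]
        have h3 : ‖x1‖ ^ 2 ≤ (2 + 1 / 80) ^ 2 := pow_le_pow_left₀ (norm_nonneg _) hx1n 2
        nlinarith [sq_nonneg ‖A‖]
      have h4 : Real.sqrt (Complex.normSq A + Complex.normSq B) ≤ 8 / 3 * ‖A‖ := by
        rw [show 8 / 3 * ‖A‖ = Real.sqrt ((8 / 3 * ‖A‖) ^ 2) from (Real.sqrt_sq (by positivity)).symm]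
        exact Real.sqrt_le_sqrt h2
      show Real.sqrt (Complex.normSq A + Complex.normSq B) ≤ 3 * ‖A - T ζ * conj B‖
      linarith
    · show B + T ζ * conj A = (A - T ζ * conj B) * (c' + κB * ζ)
      have h5 := hne ζ hζ
      have h6 : T ζ * (conj A * (1 + (c' + κB * ζ) * conj x1)) = A * ((c' + κB * ζ) - x1) := by
        show ((A / conj A) * (((c' + κB * ζ) - x1) / (1 + (c' + κB * ζ) * conj x1))) *
          (conj A * (1 + (c' + κB * ζ) * conj x1)) = A * ((c' + κB * ζ) - x1)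
        field_simp
      rw [hB, map_mul]
      linear_combination h6

theorem WCH_chart (ι' : Fin 2) (P0 Q0 c' x1 : ℂ) (κB : ℝ) (hκB : 0 < κB) (hκB1 : κB ≤ 1 / 40) (hc' : ‖c'‖ ≤ 2)
    (h0 : (ι' = 0 ∧ P0 ≠ 0 ∧ Q0 = x1 * P0) ∨ (ι' ≠ 0 ∧ Q0 ≠ 0 ∧ P0 = x1 * Q0)) (hx1 : ‖x1 - c'‖ ≤ κB / 2) :
    ∃ T L : ℂ → ℂ, DifferentiableOn ℂ T (ball 0 1) ∧ DifferentiableOn ℂ L (ball 0 1) ∧
      T ((x1 - c') / κB) = 0 ∧ ∀ ζ ∈ ball (0 : ℂ) 1, ‖T ζ‖ < 2 * κB ∧ L ζ ≠ 0 ∧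
        Real.sqrt (Complex.normSq P0 + Complex.normSq Q0) ≤ 3 * ‖L ζ‖ ∧ ∀ z : ℂ,
        ![P0 - T ζ * conj Q0, Q0 + T ζ * conj P0, L ζ * z] = L ζ • cht ι' (c' + κB * ζ) z := by
  rcases h0 with ⟨hι, hP, hQ⟩ | ⟨hι, hQ, hP⟩
  · obtain ⟨T, L, hT, hL, hT0, h⟩ := WCH_chart0 P0 Q0 c' x1 κB hκB hκB1 hc' hP hQ hx1
    refine ⟨T, L, hT, hL, hT0, fun ζ hζ => ?_⟩
    obtain ⟨a1, a2, a3, a4, a5⟩ := h ζ hζ
    refine ⟨a1, a2, a3, fun z => ?_⟩
    unfold cht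
    rw [if_pos hι, a4, a5]
    ext i
    fin_cases i
    · show L ζ = L ζ * 1
      ring
    · rfl
    · rfl
  · obtain ⟨T, L, hT, hL, hT0, h⟩ := WCH_chart0 Q0 P0 c' x1 κB hκB hκB1 hc' hQ hP hx1
    refine ⟨fun ζ => - T ζ, L, hT.neg, hL, ?_, fun ζ hζ => ?_⟩
    · show - T ((x1 - c') / κB) = 0
      rw [hT0, neg_zero]
    · obtain ⟨a1, a2, a3, a4, a5⟩ := h ζ hζ
      refine ⟨by rw [norm_neg]; exact a1, a2, by rw [add_comm]; exact a3, fun z => ?_⟩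
      unfold cht
      rw [if_neg hι]
      ext i
      fin_cases i
      · show P0 - (- T ζ) * conj Q0 = L ζ * (c' + κB * ζ)
        rw [← a5]
        ring
      · show Q0 + (- T ζ) * conj P0 = L ζ * 1
        rw [mul_one, ← a4]
        ring
      · rfl

theorem WCH : WCH_stmt := by
  intro d f ι c κ γ n ξ0 x ρ κ1 h1 σ e sB κB Y hγ hκ hκ1' hξ hρ hρ1 hpos hx hκ1 hκ11 hh1 hh11 hband hz hY hsB hsB1 hκB hκB1
    hκB2 hσ he
  obtain ⟨hYd, hY0, hYb⟩ := hband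
  set F := sF f n ι c κ γ ξ0 ρ with hF
  have hFx : F (x, 0) = It f n (gp ι c κ γ (ξ0 + ρ * x, 0)) := by
    show It f n (gp ι c κ γ (ξ0 + ρ * x, (κ : ℂ) * ((ρ : ℂ) * 0))) = _
    rw [mul_zero, mul_zero]
  set P0 : ℂ := F (x, 0) 0 with hP0
  set Q0 : ℂ := F (x, 0) 1 with hQ0
  have hpq0 : 0 < Complex.normSq P0 + Complex.normSq Q0 :=
    hpos (x, 0) ⟨mem_ball_zero_iff.1 hx, by simp⟩
  have hnr : P2B.nr F x = Real.sqrt (Complex.normSq P0 + Complex.normSq Q0) := rfl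
  have hκB40 : κB ≤ 1 / 40 := by linarith
  have hσ0 : 0 ≤ σ := (norm_nonneg _).trans (hz 0 (mem_ball_self hκ1) 0 (mem_ball_self hh1))
  intro ι' c' hc' hex
  obtain ⟨x1, y1, a, ha, hIt, hx1⟩ := hex
  have hchart : (ι' = 0 ∧ P0 ≠ 0 ∧ Q0 = x1 * P0) ∨ (ι' ≠ 0 ∧ Q0 ≠ 0 ∧ P0 = x1 * Q0) := by
    rw [← hFx] at hIt
    by_cases hι : ι' = 0
    · left
      have e0 : P0 = a := by
        rw [hP0, hIt]
        unfold cht
        rw [if_pos hι]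
        show a * 1 = a
        ring
      have e1 : Q0 = a * x1 := by
        rw [hQ0, hIt]
        unfold cht
        rw [if_pos hι]
        rfl
      refine ⟨hι, by rw [e0]; exact ha, ?_⟩
      rw [e0, e1, mul_comm]
    · right
      have e0 : Q0 = a := by
        rw [hQ0, hIt]
        unfold cht
        rw [if_neg hι]
        show a * 1 = a
        ring
      have e1 : P0 = a * x1 := by
        rw [hP0, hIt]
        unfold cht
        rw [if_neg hι]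
        rfl
      refine ⟨hι, by rw [e0]; exact ha, ?_⟩
      rw [e0, e1, mul_comm]
  obtain ⟨T, L, hTd, hLd, hT0, hTL⟩ := WCH_chart ι' P0 Q0 c' x1 κB hκB hκB40 hc' hchart hx1
  -- the map into the band
  set s : ℝ := sB / (κ * ρ) with hs
  have hκρ : 0 < κ * ρ := by positivity
  have hs0 : 0 < s := by positivity
  have hs1 : s ≤ h1 := by
    rw [hs, div_le_iff₀ hκρ]
    linarith
  have hmap : ∀ p ∈ ball (0 : ℂ × ℂ) 1, T p.1 ∈ ball (0 : ℂ) κ1 ∧ (s : ℂ) * p.2 ∈ ball (0 : ℂ) h1 ∧ p.1 ∈ ball (0 : ℂ) 1 := by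
    intro p hp
    rw [mem_ball_zero_iff, Prod.norm_def, max_lt_iff] at hp
    have hp1 : p.1 ∈ ball (0 : ℂ) 1 := by rw [mem_ball_zero_iff]; exact hp.1
    refine ⟨?_, ?_, hp1⟩
    · rw [mem_ball_zero_iff]
      exact (hTL p.1 hp1).1.trans_le hκB2
    · rw [mem_ball_zero_iff, norm_mul, Complex.norm_real, Real.norm_of_nonneg hs0.le]
      nlinarith [hp.2]
  have hball0 : ∀ ζ ∈ ball (0 : ℂ) 1, ((ζ, 0) : ℂ × ℂ) ∈ ball (0 : ℂ × ℂ) 1 := by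
    intro ζ hζ
    rw [mem_ball_zero_iff] at hζ ⊢
    rw [Prod.norm_def]
    simpa using hζ
  -- the points of the band
  have hpt : ∀ t ∈ ball (0 : ℂ) κ1, ∀ v ∈ ball (0 : ℂ) h1,
      F (Y (t, v), v) 0 * conj P0 + F (Y (t, v), v) 1 * conj Q0 ≠ 0 ∧
      F (Y (t, v), v) 0 = (F (Y (t, v), v) 0 * conj P0 + F (Y (t, v), v) 1 * conj Q0) /
        ((P2B.nr F x : ℂ) ^ 2) * (P0 - t * conj Q0) ∧
      F (Y (t, v), v) 1 = (F (Y (t, v), v) 0 * conj P0 + F (Y (t, v), v) 1 * conj Q0) /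
        ((P2B.nr F x : ℂ) ^ 2) * (Q0 + t * conj P0) := by
    intro t ht v hv
    obtain ⟨hYS, hYe⟩ := hYb t ht v hv
    change F (Y (t, v), v) 0 * (Q0 + t * conj P0) = F (Y (t, v), v) 1 * (P0 - t * conj Q0) at hYe
    have hn2 : ((P2B.nr F x : ℂ) ^ 2) = P0 * conj P0 + Q0 * conj Q0 := by
      rw [hnr, ← Complex.ofReal_pow, Real.sq_sqrt hpq0.le]
      push_cast
      rw [Complex.normSq_eq_conj_mul_self, Complex.normSq_eq_conj_mul_self]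
      ring
    have hn0 : ((P2B.nr F x : ℂ) ^ 2) ≠ 0 := by
      rw [hnr, ← Complex.ofReal_pow, Real.sq_sqrt hpq0.le]
      exact_mod_cast hpq0.ne'
    have hv1 : v ∈ ball (0 : ℂ) 1 := ball_subset_ball hh11 hv
    have hpv : 0 < pq (F (Y (t, v), v)) := hpos (Y (t, v), v) ⟨mem_ball_zero_iff.1 hYS, mem_ball_zero_iff.1 hv1⟩
    have e1 : F (Y (t, v), v) 0 = (F (Y (t, v), v) 0 * conj P0 + F (Y (t, v), v) 1 * conj Q0) /
        ((P2B.nr F x : ℂ) ^ 2) * (P0 - t * conj Q0) := by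
      rw [div_mul_eq_mul_div, eq_div_iff hn0, hn2]
      linear_combination (conj Q0) * hYe
    have e2 : F (Y (t, v), v) 1 = (F (Y (t, v), v) 0 * conj P0 + F (Y (t, v), v) 1 * conj Q0) /
        ((P2B.nr F x : ℂ) ^ 2) * (Q0 + t * conj P0) := by
      rw [div_mul_eq_mul_div, eq_div_iff hn0, hn2]
      linear_combination (-conj P0) * hYe
    refine ⟨?_, e1, e2⟩
    intro h0
    rw [h0, zero_div, zero_mul] at e1 e2
    unfold pq at hpv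
    rw [e1, e2] at hpv
    simp at hpv
  have hnrc : (P2B.nr F x : ℂ) ≠ 0 := by
    rw [hnr]
    exact_mod_cast (Real.sqrt_pos.2 hpq0).ne'
  set X : ℂ × ℂ → ℂ := fun p => ξ0 + ρ * Y (T p.1, (s : ℂ) * p.2) with hX
  set V : ℂ × ℂ → ℂ := fun p => P2B.zb F x Y (T p.1, (s : ℂ) * p.2) * (P2B.nr F x : ℂ) / L p.1 with hV
  -- differentiability
  have hg : DifferentiableOn ℂ (fun p : ℂ × ℂ => ((T p.1, (s : ℂ) * p.2) : ℂ × ℂ)) (ball 0 1) := by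
    have g1 : DifferentiableOn ℂ (fun p : ℂ × ℂ => T p.1) (ball 0 1) :=
      hTd.comp differentiableOn_fst (fun p hp => (hmap p hp).2.2)
    have g2 : DifferentiableOn ℂ (fun p : ℂ × ℂ => (s : ℂ) * p.2) (ball 0 1) :=
      (differentiableOn_const _).mul differentiableOn_snd
    exact g1.prodMk g2
  have hgm : MapsTo (fun p : ℂ × ℂ => ((T p.1, (s : ℂ) * p.2) : ℂ × ℂ)) (ball 0 1) (ball (0 : ℂ) κ1 ×ˢ ball (0 : ℂ) h1) :=
    fun p hp => ⟨(hmap p hp).1, (hmap p hp).2.1⟩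
  have hzbd : DifferentiableOn ℂ (P2B.zb F x Y) (ball (0 : ℂ) κ1 ×ˢ ball (0 : ℂ) h1) := by
    have hYv : DifferentiableOn ℂ (fun p : ℂ × ℂ => ((Y p, p.2) : ℂ × ℂ)) (ball (0 : ℂ) κ1 ×ˢ ball (0 : ℂ) h1) :=
      hYd.prodMk differentiableOn_snd
    have hFi : ∀ i : Fin 3, DifferentiableOn ℂ (fun p : ℂ × ℂ => F (Y p, p.2) i) (ball (0 : ℂ) κ1 ×ˢ ball (0 : ℂ) h1) := by
      intro i
      have a1 : DifferentiableOn ℂ (fun q => F q i) {q : ℂ × ℂ | ‖q.1‖ < 4} := fun q hq =>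
        (WCH_hol f ι c κ γ n ξ0 ρ hγ hξ hρ hρ1 q hq i).differentiableAt.differentiableWithinAt
      refine a1.comp hYv ?_
      rintro ⟨t, v⟩ ⟨ht, hv⟩
      have a2 := (hYb t ht v hv).1
      rw [mem_ball_zero_iff] at a2
      show ‖Y (t, v)‖ < 4
      linarith
    unfold P2B.zb
    simp only [div_eq_mul_inv]
    refine ((hFi 2).mul_const _).mul (DifferentiableOn.inv (((hFi 0).mul_const _).add ((hFi 1).mul_const _)) ?_)
    rintro ⟨t, v⟩ ⟨ht, hv⟩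
    exact (hpt t ht v hv).1
  have hXd : DifferentiableOn ℂ X (ball 0 1) :=
    (differentiableOn_const _).add ((differentiableOn_const _).mul (hYd.comp hg hgm))
  have hVd : DifferentiableOn ℂ V (ball 0 1) := by
    have v1 : DifferentiableOn ℂ (fun p : ℂ × ℂ => (L p.1)⁻¹) (ball 0 1) := by
      refine DifferentiableOn.inv (hLd.comp differentiableOn_fst (fun p hp => (hmap p hp).2.2)) ?_
      intro p hp
      exact (hTL p.1 (hmap p hp).2.2).2.1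
    exact ((hzbd.comp hg hgm).mul_const (P2B.nr F x : ℂ)).mul v1
  refine ⟨X, V, hXd, hVd, ?_, ?_, ?_⟩
  · refine ⟨(x1 - c') / κB, ?_, ?_⟩
    · rw [mem_ball_zero_iff, norm_div, Complex.norm_real, Real.norm_of_nonneg hκB.le,
        div_lt_iff₀ hκB]
      linarith
    · show ξ0 + ρ * Y (T ((x1 - c') / κB), (s : ℂ) * 0) = ξ0 + ρ * x
      rw [hT0, mul_zero, hY0]
  · intro ζ hζ
    obtain ⟨m1, m2, m3⟩ := hmap (ζ, 0) (hball0 ζ hζ)
    show ‖ξ0 + ρ * Y (T ζ, (s : ℂ) * 0) - (ξ0 + ρ * x)‖ ≤ κB / (64 * κ)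
    have e1 : ξ0 + ρ * Y (T ζ, (s : ℂ) * 0) - (ξ0 + ρ * x) = (ρ : ℂ) * (Y (T ζ, 0) - x) := by
      rw [mul_zero]
      ring
    rw [e1, norm_mul, Complex.norm_real, Real.norm_of_nonneg hρ.le]
    exact (mul_le_mul_of_nonneg_left (hY (T ζ) m1) hρ.le).trans he
  · intro p hp
    obtain ⟨m1, m2, m3⟩ := hmap p hp
    obtain ⟨k1, k2, k3, k4⟩ := hTL p.1 m3
    have hLn : 0 < ‖L p.1‖ := norm_pos_iff.2 k2
    refine ⟨?_, ?_, ?_⟩
    · show ‖ξ0 + ρ * Y (T p.1, (s : ℂ) * p.2)‖ < 1 / 2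
      have a1 := (hYb _ m1 _ m2).1
      rw [mem_ball_zero_iff] at a1
      have a2 : ‖(ρ : ℂ) * Y (T p.1, (s : ℂ) * p.2)‖ ≤ 1 / 16 * 1 := by
        rw [norm_mul, Complex.norm_real, Real.norm_of_nonneg hρ.le]
        exact mul_le_mul hρ1 a1.le (norm_nonneg _) (by norm_num)
      have a3 := norm_add_le ξ0 ((ρ : ℂ) * Y (T p.1, (s : ℂ) * p.2))
      linarith
    · show ‖P2B.zb F x Y (T p.1, (s : ℂ) * p.2) * (P2B.nr F x : ℂ) / L p.1 -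
        P2B.zb F x Y (T p.1, (s : ℂ) * 0) * (P2B.nr F x : ℂ) / L p.1‖ ≤ sB / 16
      rw [mul_zero, ← sub_div, ← sub_mul, norm_div, norm_mul, Complex.norm_real,
        Real.norm_of_nonneg (by rw [hnr]; exact Real.sqrt_nonneg _), div_le_iff₀ hLn]
      have a1 := hz (T p.1) m1 ((s : ℂ) * p.2) m2
      calc ‖P2B.zb F x Y (T p.1, (s : ℂ) * p.2) - P2B.zb F x Y (T p.1, 0)‖ * P2B.nr F x ≤ σ * (3 * ‖L p.1‖) :=
            mul_le_mul a1 (by rw [hnr]; exact k3) (by rw [hnr]; exact Real.sqrt_nonneg _) hσ0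
        _ = (3 * σ) * ‖L p.1‖ := by ring
        _ ≤ sB / 16 * ‖L p.1‖ := mul_le_mul_of_nonneg_right (by linarith) hLn.le
    · obtain ⟨b1, b2, b3⟩ := hpt _ m1 _ m2
      set S : ℂ := F (Y (T p.1, (s : ℂ) * p.2), (s : ℂ) * p.2) 0 * conj P0 +
        F (Y (T p.1, (s : ℂ) * p.2), (s : ℂ) * p.2) 1 * conj Q0 with hS
      have hlam : S / ((P2B.nr F x : ℂ) ^ 2) ≠ 0 := div_ne_zero b1 (pow_ne_zero 2 hnrc)
      refine ⟨S / ((P2B.nr F x : ℂ) ^ 2) * L p.1, mul_ne_zero hlam k2, ?_⟩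
      have e1 : It f n (gp ι c κ γ (X p, sB * p.2)) = F (Y (T p.1, (s : ℂ) * p.2), (s : ℂ) * p.2) := by
        show _ = It f n (gp ι c κ γ (ξ0 + ρ * Y (T p.1, (s : ℂ) * p.2), (κ : ℂ) * ((ρ : ℂ) * ((s : ℂ) * p.2))))
        have e2 : (κ : ℂ) * ((ρ : ℂ) * ((s : ℂ) * p.2)) = sB * p.2 := by
          rw [hs]
          push_cast
          have c1 : (κ : ℂ) ≠ 0 := by exact_mod_cast hκ.ne'
          have c2 : (ρ : ℂ) ≠ 0 := by exact_mod_cast hρ.ne'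
          field_simp
        rw [e2]
      rw [e1, mul_smul, ← k4 (V p)]
      have e3 : S / ((P2B.nr F x : ℂ) ^ 2) * (L p.1 * V p) = F (Y (T p.1, (s : ℂ) * p.2), (s : ℂ) * p.2) 2 := by
        show S / ((P2B.nr F x : ℂ) ^ 2) * (L p.1 * (F (Y (T p.1, (s : ℂ) * p.2), (s : ℂ) * p.2) 2 * (P2B.nr F x : ℂ) / S *
          (P2B.nr F x : ℂ) / L p.1)) = F (Y (T p.1, (s : ℂ) * p.2), (s : ℂ) * p.2) 2
        field_simp
      ext i
      fin_cases i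
      · exact b2
      · exact b3
      · exact e3.symm

end Pool.Agent.P2W
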