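import Pool.Agent.helper56.P2.SpecW

set_option autoImplicit false

/-! Project P2 (MP_063734_an), row WDI: one small disc. -/

open scoped ContDiff Topology ComplexConjugate ENNReal
open MeasureTheory Filter Set Metric MvPolynomial Pool.Agent.helper37.QA

namespace Pool.Agent.P2W

open Pool.Agent.P2

theorem WDI_pq {d : ℕ} {f : Endo 2 d} {U : Set (PP 2)} {τ κ C0 α : ℝ} (hκ : 0 < κ)
    (hWC : WC f U τ κ C0 α) {ι : Fin 2} {c : ℂ} {γ : ℂ → ℂ} (hTb : Tb U τ ι c κ γ) (n : ℕ) {ξ0 : ℂ} {ρ : ℝ}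
    (hξ : ‖ξ0‖ ≤ 1 / 16) (hρ : 0 < ρ) (hρ1 : ρ ≤ 1 / 16) (hκρ : κ * ρ ≤ τ / 4) :
    ∀ p ∈ P2U.TB 1 1, 0 < pq (sF f n ι c κ γ ξ0 ρ p) := by
  intro p hp
  obtain ⟨hp1, hp2⟩ := hp
  have hκρ0 : 0 < κ * ρ := by positivity
  refine (hWC.nz ι c γ hTb n (Sc ξ0 ρ κ p) ⟨?_, ?_⟩).1
  · show ‖ξ0 + ρ * p.1‖ < 1
    have h1 : ‖(ρ : ℂ) * p.1‖ ≤ 1 / 16 * 1 := by
      rw [norm_mul, Complex.norm_real, Real.norm_of_nonneg hρ.le]
      exact mul_le_mul hρ1 hp1.le (norm_nonneg _) (by norm_num)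
    have h2 := norm_add_le ξ0 ((ρ : ℂ) * p.1)
    linarith
  · show ‖(κ : ℂ) * (ρ * p.2)‖ < τ
    have h1 : ‖(κ : ℂ) * (ρ * p.2)‖ ≤ κ * ρ * 1 := by
      rw [norm_mul, norm_mul, Complex.norm_real, Complex.norm_real, Real.norm_of_nonneg hρ.le,
        Real.norm_of_nonneg hκ.le, ← mul_assoc]
      exact mul_le_mul_of_nonneg_left hp2.le hκρ0.le
    linarith

theorem WDI (hWDA : WDA_stmt) (hWSB : WSB_stmt) (hWCH : WCH_stmt) : WDI_stmt := by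
  intro d f U hd τ κ Λ1 C0 α hτ hκ hκ1 hΛ hWC
  obtain ⟨C, hC, hA⟩ := hWDA d f U hd τ κ Λ1 C0 α hτ hκ hκ1 hΛ hWC
  obtain ⟨CS, hCS, hS⟩ := hWSB d f U hd τ κ C0 α hτ hκ hκ1 hWC
  refine ⟨C, hC, ?_⟩
  intro ρ μ0 δ hρ hρ1 hκρ hμ hδ
  obtain ⟨t1, ε2, ht1, hε2, hA1⟩ := hA ρ μ0 (δ / 2) hρ hρ1 hκρ hμ (by positivity)
  refine ⟨t1, ε2, ht1, hε2, ?_⟩
  intro t ht htt m0 s0 hs0
  obtain ⟨m, h, κ1, h1, hm, hh, hhle, h4, hκ10, hκ11, hh1, hh11, hA2⟩ := hA1 t ht htt m0 s0 hs0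
  -- the radius
  obtain ⟨r, hr0, hrκ, hr8, hrlog⟩ : ∃ r : ℝ, 0 < r ∧ r ≤ κ1 ∧ r ≤ 1 / 8 ∧ CS / Real.log (1 / r) ≤ δ / 4 := by
    refine ⟨min (min κ1 (1 / 8)) (Real.exp (-(4 * CS / δ))), lt_min (lt_min hκ10 (by norm_num)) (Real.exp_pos _),
      (min_le_left _ _).trans (min_le_left _ _), (min_le_left _ _).trans (min_le_right _ _), ?_⟩
    set r : ℝ := min (min κ1 (1 / 8)) (Real.exp (-(4 * CS / δ))) with hr
    have hr0 : 0 < r := lt_min (lt_min hκ10 (by norm_num)) (Real.exp_pos _)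
    have h5 : 4 * CS / δ ≤ Real.log (1 / r) := by
      rw [one_div, Real.log_inv]
      have h6 : Real.log r ≤ -(4 * CS / δ) := by
        rw [Real.log_le_iff_le_exp hr0]
        exact min_le_right _ _
      linarith
    have h7 : 0 < 4 * CS / δ := by positivity
    rw [div_le_iff₀ (lt_of_lt_of_le h7 h5)]
    calc CS = δ / 4 * (4 * CS / δ) := by field_simp
      _ ≤ δ / 4 * Real.log (1 / r) := mul_le_mul_of_nonneg_left h5 (by positivity)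
  set κB : ℝ := min (r / 2) (κ / 4) with hκBdef
  have hκB0 : 0 < κB := lt_min (by positivity) (by positivity)
  have hκBr : 2 * κB ≤ r := by
    have : κB ≤ r / 2 := min_le_left _ _
    linarith
  have hκBκ : κB ≤ κ / 4 := min_le_right _ _
  set sB : ℝ := κ * ρ * h1 with hsBdef
  have hsB0 : 0 < sB := by positivity
  set e : ℝ := κB / (64 * κ * ρ) with hedef
  have he0 : 0 < e := by positivity
  obtain ⟨nm, ε3, hε3, hA3⟩ := hA2 (sB / 48) (by positivity)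
  obtain ⟨Cr, hCr, hS1⟩ := hS r hr0 hr8
  obtain ⟨nm2, hS2⟩ := hS1 ρ μ0 hρ hρ1 hμ
  have hd1 : (1 : ℝ) < d := by exact_mod_cast (by omega : 1 < d)
  obtain ⟨nm3, hnm3⟩ : ∃ nm3 : ℕ, ∀ n : ℕ, nm3 ≤ n → Cr / (e ^ 2 * (d : ℝ) ^ n) ≤ δ / 4 := by
    obtain ⟨k, hk⟩ := pow_unbounded_of_one_lt (4 * Cr / (e ^ 2 * δ)) hd1
    refine ⟨k, fun n hn => ?_⟩
    have h5 : 4 * Cr / (e ^ 2 * δ) ≤ (d : ℝ) ^ n := hk.le.trans (pow_le_pow_right₀ hd1.le hn)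
    have h6 : 0 < (d : ℝ) ^ n := by positivity
    rw [div_le_iff₀ (by positivity)]
    calc Cr = δ / 4 * (e ^ 2 * (4 * Cr / (e ^ 2 * δ))) := by field_simp
      _ ≤ δ / 4 * (e ^ 2 * (d : ℝ) ^ n) := by
          apply mul_le_mul_of_nonneg_left _ (by positivity)
          exact mul_le_mul_of_nonneg_left h5 (by positivity)
  refine ⟨m, max nm (max nm2 nm3), 4 * (κ * ρ * h), sB, κB, ε3, hm, by positivity, h4, hsB0, hκB0, hκBκ, hε3, ?_⟩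
  intro ι c γ n N ξ0 E0 hTb hn hnN hξ hms hQR hQA hE0 hen
  have hn1 : nm ≤ n := (le_max_left _ _).trans hn
  have hn2 : nm2 ≤ n := ((le_max_left _ _).trans (le_max_right _ _)).trans hn
  have hn3 : nm3 ≤ n := ((le_max_right _ _).trans (le_max_right _ _)).trans hn
  obtain ⟨Bd, hBdm, hBd, hBdmass⟩ := hA3 ι c γ n N ξ0 E0 hTb hn1 hnN hξ hms hQR hQA hE0 hen
  obtain ⟨Bd2, hBd2m, hBd2, hBd2mass⟩ := hS2 ι c γ n N ξ0 e hTb hn2 hnN hξ he0 hms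
  refine ⟨Bd ∪ Bd2, hBdm.union hBd2m, ?_, ?_⟩
  · intro ξ hξb hξB
    have hρc : (ρ : ℂ) ≠ 0 := by exact_mod_cast hρ.ne'
    set x : ℂ := (ξ - ξ0) / ρ with hx
    have hξx : ξ = ξ0 + ρ * x := by
      rw [hx]
      field_simp
      ring
    have hx3 : x ∈ ball (0 : ℂ) (1 / 3) := by
      rw [mem_ball_iff_norm] at hξb
      rw [mem_ball_zero_iff, hx, norm_div, Complex.norm_real, Real.norm_of_nonneg hρ.le, div_lt_iff₀ hρ]
      linarith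
    have hx1 : x ∈ ball (0 : ℂ) 1 := ball_subset_ball (by norm_num) hx3
    have hn4 : ξ0 + ρ * x ∉ Bd := by
      rw [← hξx]
      exact fun h => hξB (Or.inl h)
    have hn5 : ξ0 + ρ * x ∉ Bd2 := by
      rw [← hξx]
      exact fun h => hξB (Or.inr h)
    obtain ⟨Y, hY, hz⟩ := hBd x hx3 hn4
    have hYr : P2B.Band (sP f n ι c κ γ ξ0 ρ) (sQ f n ι c κ γ ξ0 ρ) (ball 0 1) r h1 x Y := by
      obtain ⟨b1, b2, b3⟩ := hY
      refine ⟨b1.mono (Set.prod_mono (ball_subset_ball hrκ) Subset.rfl), b2, ?_⟩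
      intro t' ht' v hv
      exact b3 t' (ball_subset_ball hrκ ht') v hv
    have hYe := hBd2 x hx1 hn5 r h1 Y hr0 le_rfl hh1 hh11 hYr
    rw [hξx]
    refine hWCH d f ι c κ γ n ξ0 x ρ r h1 (sB / 48) e sB κB Y hTb.hd hκ hκ1 hξ hρ hρ1
      (WDI_pq hκ hWC hTb n hξ hρ hρ1 hκρ) hx1 hr0 (hr8.trans (by norm_num)) hh1 hh11 hYr ?_ hYe hsB0 le_rfl hκB0 hκBκ
      hκBr (by linarith) ?_
    · intro t' ht' v hv
      exact hz t' (ball_subset_ball hrκ ht') v hv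
    · have : ρ * e = κB / (64 * κ) := by
        rw [hedef]
        field_simp
      exact this.le
  · have hsub : (Bd ∪ Bd2) ∩ ball ξ0 (ρ / 3) ⊆ (Bd ∩ ball ξ0 (ρ / 3)) ∪ (Bd2 ∩ ball ξ0 ρ) := by
      rintro ξ ⟨h5 | h5, h6⟩
      · exact Or.inl ⟨h5, h6⟩
      · exact Or.inr ⟨h5, ball_subset_ball (by linarith) h6⟩
    have h7 : ms f N ι c κ γ 0 ((Bd ∪ Bd2) ∩ ball ξ0 (ρ / 3)) ≤
        ms f N ι c κ γ 0 (Bd ∩ ball ξ0 (ρ / 3)) + ms f N ι c κ γ 0 (Bd2 ∩ ball ξ0 ρ) :=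
      (lintegral_mono_set hsub).trans (lintegral_union_le _ _ _)
    refine h7.trans ((add_le_add hBdmass hBd2mass).trans ?_)
    have h8 : 0 ≤ CS / Real.log (1 / r) := by
      apply div_nonneg hCS.le
      apply Real.log_nonneg
      rw [le_div_iff₀ hr0]
      linarith
    have h9 : 0 ≤ Cr / (e ^ 2 * (d : ℝ) ^ n) := by positivity
    rw [← ENNReal.ofReal_add (by positivity) (by positivity)]
    apply ENNReal.ofReal_le_ofReal
    have := hnm3 n hn3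
    linarith

end Pool.Agent.P2W
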