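import Pool.Agent.helper56.P2.SpecW

set_option autoImplicit false

/-! Project P2 (MP_063734_an), row WEN: sum of the energies. -/

open scoped ContDiff Topology ComplexConjugate ENNReal
open MeasureTheory Filter Set Metric MvPolynomial Pool.Agent.helper37.QA

namespace Pool.Agent.P2W

open Pool.Agent.P2

theorem WEN_om (P Q : ℂ × ℂ → ℂ) (p : ℂ × ℂ) : P2U.om P Q p = om P Q p := by
  unfold P2U.om om
  rw [Complex.normSq_eq_norm_sq, Complex.normSq_eq_norm_sq]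

theorem WEN_sum {J : Type} [DecidableEq J] (S : Finset J) (F : J → ℂ × ℂ → ℝ≥0∞) :
    ∑ j ∈ S, ∫⁻ p, F j p ≤ ∫⁻ p, ∑ j ∈ S, F j p := by
  induction S using Finset.induction_on with
  | empty => simp
  | insert a s ha ih =>
    rw [Finset.sum_insert ha]
    refine (add_le_add_right ih _).trans ?_
    refine (le_lintegral_add _ _).trans (lintegral_mono fun p => ?_)
    rw [Finset.sum_insert ha]

/-- analyticity of `iP`, `iQ` -/
theorem WEN_an (hWHO : WHO_stmt) {d : ℕ} (f : Endo 2 d) (ι : Fin 2) (c : ℂ) (κ : ℝ) (γ : ℂ → ℂ) (n : ℕ)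
    (hγ : DifferentiableOn ℂ γ (ball 0 1)) (q : ℂ × ℂ) (hq : ‖q.1‖ < 1) (i : Fin 3) :
    AnalyticAt ℂ (fun p : ℂ × ℂ => It f n (gp ι c κ γ (p.1, κ * p.2)) i) q := by
  have h1 := (hWHO d f ι c κ γ n hγ).1
  have h2 : AnalyticAt ℂ (fun p => It f n (gp ι c κ γ p)) (q.1, (κ : ℂ) * q.2) := h1 _ hq
  have h3 : AnalyticAt ℂ (fun p : ℂ × ℂ => ((p.1, (κ : ℂ) * p.2) : ℂ × ℂ)) q :=
    analyticAt_fst.prod (analyticAt_const.mul analyticAt_snd)
  have h4 : AnalyticAt ℂ (fun v : E3 => v i) (It f n (gp ι c κ γ (q.1, (κ : ℂ) * q.2))) :=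
    (ContinuousLinearMap.proj (R := ℂ) (φ := fun _ : Fin 3 => ℂ) i).analyticAt _
  have h5 : AnalyticAt ℂ (fun p : ℂ × ℂ => It f n (gp ι c κ γ (p.1, (κ : ℂ) * p.2))) q :=
    AnalyticAt.comp (g := fun p => It f n (gp ι c κ γ p)) (f := fun p : ℂ × ℂ => ((p.1, (κ : ℂ) * p.2) : ℂ × ℂ)) h2 h3
  exact AnalyticAt.comp (g := fun v : E3 => v i) (f := fun p : ℂ × ℂ => It f n (gp ι c κ γ (p.1, (κ : ℂ) * p.2))) h4 h5

open Classical in
theorem WEN (hWHO : WHO_stmt) (hWSC : WSC_stmt) (hWCR : WCR_stmt) : WEN_stmt := by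
  intro d f ι c κ γ n hd hκ hγ B t ρ J K z S hB ht hρ hρ1 hz hS hK
  have hd0 : (0 : ℝ) < (d : ℝ) ^ n := by
    have : (0 : ℝ) < d := by exact_mod_cast (by omega : 0 < d)
    positivity
  set P : ℂ × ℂ → ℂ := iP f n ι c κ γ with hP
  set Q : ℂ × ℂ → ℂ := iQ f n ι c κ γ with hQ
  set H : ℂ × ℂ → ℝ := fun q => P2U.Gd P Q q * P2U.om P Q q with hH
  have hH0 : ∀ q, 0 ≤ H q := by
    intro q
    show 0 ≤ P2U.Gd P Q q * P2U.om P Q q
    unfold P2U.Gd P2U.om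
    positivity
  -- one disc
  have hone : ∀ j, ∫⁻ p in P2U.TB 2 (t / ρ), ENNReal.ofReal (P2U.Gd (sP f n ι c κ γ (z j) ρ) (sQ f n ι c κ γ (z j) ρ) p *
      P2U.om (sP f n ι c κ γ (z j) ρ) (sQ f n ι c κ γ (z j) ρ) p) =
      ∫⁻ q : ℂ × ℂ, if ‖q.1 - z j‖ < 2 * ρ ∧ ‖q.2‖ < t then ENNReal.ofReal (H q) else 0 := by
    intro j
    have hTB : MeasurableSet (P2U.TB 2 (t / ρ)) := by
      have h1 : P2U.TB 2 (t / ρ) = {p : ℂ × ℂ | ‖p.1‖ < 2} ∩ {p : ℂ × ℂ | ‖p.2‖ < t / ρ} := rfl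
      rw [h1]
      exact (isOpen_lt (by fun_prop) continuous_const).measurableSet.inter
        (isOpen_lt (by fun_prop) continuous_const).measurableSet
    set g : ℂ × ℂ → ℝ≥0∞ := fun q => if ‖q.1 - z j‖ < 2 * ρ ∧ ‖q.2‖ < t then ENNReal.ofReal (ρ ^ 4 * H q) else 0 with hg
    have e1 : ∫⁻ p in P2U.TB 2 (t / ρ), ENNReal.ofReal (P2U.Gd (sP f n ι c κ γ (z j) ρ) (sQ f n ι c κ γ (z j) ρ) p *
      P2U.om (sP f n ι c κ γ (z j) ρ) (sQ f n ι c κ γ (z j) ρ) p) = ∫⁻ p : ℂ × ℂ, g (z j + ρ * p.1, ρ * p.2) := by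
      rw [← lintegral_indicator hTB]
      refine lintegral_congr fun p => ?_
      by_cases hp : p ∈ P2U.TB 2 (t / ρ)
      · rw [Set.indicator_of_mem hp]
        obtain ⟨hp1, hp2⟩ := hp
        have hq1 : ‖z j + (ρ : ℂ) * p.1‖ < 1 := by
          have h1 : ‖(ρ : ℂ) * p.1‖ ≤ 1 / 16 * 2 := by
            rw [norm_mul, Complex.norm_real, Real.norm_of_nonneg hρ.le]
            exact mul_le_mul hρ1 hp1.le (norm_nonneg _) (by norm_num)
          have h2 := norm_add_le (z j) ((ρ : ℂ) * p.1)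
          have h3 := hz j
          linarith
        have hPa : AnalyticAt ℂ P (z j + ρ * p.1, ρ * p.2) := WEN_an hWHO f ι c κ γ n hγ _ hq1 0
        have hQa : AnalyticAt ℂ Q (z j + ρ * p.1, ρ * p.2) := WEN_an hWHO f ι c κ γ n hγ _ hq1 1
        obtain ⟨_, _, s3, s4⟩ := hWSC P Q (z j) ρ ρ p hρ hρ hPa hQa
        have s4' := s4 rfl
        have c1 : ‖z j + (ρ : ℂ) * p.1 - z j‖ < 2 * ρ := by
          rw [add_sub_cancel_left, norm_mul, Complex.norm_real, Real.norm_of_nonneg hρ.le]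
          have h1 : ‖p.1‖ < 2 := hp1
          nlinarith
        have c2 : ‖(ρ : ℂ) * p.2‖ < t := by
          rw [norm_mul, Complex.norm_real, Real.norm_of_nonneg hρ.le]
          have h1 : ‖p.2‖ < t / ρ := hp2
          rw [lt_div_iff₀ hρ] at h1
          linarith
        show _ = (if ‖z j + (ρ : ℂ) * p.1 - z j‖ < 2 * ρ ∧ ‖(ρ : ℂ) * p.2‖ < t then
          ENNReal.ofReal (ρ ^ 4 * H (z j + ρ * p.1, ρ * p.2)) else 0)
        rw [if_pos ⟨c1, c2⟩]
        congr 1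
        have e2 : P2U.Gd (sP f n ι c κ γ (z j) ρ) (sQ f n ι c κ γ (z j) ρ) p = ρ ^ 4 * P2U.Gd P Q (z j + ρ * p.1, ρ * p.2) := s4'
        have e3 : P2U.om (sP f n ι c κ γ (z j) ρ) (sQ f n ι c κ γ (z j) ρ) p = P2U.om P Q (z j + ρ * p.1, ρ * p.2) := by
          rw [WEN_om P Q]
          exact s3
        rw [e2, e3]
        show _ = ρ ^ 4 * (P2U.Gd P Q (z j + ρ * p.1, ρ * p.2) * P2U.om P Q (z j + ρ * p.1, ρ * p.2))
        ring
      · rw [Set.indicator_of_notMem hp]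
        show 0 = (if ‖z j + (ρ : ℂ) * p.1 - z j‖ < 2 * ρ ∧ ‖(ρ : ℂ) * p.2‖ < t then
          ENNReal.ofReal (ρ ^ 4 * H (z j + ρ * p.1, ρ * p.2)) else 0)
        rw [if_neg]
        rintro ⟨c1, c2⟩
        apply hp
        rw [add_sub_cancel_left, norm_mul, Complex.norm_real, Real.norm_of_nonneg hρ.le] at c1
        rw [norm_mul, Complex.norm_real, Real.norm_of_nonneg hρ.le] at c2
        refine ⟨?_, ?_⟩
        · show ‖p.1‖ < 2
          nlinarith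
        · show ‖p.2‖ < t / ρ
          rw [lt_div_iff₀ hρ]
          linarith
    rw [e1, hWCR g (z j) ρ ρ hρ hρ, ← lintegral_const_mul' _ _ ENNReal.ofReal_ne_top]
    refine lintegral_congr fun q => ?_
    show ENNReal.ofReal ((ρ ^ 2 * ρ ^ 2)⁻¹) * (if ‖q.1 - z j‖ < 2 * ρ ∧ ‖q.2‖ < t then ENNReal.ofReal (ρ ^ 4 * H q) else 0) = _
    split_ifs with hc
    · rw [← ENNReal.ofReal_mul (by positivity)]
      congr 1
      field_simp
    · rw [mul_zero]
  rw [Finset.sum_congr rfl fun j _ => hone j]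
  refine (WEN_sum S _).trans ?_
  unfold EnT
  rw [← lintegral_const_mul' _ _ ENNReal.ofReal_ne_top, ← lintegral_const_mul' _ _ (ENNReal.natCast_ne_top K)]
  refine lintegral_mono fun q => ?_
  -- pointwise
  have hle : ∀ j ∈ S, (if ‖q.1 - z j‖ < 2 * ρ ∧ ‖q.2‖ < t then ENNReal.ofReal (H q) else 0) ≤
      if ‖q.1 - z j‖ < 2 * ρ then (ENNReal.ofReal ((d : ℝ) ^ n) * if ‖q.1‖ < 1 / 2 ∧ ‖q.2‖ < t ∧ q.1 ∉ B then
        ENNReal.ofReal (P2U.Gd (iP f n ι c κ γ) (iQ f n ι c κ γ) q * P2U.om (iP f n ι c κ γ) (iQ f n ι c κ γ) q / (d : ℝ) ^ n) else 0)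
        else 0 := by
    intro j hj
    by_cases h1 : ‖q.1 - z j‖ < 2 * ρ
    · rw [if_pos h1]
      by_cases h2 : ‖q.2‖ < t
      · rw [if_pos ⟨h1, h2⟩]
        have h3 : ‖q.1‖ < 1 / 2 := by
          have h4 := norm_add_le (q.1 - z j) (z j)
          rw [sub_add_cancel] at h4
          have h5 := hz j
          linarith
        have h6 : q.1 ∉ B := by
          intro h7
          exact Set.disjoint_left.1 (hS j hj) (by rw [mem_ball_iff_norm]; exact h1) h7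
        rw [if_pos ⟨h3, h2, h6⟩, ← ENNReal.ofReal_mul hd0.le]
        apply ENNReal.ofReal_le_ofReal
        show H q ≤ (d : ℝ) ^ n * (H q / (d : ℝ) ^ n)
        rw [mul_div_cancel₀ _ hd0.ne']
      · rw [if_neg (fun h => h2 h.2)]
        exact bot_le
    · rw [if_neg (fun h => h1 h.1), if_neg h1]
  refine (Finset.sum_le_sum hle).trans ?_
  rw [← Finset.sum_filter, Finset.sum_const, nsmul_eq_mul]
  refine mul_le_mul_left ?_ _
  have h8 : (S.filter fun j => ‖q.1 - z j‖ < 2 * ρ).card ≤ K :=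
    (Finset.card_le_card (Finset.filter_subset_filter _ (Finset.subset_univ S))).trans (hK q.1)
  exact_mod_cast h8

end Pool.Agent.P2W
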