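import Pool.Agent.helper37.P2.SpecD
import Pool.Agent.helper76.P2.OPN

set_option autoImplicit false

/-! Project P2 (MP_063734_an), row RD1: minimal quasi-attractors. -/

open scoped ContDiff Topology
open MeasureTheory Filter Set Metric MvPolynomial Pool.Agent.helper37.QA

namespace Pool.Agent.P2

theorem RD1_mono {k d : ℕ} (f : Endo k d) {U V : Set (PP k)} (h : U ⊆ V) :
    attr f U ⊆ attr f V :=
  Set.iInter_mono fun _ => Set.image_mono h

theorem RD1_anti {k d : ℕ} {f : Endo k d} {V : Set (PP k)} (hV : IsTrapping f V) (n : ℕ) :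
    f.map^[n + 1] '' closure V ⊆ f.map^[n] '' closure V := by
  rintro _ ⟨y, hy, rfl⟩
  rw [Function.iterate_succ_apply]
  exact ⟨f.map y, subset_closure (hV.2.2 ⟨y, hy, rfl⟩), rfl⟩

theorem RD1_closed {k d : ℕ} (f : Endo k d) (V : Set (PP k)) (n : ℕ) :
    IsClosed (f.map^[n] '' closure V) :=
  (isClosed_closure.isCompact.image ((map_cont f).iterate n)).isClosed

theorem RD1_meet {k d : ℕ} {f : Endo k d} {V K : Set (PP k)} (hV : IsTrapping f V)
    (hK : IsClosed K) (hinv : ∀ x ∈ K, ∀ n : ℕ, f.map^[n] x ∈ K) {x : PP k} (hx : x ∈ V)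
    (hxK : x ∈ K) : (attr f V ∩ K).Nonempty := by
  have h1 : (⋂ n : ℕ, ((f.map^[n] '' closure V) ∩ K)).Nonempty := by
    refine IsCompact.nonempty_iInter_of_sequence_nonempty_isCompact_isClosed _ ?_ ?_ ?_ ?_
    · intro n
      exact Set.inter_subset_inter_left _ (RD1_anti hV n)
    · intro n
      exact ⟨f.map^[n] x, ⟨x, subset_closure hx, rfl⟩, hinv x hxK n⟩
    · exact ((RD1_closed f V 0).inter hK).isCompact
    · intro n
      exact (RD1_closed f V n).inter hK
  obtain ⟨y, hy⟩ := h1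
  rw [mem_iInter] at hy
  refine ⟨y, ?_, (hy 0).2⟩
  rw [attr_eq hV, mem_iInter]
  exact fun n => (hy n).1

theorem RD1_attr_open {k d : ℕ} {f : Endo k d} {V W : Set (PP k)} (hV : IsTrapping f V)
    (hW : IsOpen W) (h : attr f V ⊆ W) : ∃ n : ℕ, f.map^[n] '' closure V ⊆ W := by
  by_contra hcon
  push Not at hcon
  have h1 : (⋂ n : ℕ, ((f.map^[n] '' closure V) ∩ Wᶜ)).Nonempty := by
    refine IsCompact.nonempty_iInter_of_sequence_nonempty_isCompact_isClosed _ ?_ ?_ ?_ ?_
    · intro n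
      exact Set.inter_subset_inter_left _ (RD1_anti hV n)
    · intro n
      obtain ⟨y, hy, hyW⟩ := Set.not_subset.1 (hcon n)
      exact ⟨y, hy, hyW⟩
    · exact ((RD1_closed f V 0).inter hW.isClosed_compl).isCompact
    · intro n
      exact (RD1_closed f V n).inter hW.isClosed_compl
  obtain ⟨y, hy⟩ := h1
  rw [mem_iInter] at hy
  refine (hy 0).2 (h ?_)
  rw [attr_eq hV, mem_iInter]
  exact fun n => (hy n).1

theorem RD1_image {k d : ℕ} (hd : 2 ≤ d) {f : Endo k d} {V : Set (PP k)} (hV : IsTrapping f V)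
    (n : ℕ) : IsTrapping f (f.map^[n] '' V) := by
  refine ⟨?_, hV.2.1.image _, ?_⟩
  · have h1 : ∀ m : ℕ, IsOpenMap (f.map^[m]) := by
      intro m
      induction m with
      | zero => exact IsOpenMap.id
      | succ m ih =>
        rw [Function.iterate_succ]
        exact ih.comp (OPN f hd)
    exact h1 n V hV.1
  · have h2 : closure (f.map^[n] '' V) ⊆ f.map^[n] '' closure V :=
      closure_minimal (Set.image_mono subset_closure) (RD1_closed f V n)
    rintro _ ⟨y, hy, rfl⟩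
    obtain ⟨z, hz, rfl⟩ := h2 hy
    have h3 : f.map (f.map^[n] z) = f.map^[n] (f.map z) := by
      rw [← Function.iterate_succ_apply' f.map n z, Function.iterate_succ_apply f.map n z]
    rw [h3]
    exact ⟨f.map z, hV.2.2 ⟨z, hz, rfl⟩, rfl⟩

/-- the embedding of projective space -/
noncomputable def RD1_e {k : ℕ} (p : PP k) (ij : Fin (k + 1) × Fin (k + 1)) : ℂ :=
  projEntry p.rep ij.1 ij.2

theorem RD1_e_cont {k : ℕ} : Continuous (RD1_e (k := k)) :=
  continuous_pi fun ij => continuous_projEntry ij.1 ij.2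

theorem RD1_e_inj {k : ℕ} : Function.Injective (RD1_e (k := k)) := by
  intro p q hpq
  have h1 := projEntry_inj p.rep_nonzero q.rep_nonzero fun i j => congrFun hpq (i, j)
  have hp : toPP ⟨p.rep, p.rep_nonzero⟩ = p := p.mk_rep
  have hq : toPP ⟨q.rep, q.rep_nonzero⟩ = q := q.mk_rep
  rw [hp, hq] at h1
  exact h1

theorem RD1_basis {k : ℕ} {K : Set (PP k)} (hK : IsClosed K) (hne : K.Nonempty) :
    ∃ W : ℕ → Set (PP k), (∀ n, IsOpen (W n)) ∧ (∀ n, K ⊆ W n) ∧ ⋂ n, W n ⊆ K := by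
  refine ⟨fun n => {x | infDist (RD1_e x) (RD1_e '' K) < 1 / ((n : ℝ) + 1)}, ?_, ?_, ?_⟩
  · intro n
    exact isOpen_lt ((continuous_infDist_pt _).comp RD1_e_cont) continuous_const
  · intro n x hx
    show infDist (RD1_e x) (RD1_e '' K) < 1 / ((n : ℝ) + 1)
    rw [infDist_zero_of_mem (Set.mem_image_of_mem RD1_e hx)]
    positivity
  · intro x hx
    rw [mem_iInter] at hx
    have h1 : IsClosed (RD1_e '' K) := (hK.isCompact.image RD1_e_cont).isClosed
    have h2 : infDist (RD1_e x) (RD1_e '' K) = 0 := by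
      refine le_antisymm ?_ infDist_nonneg
      refine le_of_forall_pos_le_add fun ε hε => ?_
      obtain ⟨n, hn⟩ := exists_nat_one_div_lt hε
      have h3 : infDist (RD1_e x) (RD1_e '' K) < 1 / ((n : ℝ) + 1) := hx n
      linarith
    have h3 : RD1_e x ∈ RD1_e '' K :=
      (h1.mem_iff_infDist_zero (hne.image _)).2 h2
    obtain ⟨y, hy, hyx⟩ := h3
    rw [← RD1_e_inj hyx]
    exact hy

/-- families of trapping regions whose attracting sets meet -/
def RD1_S {k d : ℕ} (f : Endo k d) : Set (Set (Set (PP k))) :=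
  {W | (∀ V ∈ W, IsTrapping f V) ∧ (⋂ V ∈ W, attr f V).Nonempty}

theorem RD1_chain {k d : ℕ} (f : Endo k d) (c : Set (Set (Set (PP k)))) (hc : c ⊆ RD1_S f)
    (hch : IsChain (· ⊆ ·) c) (hne : c.Nonempty) : ∃ ub ∈ RD1_S f, ∀ s ∈ c, s ⊆ ub := by
  refine ⟨⋃₀ c, ⟨?_, ?_⟩, fun s hs => Set.subset_sUnion_of_mem hs⟩
  · rintro V ⟨W, hW, hV⟩
    exact (hc hW).1 V hV
  · have htr : ∀ V : ↥(⋃₀ c), IsTrapping f V.1 := by
      rintro ⟨V, W, hW, hV⟩
      exact (hc hW).1 V hV
    have h1 : (⋂ V : ↥(⋃₀ c), attr f V.1).Nonempty := by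
      refine CompactSpace.iInter_nonempty (fun V => attr_closed (htr V)) ?_
      intro s
      have h2 : ∃ W ∈ c, ∀ V ∈ s, V.1 ∈ W := by
        classical
        induction s using Finset.induction_on with
        | empty =>
          obtain ⟨W, hW⟩ := hne
          exact ⟨W, hW, fun V hV => absurd hV (Finset.notMem_empty V)⟩
        | insert V s _ ih =>
          obtain ⟨W, hW, hWs⟩ := ih
          obtain ⟨W', hW', hV⟩ := V.2
          rcases hch.total hW hW' with h | h
          · refine ⟨W', hW', fun V' hV' => ?_⟩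
            rcases Finset.mem_insert.1 hV' with rfl | hV'
            · exact hV
            · exact h (hWs V' hV')
          · refine ⟨W, hW, fun V' hV' => ?_⟩
            rcases Finset.mem_insert.1 hV' with rfl | hV'
            · exact h hV
            · exact hWs V' hV'
      obtain ⟨W, hW, hWs⟩ := h2
      obtain ⟨x, hx⟩ := (hc hW).2
      refine ⟨x, ?_⟩
      simp only [mem_iInter] at hx ⊢
      exact fun V hV => hx V.1 (hWs V hV)
    obtain ⟨x, hx⟩ := h1
    refine ⟨x, ?_⟩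
    simp only [mem_iInter] at hx ⊢
    exact fun V hV => hx ⟨V, hV⟩

theorem RD1 : RD1_stmt := by
  intro d f hd ι U hU hne
  have h0 : Set.range U ∈ RD1_S f := by
    refine ⟨?_, ?_⟩
    · rintro _ ⟨i, rfl⟩
      exact hU i
    · obtain ⟨x, hx⟩ := hne
      refine ⟨x, ?_⟩
      simp only [mem_iInter] at hx ⊢
      rintro _ ⟨i, rfl⟩
      exact hx i
  obtain ⟨W, hUW, hW⟩ := zorn_subset_nonempty (RD1_S f) (RD1_chain f) (Set.range U) h0
  obtain ⟨⟨hWt, hWn⟩, hmax⟩ := hW
  set K : Set (PP 2) := ⋂ V ∈ W, attr f V with hKdef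
  have hKc : IsClosed K := isClosed_biInter fun V hV => attr_closed (hWt V hV)
  have hKinv : ∀ x ∈ K, ∀ n : ℕ, f.map^[n] x ∈ K := by
    intro x hx n
    rw [hKdef] at hx ⊢
    simp only [mem_iInter] at hx ⊢
    exact fun V hV => attr_inv (hWt V hV) (hx V hV) n
  have hKW : ∀ V ∈ W, K ⊆ attr f V := fun V hV => Set.biInter_subset_of_mem hV
  -- maximality
  have hmem : ∀ V : Set (PP 2), IsTrapping f V → (V ∩ K).Nonempty → V ∈ W := by
    rintro V hV ⟨x, hxV, hxK⟩
    obtain ⟨y, hy, hyK⟩ := RD1_meet hV hKc hKinv hxV hxK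
    have h1 : insert V W ∈ RD1_S f := by
      refine ⟨?_, ⟨y, ?_⟩⟩
      · intro V' hV'
        rcases Set.mem_insert_iff.1 hV' with rfl | hV'
        · exact hV
        · exact hWt V' hV'
      · simp only [mem_iInter]
        intro V' hV'
        rcases Set.mem_insert_iff.1 hV' with rfl | hV'
        · exact hy
        · exact hKW V' hV' hyK
    exact hmax h1 (Set.subset_insert V W) (Set.mem_insert V W)
  have hmin : ∀ V : Set (PP 2), IsTrapping f V → (V ∩ K).Nonempty → K ⊆ V := fun V hV h =>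
    (hKW V (hmem V hV h)).trans attr_sub
  -- neighbourhoods
  have hnb : ∀ W' : Set (PP 2), IsOpen W' → K ⊆ W' →
      ∃ V : Set (PP 2), (IsTrapping f V ∧ K ⊆ V) ∧ closure V ⊆ W' := by
    intro W' hW' hKW'
    have h1 : W'ᶜ ∩ ⋂ V : ↥W, attr f V.1 = ∅ := by
      rw [← Set.disjoint_iff_inter_eq_empty, Set.disjoint_left]
      intro x hx hx2
      refine hx (hKW' ?_)
      rw [hKdef]
      simp only [mem_iInter] at hx2 ⊢
      exact fun V hV => hx2 ⟨V, hV⟩
    obtain ⟨J, hJ⟩ := hW'.isClosed_compl.isCompact.elim_finite_subfamily_closed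
      (fun V : ↥W => attr f V.1) (fun V => attr_closed (hWt V.1 V.2)) h1
    have h2 : IsTrapping f (⋂ V ∈ J, (V : Set (PP 2))) := by
      refine trapping_inter J (fun V : ↥W => hWt V.1 V.2) ?_
      obtain ⟨x, hx⟩ := hWn
      refine ⟨x, ?_⟩
      simp only [mem_iInter]
      exact fun V _ => hKW V.1 V.2 hx
    have h3 : K ⊆ ⋂ V ∈ J, (V : Set (PP 2)) := by
      intro x hx
      simp only [mem_iInter]
      exact fun V _ => attr_sub (hKW V.1 V.2 hx)
    have h4 : K ⊆ attr f (⋂ V ∈ J, (V : Set (PP 2))) := by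
      refine hKW _ (hmem _ h2 ?_)
      obtain ⟨x, hx⟩ := hWn
      exact ⟨x, h3 hx, hx⟩
    have h5 : attr f (⋂ V ∈ J, (V : Set (PP 2))) ⊆ W' := by
      intro x hx
      by_contra hxW
      have h6 : x ∈ W'ᶜ ∩ ⋂ V ∈ J, attr f (V : Set (PP 2)) := by
        refine ⟨hxW, ?_⟩
        simp only [mem_iInter]
        exact fun V hV => RD1_mono f (Set.biInter_subset_of_mem hV) hx
      rw [hJ] at h6
      exact h6
    obtain ⟨n, hn⟩ := RD1_attr_open h2 hW' h5
    refine ⟨f.map^[n] '' (⋂ V ∈ J, (V : Set (PP 2))), ⟨RD1_image hd h2 n, ?_⟩, ?_⟩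
    · exact h4.trans (Set.iInter_subset _ n)
    · refine Set.Subset.trans ?_ hn
      exact closure_minimal (Set.image_mono subset_closure) (RD1_closed f _ n)
  obtain ⟨Wb, hWo, hWK, hWi⟩ := RD1_basis hKc hWn
  -- the sequence
  obtain ⟨V0, hV0, _⟩ := hnb Set.univ isOpen_univ (Set.subset_univ K)
  have hstep : ∀ (n : ℕ) (V : {V : Set (PP 2) // IsTrapping f V ∧ K ⊆ V}),
      ∃ V' : {V : Set (PP 2) // IsTrapping f V ∧ K ⊆ V}, closure V'.1 ⊆ V.1 ∩ Wb n := by
    intro n V
    obtain ⟨V', hV', hcl⟩ := hnb (V.1 ∩ Wb n) (V.2.1.1.inter (hWo n))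
      (Set.subset_inter V.2.2 (hWK n))
    exact ⟨⟨V', hV'⟩, hcl⟩
  choose g hg using hstep
  let s : ℕ → {V : Set (PP 2) // IsTrapping f V ∧ K ⊆ V} := fun n => Nat.rec ⟨V0, hV0⟩ g n
  have hs : ∀ n, s (n + 1) = g n (s n) := fun n => rfl
  have hcl : ∀ n, closure (s (n + 1)).1 ⊆ (s n).1 ∩ Wb n := by
    intro n
    rw [hs n]
    exact hg n (s n)
  refine ⟨fun n => (s n).1, K, hWn, ?_, hKc, ?_, fun n => (s n).2.1, ?_, ?_, hmin⟩
  · intro x hx
    simp only [mem_iInter]
    exact fun i => hKW (U i) (hUW ⟨i, rfl⟩) hx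
  · rintro _ ⟨x, hx, rfl⟩
    exact hKinv x hx 1
  · intro n
    exact (hcl n).trans Set.inter_subset_left
  · apply Set.Subset.antisymm
    · exact Set.subset_iInter fun n => (s n).2.2
    · intro x hx
      rw [mem_iInter] at hx
      refine hWi (mem_iInter.2 fun n => ?_)
      exact (hcl n (subset_closure (hx (n + 1)))).2

end Pool.Agent.P2
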