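import Pool.Agent.helper37.P2.SpecD
import Pool.Agent.helper39.P2.SWE
import Pool.Agent.helper42.P2.DMS

set_option autoImplicit false

/-! Project P2 (MP_063734_an), row RD3: without charged discs the Green function is harmonic. -/

open scoped ContDiff Topology
open MeasureTheory Filter Set Metric MvPolynomial Pool.Agent.helper37.QA

namespace Pool.Agent.P2

theorem RD3_tau_nonneg {d : ℕ} (f : Endo 2 d) (N : ℕ) (Z : ℂ → E3) (z : ℂ) : 0 ≤ tau f N Z z := by
  unfold tau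
  refine div_nonneg (div_nonneg (mul_nonneg (by norm_num) (Complex.normSq_nonneg _)) (sq_nonneg _)) ?_
  positivity

theorem RD3_tau_cont {d : ℕ} (f : Endo 2 d) (U : Set (PP 2)) (N : ℕ)
    (hp : ∀ Z ∈ cone (closure U), 0 < pq (It f N Z)) {Z : ℂ → E3} (hZ : Dsc U Z) :
    ContinuousOn (tau f N Z) (ball 0 1) := by
  have h1 := DMS_It f N hZ.1
  have h2 : ∀ i, DifferentiableOn ℂ (fun z => It f N (Z z) i) (ball 0 1) := fun i w hw =>
    (differentiableWithinAt_pi.1 (h1 w hw)) i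
  have h3 : ∀ i, ContinuousOn (deriv fun z => It f N (Z z) i) (ball 0 1) := fun i =>
    ((h2 i).deriv isOpen_ball).continuousOn
  have h4 : ContinuousOn (fun z => pq (It f N (Z z))) (ball 0 1) := by
    unfold pq
    exact (Complex.continuous_normSq.comp_continuousOn (h2 0).continuousOn).add
      (Complex.continuous_normSq.comp_continuousOn (h2 1).continuousOn)
  unfold tau
  refine ContinuousOn.div_const ?_ _
  refine (continuousOn_const.mul (Complex.continuous_normSq.comp_continuousOn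
    (((h2 1).continuousOn.mul (h3 0)).sub ((h2 0).continuousOn.mul (h3 1))))).div (h4.pow 2) fun z hz => ?_
  have := hp _ (DMS_cone subset_closure (hZ.2 z hz))
  positivity

/-- the limit of the potentials -/
noncomputable def RD3_u {d : ℕ} (f : Endo 2 d) (Z : E3) : ℝ := limUnder atTop fun n => un f n Z

theorem RD3_small {d : ℕ} (hd : 2 ≤ d) (C : ℝ) :
    Tendsto (fun n : ℕ => C / (d : ℝ) ^ n) atTop (𝓝 0) := by
  have h1 : (1 : ℝ) < d := by exact_mod_cast (by omega : 1 < d)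
  exact tendsto_const_nhds.div_atTop (tendsto_pow_atTop_atTop_of_one_lt h1)

theorem RD3_lim {d : ℕ} (hd : 2 ≤ d) (f : Endo 2 d) {C : ℝ} (Z : E3)
    (h : ∀ n N : ℕ, n ≤ N → |un f N Z - un f n Z| ≤ C / (d : ℝ) ^ n) (n : ℕ) :
    |RD3_u f Z - un f n Z| ≤ C / (d : ℝ) ^ n := by
  have hc : CauchySeq fun n => un f n Z := by
    refine cauchySeq_of_le_tendsto_0 (fun n => (2 * C) / (d : ℝ) ^ n) ?_ (RD3_small hd (2 * C))
    intro a b N ha hb
    rw [Real.dist_eq]
    have h1 := h N a ha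
    have h2 := h N b hb
    have h3 : (2 * C) / (d : ℝ) ^ N = C / (d : ℝ) ^ N + C / (d : ℝ) ^ N := by ring
    rw [h3]
    have h4 : un f a Z - un f b Z = (un f a Z - un f N Z) - (un f b Z - un f N Z) := by ring
    rw [h4]
    exact (abs_sub _ _).trans (add_le_add h1 h2)
  have ht : Tendsto (fun n => un f n Z) atTop (𝓝 (RD3_u f Z)) := CauchySeq.tendsto_limUnder hc
  refine le_of_tendsto ((ht.sub_const (un f n Z)).abs) ?_
  filter_upwards [eventually_ge_atTop n] with N hN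
  exact h n N hN

section

variable {d : ℕ} {f : Endo 2 d} {U : Set (PP 2)} {C : ℝ}

theorem RD3_vb (hd : 2 ≤ d)
    (h1 : ∀ n N : ℕ, n ≤ N → ∀ Z ∈ cone (closure U), |un f N Z - un f n Z| ≤ C / (d : ℝ) ^ n)
    {Z : ℂ → E3} (hZ : Dsc U Z) (n : ℕ) : ∀ z ∈ ball (0 : ℂ) 1,
      |un f n (Z z) - RD3_u f (Z z)| ≤ C / (d : ℝ) ^ n := by
  intro z hz
  rw [abs_sub_comm]
  exact RD3_lim hd f (Z z) (fun a b hab => h1 a b hab _ (DMS_cone subset_closure (hZ.2 z hz))) n

theorem RD3_vcont (hd : 2 ≤ d)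
    (h1 : ∀ n N : ℕ, n ≤ N → ∀ Z ∈ cone (closure U), |un f N Z - un f n Z| ≤ C / (d : ℝ) ^ n)
    (h3 : ∀ n : ℕ, ∀ Z ∈ cone (closure U), 0 < pq (It f n Z))
    {Z : ℂ → E3} (hZ : Dsc U Z) : ContinuousOn (fun z => RD3_u f (Z z)) (ball 0 1) := by
  have h4 : TendstoUniformlyOn (fun (n : ℕ) (z : ℂ) => un f n (Z z)) (fun z => RD3_u f (Z z)) atTop
      (ball 0 1) := by
    rw [Metric.tendstoUniformlyOn_iff]
    intro ε hε
    filter_upwards [(RD3_small hd C).eventually (gt_mem_nhds hε)] with n hn z hz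
    rw [Real.dist_eq, abs_sub_comm]
    exact (RD3_vb hd h1 hZ n z hz).trans_lt hn
  exact h4.continuousOn (Eventually.frequently
    (Eventually.of_forall fun n => DMS_un f U n (fun W hW => h3 n W hW) hZ))

theorem RD3_weak (hMSS : MSS_stmt) (hd : 2 ≤ d) (hU : Good0 f U) (hnc : ¬ Charged f U)
    (h1 : ∀ n N : ℕ, n ≤ N → ∀ Z ∈ cone (closure U), |un f N Z - un f n Z| ≤ C / (d : ℝ) ^ n)
    (h3 : ∀ n : ℕ, ∀ Z ∈ cone (closure U), 0 < pq (It f n Z))
    {Z : ℂ → E3} (hZ : Dsc U Z) (χ : ℂ → ℝ) (hχ : ContDiff ℝ ∞ χ)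
    (hs : tsupport χ ⊆ ball 0 (1 / 2)) : ∫ z, lap χ z * RD3_u f (Z z) = 0 := by
  have hs1 : tsupport χ ⊆ ball 0 1 := hs.trans (ball_subset_ball (by norm_num))
  have hcs : HasCompactSupport χ :=
    IsCompact.of_isClosed_subset (isCompact_closedBall (0 : ℂ) 1) (isClosed_tsupport _)
      (hs1.trans ball_subset_closedBall)
  obtain ⟨l1, l2, l3⟩ := DMS_lap (hχ.of_le ENat.LEInfty.out) hs1
  obtain ⟨M, hM⟩ := hχ.continuous.bounded_above_of_compact_support hcs
  have hM0 : 0 ≤ M := (norm_nonneg _).trans (hM 0)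
  have heta2 : HasCompactSupport (fun z : ℂ => eta z ^ 2) :=
    IsCompact.of_isClosed_subset (isCompact_closedBall (0 : ℂ) 1) (isClosed_tsupport _)
      (DMS_eta.2.trans ball_subset_closedBall)
  -- the bound by the mass
  have hmass : ∀ N : ℕ, |∫ z, χ z * tau f N Z z| ≤ M * mass f N Z := by
    intro N
    have ht := RD3_tau_cont f U N (h3 N) hZ
    have i2 : Integrable (fun z => eta z ^ 2 * tau f N Z z) :=
      MSS_integrable isOpen_ball DMS_eta.1.continuous DMS_eta.2 heta2 ht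
    unfold mass
    rw [← integral_const_mul, ← Real.norm_eq_abs]
    refine norm_integral_le_of_norm_le (i2.const_mul M) (Eventually.of_forall fun z => ?_)
    rw [norm_mul, Real.norm_of_nonneg (RD3_tau_nonneg f N Z z)]
    by_cases hz : z ∈ ball (0 : ℂ) (1 / 2)
    · have h5 : eta z = 1 := by
        unfold eta
        apply Real.smoothTransition.one_of_one_le
        rw [mem_ball_zero_iff] at hz
        rw [Complex.normSq_eq_norm_sq]
        nlinarith [norm_nonneg z]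
      rw [h5, one_pow, one_mul]
      exact mul_le_mul_of_nonneg_right (hM z) (RD3_tau_nonneg f N Z z)
    · rw [image_eq_zero_of_notMem_tsupport (fun h => hz (hs h)), norm_zero, zero_mul]
      exact mul_nonneg hM0 (mul_nonneg (sq_nonneg _) (RD3_tau_nonneg f N Z z))
  set I : ℝ := ∫ z, lap χ z * RD3_u f (Z z) with hI
  set A : ℝ := ∫ z, |lap χ z| with hA
  have hA0 : 0 ≤ A := integral_nonneg fun z => abs_nonneg _
  have hdiff : ∀ N : ℕ, |(∫ z, χ z * tau f N Z z) - I| ≤ A * (C / (d : ℝ) ^ N) := by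
    intro N
    rw [(hMSS d f U hd hU Z hZ N).2 χ hχ hs1]
    exact DMS_diff l1 l2 l3 (DMS_un f U N (fun W hW => h3 N W hW) hZ)
      (RD3_vcont hd h1 h3 hZ) _ (RD3_vb hd h1 hZ N)
  by_contra hne
  have hIpos : 0 < |I| := abs_pos.2 hne
  have hfr : ∃ᶠ N in atTop, mass f N Z < |I| / (4 * (M + 1)) := by
    rw [Filter.frequently_iff]
    by_contra hcon
    push Not at hcon
    obtain ⟨S, hS, hS2⟩ := hcon
    refine hnc ⟨Z, hZ, |I| / (4 * (M + 1)), by positivity, ?_⟩
    filter_upwards [hS] with N hN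
    exact hS2 N hN
  have hev : ∀ᶠ N : ℕ in atTop, (A * C) / (d : ℝ) ^ N < |I| / 4 :=
    (RD3_small hd (A * C)).eventually (gt_mem_nhds (by positivity))
  obtain ⟨N, hN1, hN2⟩ := (hfr.and_eventually hev).exists
  have h6 := hmass N
  have h7 := hdiff N
  have h8 : A * (C / (d : ℝ) ^ N) = (A * C) / (d : ℝ) ^ N := by ring
  rw [h8] at h7
  have h9 : M * mass f N Z ≤ |I| / 4 := by
    calc M * mass f N Z ≤ M * (|I| / (4 * (M + 1))) := mul_le_mul_of_nonneg_left hN1.le hM0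
      _ ≤ (M + 1) * (|I| / (4 * (M + 1))) := by
          apply mul_le_mul_of_nonneg_right (by linarith)
          positivity
      _ = |I| / 4 := by
          field_simp
  have h10 : |I| ≤ |∫ z, χ z * tau f N Z z| + |(∫ z, χ z * tau f N Z z) - I| := by
    have := abs_sub (∫ z, χ z * tau f N Z z) ((∫ z, χ z * tau f N Z z) - I)
    rwa [sub_sub_cancel] at this
  linarith

end

theorem RD3_lap_scale (g : ℂ → ℝ) (hg : ContDiff ℝ 2 g) (ρ : ℝ) (z : ℂ) :
    lap (fun z => g (ρ • z)) z = ρ ^ 2 * lap g (ρ • z) := by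
  have e : (fun z : ℂ => g (ρ • z)) = g ∘ (ρ • ContinuousLinearMap.id ℝ ℂ) := rfl
  have h1 := (ρ • ContinuousLinearMap.id ℝ ℂ).iteratedFDeriv_comp_right hg z (le_refl (2 : WithTop ℕ∞))
  have h2 : ∀ m : Fin 2 → ℂ, iteratedFDeriv ℝ 2 (fun z : ℂ => g (ρ • z)) z m =
      ρ ^ 2 * iteratedFDeriv ℝ 2 g (ρ • z) m := by
    intro m
    rw [e]
    have h3 := congrArg (fun T => T m) h1
    refine h3.trans ?_
    show (iteratedFDeriv ℝ 2 g (ρ • z)) (fun i => ρ • m i) = _
    rw [ContinuousMultilinearMap.map_smul_univ (iteratedFDeriv ℝ 2 g (ρ • z)) (fun _ => ρ) m]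
    simp
  unfold lap
  rw [h2, h2]
  ring

theorem RD3_local (hMSS : MSS_stmt) {d : ℕ} {f : Endo 2 d} {U : Set (PP 2)} {C : ℝ} (hd : 2 ≤ d)
    (hU : Good0 f U) (hnc : ¬ Charged f U)
    (h1 : ∀ n N : ℕ, n ≤ N → ∀ Z ∈ cone (closure U), |un f N Z - un f n Z| ≤ C / (d : ℝ) ^ n)
    (h3 : ∀ n : ℕ, ∀ Z ∈ cone (closure U), 0 < pq (It f n Z)) (a b : E3)
    (hab : ∀ t ∈ closedBall (0 : ℂ) 1, a + t • b ∈ cone U) (t₀ : ℂ) (ht₀ : t₀ ∈ ball (0 : ℂ) 1) :
    ∃ G : ℂ → ℂ, AnalyticAt ℂ G t₀ ∧ ∀ᶠ t in 𝓝 t₀, RD3_u f (a + t • b) = (G t).re := by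
  rw [mem_ball_zero_iff] at ht₀
  set ρ : ℝ := 1 - ‖t₀‖ with hρ
  have hρ0 : 0 < ρ := by rw [hρ]; linarith
  set Z : ℂ → E3 := fun z => a + (t₀ + (ρ : ℂ) * z) • b with hZdef
  have hZ : Dsc U Z := by
    constructor
    · have hd1 : Differentiable ℂ (fun z : ℂ => a + (t₀ + (ρ : ℂ) * z) • b) := by fun_prop
      exact hd1.differentiableOn
    · intro z hz
      apply hab
      rw [mem_ball_zero_iff] at hz
      rw [mem_closedBall_zero_iff]
      have h4 : ‖(ρ : ℂ) * z‖ ≤ ρ * 1 := by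
        rw [norm_mul, Complex.norm_real, Real.norm_of_nonneg hρ0.le]
        exact mul_le_mul_of_nonneg_left hz.le hρ0.le
      have h5 := norm_add_le t₀ ((ρ : ℂ) * z)
      linarith
  have hcont := RD3_vcont hd h1 h3 hZ
  obtain ⟨g, hg, hge⟩ := SWE_core (fun w => RD3_u f (Z ((1 / 2 : ℝ) • w))) (by
    refine hcont.comp (by fun_prop : Continuous fun w : ℂ => (1 / 2 : ℝ) • w).continuousOn ?_
    intro w hw
    rw [mem_ball_zero_iff] at hw ⊢
    rw [norm_smul, Real.norm_of_nonneg (by norm_num)]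
    linarith) (by
    intro χ hχ hc hs
    have hχ2 : ContDiff ℝ 2 χ := hχ.of_le ENat.LEInfty.out
    have hw := RD3_weak hMSS hd hU hnc h1 h3 hZ (fun z => χ ((2 : ℝ) • z))
      (hχ.comp (contDiff_id.const_smul (2 : ℝ))) (by
        have h4 : tsupport (fun z : ℂ => χ ((2 : ℝ) • z)) ⊆ (fun z : ℂ => (2 : ℝ) • z) ⁻¹' tsupport χ := by
          refine closure_minimal ?_ ((isClosed_tsupport χ).preimage (by fun_prop))
          intro z hz
          exact subset_tsupport χ hz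
        refine h4.trans ?_
        intro z hz
        have h5 := hs hz
        rw [mem_ball_zero_iff] at h5 ⊢
        rw [norm_smul, Real.norm_of_nonneg (by norm_num)] at h5
        linarith)
    have h6 : ∀ z : ℂ, lap (fun z : ℂ => χ ((2 : ℝ) • z)) z * RD3_u f (Z z) =
        (2 : ℝ) ^ 2 * (fun w : ℂ => lap χ w * RD3_u f (Z ((1 / 2 : ℝ) • w))) ((2 : ℝ) • z) := by
      intro z
      rw [RD3_lap_scale χ hχ2]
      simp only [smul_smul]
      norm_num
      ring
    have h7 : ∫ z, lap (fun z : ℂ => χ ((2 : ℝ) • z)) z * RD3_u f (Z z) =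
        ∫ w, lap χ w * RD3_u f (Z ((1 / 2 : ℝ) • w)) := by
      have h12 := Measure.integral_comp_smul (volume : Measure ℂ)
        (fun w : ℂ => lap χ w * RD3_u f (Z ((1 / 2 : ℝ) • w))) (2 : ℝ)
      rw [Complex.finrank_real_complex, smul_eq_mul, abs_of_pos (by positivity)] at h12
      rw [integral_congr_ae (Eventually.of_forall h6), integral_const_mul, h12,
        ← mul_assoc, mul_inv_cancel₀ (by positivity), one_mul]
    rw [h7] at hw
    have h8 : ∀ z : ℂ, RD3_u f (Z ((1 / 2 : ℝ) • z)) * (Laplacian.laplacian χ : ℂ → ℝ) z =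
        4 * (lap χ z * RD3_u f (Z ((1 / 2 : ℝ) • z))) := by
      intro z
      rw [SWE_lap χ z hχ2.contDiffAt, MSS_lap hχ2.contDiffAt]
      ring
    rw [integral_congr_ae (Eventually.of_forall h8), integral_const_mul, hw, mul_zero])
  -- go back to t
  refine ⟨fun t => g ((2 / ρ : ℝ) * (t - t₀)), ?_, ?_⟩
  · have hg0 : AnalyticAt ℂ g ((2 / ρ : ℝ) * (t₀ - t₀)) := by
      rw [sub_self, mul_zero]
      exact hg.analyticAt (isOpen_ball.mem_nhds (mem_ball_self one_pos))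
    have hl : AnalyticAt ℂ (fun t : ℂ => ((2 / ρ : ℝ) : ℂ) * (t - t₀)) t₀ := by fun_prop
    exact AnalyticAt.comp (g := g) (f := fun t : ℂ => ((2 / ρ : ℝ) : ℂ) * (t - t₀)) hg0 hl
  · have hmem : ball t₀ (ρ / 2) ∈ 𝓝 t₀ := ball_mem_nhds _ (by positivity)
    filter_upwards [hmem] with t ht
    rw [mem_ball_iff_norm] at ht
    have h9 : ((2 / ρ : ℝ) : ℂ) * (t - t₀) ∈ ball (0 : ℂ) 1 := by
      rw [mem_ball_zero_iff, norm_mul, Complex.norm_real, Real.norm_of_nonneg (by positivity)]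
      calc 2 / ρ * ‖t - t₀‖ < 2 / ρ * (ρ / 2) := by
            apply mul_lt_mul_of_pos_left ht (by positivity)
        _ = 1 := by field_simp
    have h10 := hge _ h9
    rw [← h10]
    have hρc : (ρ : ℂ) ≠ 0 := by exact_mod_cast hρ0.ne'
    have h11 : t = t₀ + (ρ : ℂ) * ((1 / 2 : ℝ) • (((2 / ρ : ℝ) : ℂ) * (t - t₀))) := by
      rw [Complex.real_smul]
      push_cast
      field_simp
      ring
    show RD3_u f (a + t • b) = RD3_u f (a + (t₀ + (ρ : ℂ) * ((1 / 2 : ℝ) • (((2 / ρ : ℝ) : ℂ) * (t - t₀)))) • b)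
    rw [← h11]

theorem RD3 (hUN1 : UN1_stmt) (hUNH : UNH_stmt) (hMSS : MSS_stmt) : RD3_stmt := by
  intro d f U hd hU hnc
  obtain ⟨C, hC, h1, h2, h3, h4⟩ := hUN1 d f U hd hU
  have hpos : ∀ n : ℕ, ∀ Z ∈ cone (closure U), 0 < pq (It f n Z) := fun n Z hZ => (h3 n Z hZ).1
  have hd0 : (0 : ℝ) < d := by exact_mod_cast (by omega : 0 < d)
  refine ⟨RD3_u f, 2 * C + 1, ?_, ?_⟩
  · intro n Z hZ
    have hZc : Z ∈ cone (closure U) := DMS_cone subset_closure hZ
    have a1 := RD3_lim hd f Z (fun a b hab => h1 a b hab _ hZc) n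
    have a2 := h4 n Z hZc
    have hdn : (0 : ℝ) < (d : ℝ) ^ n := by positivity
    have a3 : |(d : ℝ) ^ n * RD3_u f Z - (d : ℝ) ^ n * un f n Z| ≤ C := by
      rw [← mul_sub, abs_mul, abs_of_pos hdn]
      calc (d : ℝ) ^ n * |RD3_u f Z - un f n Z| ≤ (d : ℝ) ^ n * (C / (d : ℝ) ^ n) :=
            mul_le_mul_of_nonneg_left a1 hdn.le
        _ = C := by field_simp
    -- comparison of the norms
    set W : E3 := It f n Z with hW
    have hWne : W ≠ 0 := by
      intro h0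
      have := hpos n Z hZc
      rw [← hW, h0] at this
      unfold pq at this
      simp at this
    have hWn : 0 < ‖W‖ := norm_pos_iff.2 hWne
    have b1 : ‖W‖ ^ 2 ≤ nq W := by
      obtain ⟨i, hi⟩ : ∃ i, ‖W‖ = ‖W i‖ := by
        obtain ⟨i, hi⟩ := Finite.exists_max (fun i => ‖W i‖)
        refine ⟨i, le_antisymm ?_ (norm_le_pi_norm W i)⟩
        exact (pi_norm_le_iff_of_nonneg (norm_nonneg _)).2 hi
      rw [hi, ← Complex.normSq_eq_norm_sq]
      exact Finset.single_le_sum (f := fun i => Complex.normSq (W i))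
        (fun i _ => Complex.normSq_nonneg _) (Finset.mem_univ i)
    have b2 : nq W ≤ 3 * ‖W‖ ^ 2 := by
      unfold nq
      calc ∑ i, Complex.normSq (W i) ≤ ∑ _i : Fin 3, ‖W‖ ^ 2 := by
            refine Finset.sum_le_sum fun i _ => ?_
            rw [Complex.normSq_eq_norm_sq]
            exact pow_le_pow_left₀ (norm_nonneg _) (norm_le_pi_norm W i) 2
        _ = 3 * ‖W‖ ^ 2 := by simp
    have hnq : 0 < nq W := lt_of_lt_of_le (by positivity) b1
    have b3 : Real.log (‖W‖ ^ 2) = 2 * Real.log ‖W‖ := by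
      rw [Real.log_pow]
      norm_num
    have b4 : 2 * Real.log ‖W‖ ≤ Real.log (nq W) := by
      rw [← b3]
      exact Real.log_le_log (by positivity) b1
    have b5 : Real.log (nq W) ≤ Real.log 3 + 2 * Real.log ‖W‖ := by
      rw [← b3, ← Real.log_mul (by norm_num) (by positivity)]
      exact Real.log_le_log hnq b2
    have b6 : Real.log 3 ≤ 2 := by
      have := Real.log_le_sub_one_of_pos (show (0 : ℝ) < 3 by norm_num)
      linarith
    have b7 : |(1 / 2) * Real.log (nq W) - Real.log ‖W‖| ≤ 1 := by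
      rw [abs_le]
      constructor <;> linarith
    show |(d : ℝ) ^ n * RD3_u f Z - Real.log ‖W‖| ≤ 2 * C + 1
    rw [abs_le] at a2 a3 b7 ⊢
    constructor <;> linarith [a2.1, a2.2, a3.1, a3.2, b7.1, b7.2]
  · intro a b hab
    have hloc := RD3_local hMSS hd hU hnc h1 hpos a b hab
    have hH : InnerProductSpace.HarmonicOnNhd (fun t : ℂ => RD3_u f (a + t • b)) (ball 0 1) := by
      intro t₀ ht₀
      obtain ⟨G, hG, hGe⟩ := hloc t₀ ht₀
      refine (InnerProductSpace.harmonicAt_congr_nhds ?_).1 hG.harmonicAt_re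
      filter_upwards [hGe] with t ht
      exact ht.symm
    obtain ⟨F, hF, hE⟩ := InnerProductSpace.HarmonicOnNhd.exists_analyticOnNhd_ball_re_eq hH
    exact ⟨F, hF.differentiableOn, fun t ht => (hE ht).symm⟩

end Pool.Agent.P2
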