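import Pool.Agent.helper83.P2.SpecS0

set_option autoImplicit false

namespace Pool.Agent.P2

open Metric Filter Topology MeasureTheory
open Pool.Agent.helper37.QA

theorem S0 (hSID : SID_stmt) (hSRH : SRH_stmt) (hSFN : SFN_stmt) : S0_stmt := by
  intro k d hd f U u C hU hG hH K hK hKne hKU hfK
  obtain ⟨e, he⟩ := hSID
  obtain ⟨ρ, hρ, hρρ, hρf, hρK, hρU⟩ := hSRH (PP k) f.map e (map_cont f) he
  have hfin := hSFN k d hd f U u C hU hG hH e ρ hρ hρρ (hρU U hU.2.2)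
  obtain ⟨y, hy⟩ := hKne
  have hKc : IsClosed K := hK.isClosed
  have hx : ρ y ∈ K := hρK K hKc hfK y hy
  have hiter : ∀ n, f.map^[n] (ρ y) ∈ K ∧ ρ (f.map^[n] (ρ y)) = f.map^[n] (ρ y) := by
    intro n
    induction n with
    | zero => exact ⟨hx, hρρ y⟩
    | succ n ih =>
      rw [Function.iterate_succ_apply']
      exact ⟨hfK ⟨_, ih.1, rfl⟩, by rw [hρf, ih.2]⟩
  have hmem : ∀ n : ℕ, f.map^[n] (ρ y) ∈ {z ∈ U | ρ z = z} := fun n =>
    ⟨hKU (hiter n).1, (hiter n).2⟩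
  obtain ⟨i, j, hij, hfij⟩ := hfin.exists_lt_map_eq_of_forall_mem hmem
  refine ⟨f.map^[i] (ρ y), (hiter i).1, j - i, Nat.sub_pos_of_lt hij, ?_⟩
  rw [← Function.iterate_add_apply, Nat.sub_add_cancel hij.le]
  exact hfij.symm

end Pool.Agent.P2
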