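import Pool.Agent.helper83.P2.SpecS0

set_option autoImplicit false

namespace Pool.Agent.P2

open Metric Filter Topology MeasureTheory
open Pool.Agent.helper37.QA

theorem SCT_disc (hSLF : SLF_stmt) (hSUL : SUL_stmt) {k d : ℕ} (hd : 2 ≤ d) (f : Endo k d)
    (U : Set (PP k)) (u : (Fin (k + 1) → ℂ) → ℝ) (C : ℝ) (hU : IsTrapping f U) (hG : Green f U u C)
    (hH : Harm U u) (e : Ultrafilter ℕ) (ρ : PP k → PP k) (hρ : Rho f.map e ρ)
    (a b : Fin (k + 1) → ℂ) (hab : ∀ t ∈ closedBall (0 : ℂ) 1, a + t • b ∈ cone U) :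
    ∃ R : ℂ → (Fin (k + 1) → ℂ),
      Tendsto (fun n => (Real.exp (-((d : ℝ) ^ n * u a)) : ℂ) • pmap (iter f.F n) a) e (𝓝 (R 0)) ∧
      (∀ t ∈ ball (0 : ℂ) 1, ‖R t - R 0‖ ≤ 3 * Real.exp C * ‖t‖) ∧
      ∀ t ∈ ball (0 : ℂ) 1, ∀ ha : a + t • b ≠ 0, ∃ hR : R t ≠ 0,
        toPP ⟨R t, hR⟩ = ρ (toPP ⟨a + t • b, ha⟩) := by
  obtain ⟨h, hdiff, h0, hh⟩ := hSLF k d hd f U u C hU hG hH a b hab
  obtain ⟨R, -, hR2, hR3⟩ := hSUL (k + 1) e h (Real.exp C) (Real.exp_pos C) hdiff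
    (fun n t ht => (hh n t ht).2.2.2.1)
  refine ⟨R, ?_, hR3, ?_⟩
  · have h1 := hR2 0 (mem_ball_self one_pos)
    have h2 : (fun n => h n 0) =
        fun n => (Real.exp (-((d : ℝ) ^ n * u a)) : ℂ) • pmap (iter f.F n) a := funext h0
    rwa [h2] at h1
  · intro t ht ha
    have hlow : Real.exp (-C) ≤ ‖R t‖ :=
      ge_of_tendsto (hR2 t ht).norm (Eventually.of_forall fun n => (hh n t ht).2.2.1)
    have hRt : R t ≠ 0 := norm_pos_iff.1 (lt_of_lt_of_le (Real.exp_pos _) hlow)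
    refine ⟨hRt, ?_⟩
    have hne : ∀ n, h n t ≠ 0 := fun n =>
      norm_pos_iff.1 (lt_of_lt_of_le (Real.exp_pos _) (hh n t ht).2.2.1)
    have hT : Tendsto (fun n => (⟨h n t, hne n⟩ : {v : Fin (k + 1) → ℂ // v ≠ 0})) e
        (𝓝 ⟨R t, hRt⟩) := tendsto_subtype_rng.2 (hR2 t ht)
    have hT2 := (toPP_cont.tendsto (⟨R t, hRt⟩ : {v : Fin (k + 1) → ℂ // v ≠ 0})).comp hT
    have hT3 := hρ (toPP ⟨a + t • b, ha⟩)
    have heq : (toPP ∘ fun n => (⟨h n t, hne n⟩ : {v : Fin (k + 1) → ℂ // v ≠ 0})) =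
        fun n => f.map^[n] (toPP ⟨a + t • b, ha⟩) := by
      funext n
      obtain ⟨c, hc0, hc⟩ := (hh n t ht).2.2.2.2
      rw [map_iter f n ha]
      exact toPP_eq _ _ c hc.symm
    rw [heq] at hT2
    exact tendsto_nhds_unique hT2 hT3

theorem SCT (hSLF : SLF_stmt) (hSUL : SUL_stmt) (hSOP : SOP_stmt) : SCT_stmt := by
  intro k d hd f U u C hU hG hH e ρ hρ
  intro z0 hz0
  refine ContinuousAt.continuousWithinAt ?_
  obtain ⟨⟨Z, hZ⟩, rfl⟩ : ∃ Z : {v : Fin (k + 1) → ℂ // v ≠ 0}, toPP Z = z0 :=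
    ⟨⟨z0.rep, z0.rep_nonzero⟩, z0.mk_rep⟩
  have hZU : Z ∈ cone U := ⟨hZ, hz0⟩
  obtain ⟨r', hr', hball'⟩ := Metric.isOpen_iff.1 (cone_open hU.1) Z hZU
  obtain ⟨r, hr, hball⟩ : ∃ r > 0, closedBall Z r ⊆ cone U :=
    ⟨r' / 2, half_pos hr', (closedBall_subset_ball (half_lt_self hr')).trans hball'⟩
  -- the limit at `Z`
  obtain ⟨R0, hR0, -, hR0c⟩ := SCT_disc hSLF hSUL hd f U u C hU hG hH e ρ hρ Z 0
    (fun t _ => by simpa using hZU)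
  have hZ' : Z + (0 : ℂ) • (0 : Fin (k + 1) → ℂ) ≠ 0 := by simpa using hZ
  obtain ⟨hV, hVρ⟩ := hR0c 0 (mem_ball_self one_pos) hZ'
  have hZeq : (⟨Z + (0 : ℂ) • (0 : Fin (k + 1) → ℂ), hZ'⟩ : {v : Fin (k + 1) → ℂ // v ≠ 0}) =
      ⟨Z, hZ⟩ := Subtype.ext (by simp)
  rw [hZeq] at hVρ
  -- nearby points
  have key : ∀ W : {v : Fin (k + 1) → ℂ // v ≠ 0}, ‖W.1 - Z‖ < r →
      ∃ Y : {v : Fin (k + 1) → ℂ // v ≠ 0}, toPP Y = ρ (toPP W) ∧
        ‖Y.1 - R0 0‖ ≤ 3 * Real.exp C * (‖W.1 - Z‖ / r) := by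
    intro W hW
    by_cases hWZ : W.1 = Z
    · refine ⟨⟨R0 0, hV⟩, ?_, ?_⟩
      · rw [hVρ]
        congr 2
        exact Subtype.ext hWZ.symm
      · simp [hWZ]
    · have hpos : 0 < ‖W.1 - Z‖ := norm_pos_iff.2 (sub_ne_zero.2 hWZ)
      obtain ⟨R, hR1, hR2, hR3⟩ := SCT_disc hSLF hSUL hd f U u C hU hG hH e ρ hρ Z
        (((r / ‖W.1 - Z‖ : ℝ) : ℂ) • (W.1 - Z)) (by
          intro t ht
          apply hball
          rw [mem_closedBall_iff_norm, add_sub_cancel_left, norm_smul, norm_smul,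
            Complex.norm_real, Real.norm_of_nonneg (div_pos hr hpos).le,
            div_mul_cancel₀ _ hpos.ne']
          have : ‖t‖ ≤ 1 := by simpa using ht
          nlinarith)
      have hR0V : R 0 = R0 0 := tendsto_nhds_unique hR1 hR0
      have hteq : Z + ((‖W.1 - Z‖ / r : ℝ) : ℂ) • (((r / ‖W.1 - Z‖ : ℝ) : ℂ) • (W.1 - Z)) =
          W.1 := by
        rw [smul_smul, ← Complex.ofReal_mul, div_mul_div_comm, mul_comm r,
          div_self (mul_ne_zero hpos.ne' hr.ne'), Complex.ofReal_one, one_smul]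
        abel
      have htn : ‖((‖W.1 - Z‖ / r : ℝ) : ℂ)‖ = ‖W.1 - Z‖ / r := by
        rw [Complex.norm_real, Real.norm_of_nonneg (div_nonneg hpos.le hr.le)]
      have htb : ((‖W.1 - Z‖ / r : ℝ) : ℂ) ∈ ball (0 : ℂ) 1 := by
        rw [mem_ball_zero_iff, htn, div_lt_one hr]
        exact hW
      obtain ⟨hRt, hRρ⟩ := hR3 _ htb (by rw [hteq]; exact W.2)
      refine ⟨⟨_, hRt⟩, ?_, ?_⟩
      · rw [hRρ]
        congr 2
        exact Subtype.ext hteq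
      · have := hR2 _ htb
        rw [hR0V, htn] at this
        exact this
  have hmain : Tendsto (fun W : {v : Fin (k + 1) → ℂ // v ≠ 0} => ρ (toPP W)) (𝓝 ⟨Z, hZ⟩)
      (𝓝 (ρ (toPP ⟨Z, hZ⟩))) := by
    intro N hN
    rw [← hVρ] at hN
    have h1 := toPP_cont.continuousAt.preimage_mem_nhds hN
    obtain ⟨ε, hε, hεN⟩ := Metric.mem_nhds_iff.1 h1
    have hδ : 0 < min r (ε * r / (3 * Real.exp C + 1)) := by positivity
    rw [Filter.mem_map]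
    refine Metric.mem_nhds_iff.2 ⟨_, hδ, ?_⟩
    intro W hW
    have hW' : ‖W.1 - Z‖ < min r (ε * r / (3 * Real.exp C + 1)) := by
      have : dist W.1 Z < _ := hW
      rwa [dist_eq_norm] at this
    obtain ⟨Y, hY1, hY2⟩ := key W (lt_of_lt_of_le hW' (min_le_left _ _))
    change ρ (toPP W) ∈ N
    rw [← hY1]
    apply hεN
    have h2 : ‖W.1 - Z‖ < ε * r / (3 * Real.exp C + 1) := lt_of_lt_of_le hW' (min_le_right _ _)
    rw [lt_div_iff₀ (by positivity)] at h2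
    have h3 : ‖W.1 - Z‖ / r * (3 * Real.exp C + 1) < ε := by
      rw [div_mul_eq_mul_div, div_lt_iff₀ hr]
      exact h2
    change dist Y.1 (R0 0) < ε
    rw [dist_eq_norm]
    have h4 : 0 ≤ ‖W.1 - Z‖ / r := div_nonneg (norm_nonneg _) hr.le
    nlinarith [Real.exp_pos C]
  have h5 : 𝓝 (toPP (⟨Z, hZ⟩ : {v : Fin (k + 1) → ℂ // v ≠ 0})) ≤
      Filter.map toPP (𝓝 (⟨Z, hZ⟩ : {v : Fin (k + 1) → ℂ // v ≠ 0})) := (hSOP k).nhds_le _
  exact Filter.Tendsto.mono_left (Filter.tendsto_map'_iff.2 hmain) h5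

end Pool.Agent.P2
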