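import Pool.Agent.helper83.P2.SpecS0

set_option autoImplicit false

namespace Pool.Agent.P2

open Metric Filter Topology MeasureTheory
open Pool.Agent.helper37.QA

theorem SFN_n2_smul {k : ℕ} (c : ℂ) (Z : Fin (k + 1) → ℂ) : n2 (c • Z) = ‖c‖ * n2 Z := by
  unfold n2
  rw [WithLp.toLp_smul, norm_smul]

theorem SFN_n2_pos {k : ℕ} {Z : Fin (k + 1) → ℂ} (hZ : Z ≠ 0) : 0 < n2 Z := by
  unfold n2
  rw [norm_pos_iff]
  intro h
  exact hZ ((WithLp.toLp_eq_zero 2).1 h)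

theorem SFN_compact (k : ℕ) : IsCompact {Z : Fin (k + 1) → ℂ | n2 Z = 1} := by
  have h1 : IsCompact (sphere (0 : EuclideanSpace ℂ (Fin (k + 1))) 1) := isCompact_sphere _ _
  have h2 : {Z : Fin (k + 1) → ℂ | n2 Z = 1} =
      (fun x : EuclideanSpace ℂ (Fin (k + 1)) => WithLp.ofLp x) '' sphere 0 1 := by
    ext Z
    constructor
    · intro hZ
      exact ⟨WithLp.toLp 2 Z, by rw [mem_sphere_zero_iff_norm]; exact hZ, rfl⟩
    · rintro ⟨x, hx, rfl⟩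
      rw [mem_sphere_zero_iff_norm] at hx
      exact hx
  rw [h2]
  exact h1.image (PiLp.continuous_ofLp 2 _)

theorem SFN (hSGR : SGR_stmt) (hSOP : SOP_stmt) (hSCT : SCT_stmt) (hSMX : SMX_stmt) :
    SFN_stmt := by
  intro k d hd f U u C hU hG hH e ρ hρ hρρ hρU
  obtain ⟨huc, hul, -, -⟩ := hSGR k d hd f U u C hU hG
  have hρc : ContinuousOn ρ U := hSCT k d hd f U u C hU hG hH e ρ hρ
  have hρU' : ∀ z ∈ U, ρ z ∈ U := fun z hz => hU.2.2 (hρU z hz)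
  set K0 := f.map '' closure U with hK0
  have hK0c : IsCompact K0 := isClosed_closure.isCompact.image (map_cont f)
  have hK0U : K0 ⊆ U := hU.2.2
  set M := {z ∈ U | ρ z = z} with hM
  have hMK0 : M ⊆ K0 := by
    rintro z ⟨hz, hzz⟩
    rw [← hzz]
    exact hρU z hz
  have hMU : M ⊆ U := fun z hz => hz.1
  have hMc : IsClosed M := by
    have h1 : IsClosed (K0 ∩ (fun z => (ρ z, z)) ⁻¹' (Set.diagonal (PP k))) :=
      ((hρc.mono hK0U).prodMk continuousOn_id).preimage_isClosed_of_isClosed hK0c.isClosed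
        isClosed_diagonal
    have h2 : M = K0 ∩ (fun z => (ρ z, z)) ⁻¹' (Set.diagonal (PP k)) := by
      ext z
      constructor
      · intro hz
        exact ⟨hMK0 hz, hz.2⟩
      · rintro ⟨hz1, hz2⟩
        exact ⟨hK0U hz1, hz2⟩
    rw [h2]
    exact h1
  by_contra hinf
  have hinf' : M.Infinite := hinf
  set M' := derivedSet M with hM'
  have hM'M : M' ⊆ M := isClosed_iff_derivedSet_subset M |>.1 hMc
  have hM'c : IsClosed M' := isClosed_derivedSet M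
  obtain ⟨z1, -, hz1⟩ := hinf'.exists_accPt_of_subset_isCompact hK0c hMK0
  have hz1' : z1 ∈ M' := hz1
  -- the compact set of normalised lifts
  have hScpt : IsCompact ({Z : Fin (k + 1) → ℂ | n2 Z = 1} \ cone M'ᶜ) :=
    (SFN_compact k).diff (cone_open hM'c.isOpen_compl)
  have hSmem : ∀ (W : Fin (k + 1) → ℂ) (hW : W ≠ 0), toPP ⟨W, hW⟩ ∈ M' →
      (((n2 W)⁻¹ : ℝ) : ℂ) • W ∈ ({Z : Fin (k + 1) → ℂ | n2 Z = 1} \ cone M'ᶜ) := by
    intro W hW hWM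
    have hpos := SFN_n2_pos hW
    refine ⟨?_, ?_⟩
    · change n2 _ = 1
      rw [SFN_n2_smul, Complex.norm_real, Real.norm_of_nonneg (inv_pos.2 hpos).le,
        inv_mul_cancel₀ hpos.ne']
    · rintro ⟨h1, h2⟩
      apply h2
      rw [toPP_eq h1 hW _ rfl]
      exact hWM
  have hSsub : ∀ Z ∈ ({Z : Fin (k + 1) → ℂ | n2 Z = 1} \ cone M'ᶜ), ∃ h : Z ≠ 0,
      toPP ⟨Z, h⟩ ∈ M' := by
    rintro Z ⟨hZ1, hZ2⟩
    have hZ0 : Z ≠ 0 := by
      rintro rfl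
      have : n2 (0 : Fin (k + 1) → ℂ) = 0 := by simp [n2]
      rw [Set.mem_ofPred_eq, this] at hZ1
      exact zero_ne_one hZ1
    refine ⟨hZ0, ?_⟩
    by_contra h
    exact hZ2 ⟨hZ0, h⟩
  have hSne : ({Z : Fin (k + 1) → ℂ | n2 Z = 1} \ cone M'ᶜ).Nonempty :=
    ⟨_, hSmem z1.rep z1.rep_nonzero (by
      have : toPP ⟨z1.rep, z1.rep_nonzero⟩ = z1 := z1.mk_rep
      rw [this]; exact hz1')⟩
  have hScone : ({Z : Fin (k + 1) → ℂ | n2 Z = 1} \ cone M'ᶜ) ⊆ cone U := by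
    intro Z hZ
    obtain ⟨h1, h2⟩ := hSsub Z hZ
    exact ⟨h1, hMU (hM'M h2)⟩
  obtain ⟨Z0, hZ0S, hZ0min⟩ := hScpt.exists_isMinOn hSne (huc.mono hScone)
  obtain ⟨h0, hz0⟩ := hSsub Z0 hZ0S
  have hn2Z0 : n2 Z0 = 1 := hZ0S.1
  have hmax : ∀ (W : Fin (k + 1) → ℂ) (hW : W ≠ 0), toPP ⟨W, hW⟩ ∈ M' →
      Real.log (n2 W) - u W ≤ Real.log (n2 Z0) - u Z0 := by
    intro W hW hWM
    have hpos := SFN_n2_pos hW
    have h1 : u Z0 ≤ u ((((n2 W)⁻¹ : ℝ) : ℂ) • W) := hZ0min (hSmem W hW hWM)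
    have hc0 : ((((n2 W)⁻¹ : ℝ) : ℂ)) ≠ 0 := by
      exact_mod_cast (inv_pos.2 hpos).ne'
    rw [hul W ⟨hW, hMU (hM'M hWM)⟩ _ hc0, Complex.norm_real,
      Real.norm_of_nonneg (inv_pos.2 hpos).le, Real.log_inv] at h1
    rw [hn2Z0, Real.log_one]
    linarith
  have hZ0U : Z0 ∈ cone U := hScone hZ0S
  obtain ⟨r', hr', hball'⟩ := Metric.isOpen_iff.1 (cone_open hU.1) Z0 hZ0U
  obtain ⟨r, hr, hball⟩ : ∃ r > 0, closedBall Z0 r ⊆ cone U :=
    ⟨r' / 2, half_pos hr', (closedBall_subset_ball (half_lt_self hr')).trans hball'⟩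
  have hz0M : toPP ⟨Z0, h0⟩ ∈ M := hM'M hz0
  have hρz0 : ρ (toPP ⟨Z0, h0⟩) = toPP ⟨Z0, h0⟩ := hz0M.2
  -- `ρ` is constant on discs
  have hdisc : ∀ b : Fin (k + 1) → ℂ, (∀ t ∈ closedBall (0 : ℂ) 1, Z0 + t • b ∈ cone U) →
      ∀ t ∈ ball (0 : ℂ) 1, ∀ h : Z0 + t • b ≠ 0,
        ρ (toPP ⟨Z0 + t • b, h⟩) = toPP ⟨Z0, h0⟩ := by
    intro b hb
    have hbU : ∀ t : ball (0 : ℂ) 1, Z0 + t.1 • b ∈ cone U := fun t =>
      hb t.1 (ball_subset_closedBall t.2)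
    have hbne : ∀ t : ball (0 : ℂ) 1, Z0 + t.1 • b ≠ 0 := fun t => (hbU t).1
    have hbU2 : ∀ t : ball (0 : ℂ) 1, toPP ⟨Z0 + t.1 • b, hbne t⟩ ∈ U := fun t => (hbU t).2
    let ψ : ball (0 : ℂ) 1 → PP k := fun t => toPP ⟨Z0 + t.1 • b, hbne t⟩
    have hψc : Continuous ψ :=
      toPP_cont.comp (((continuous_const).add (continuous_subtype_val.smul
        continuous_const)).subtype_mk _)
    let φ : ball (0 : ℂ) 1 → PP k := fun t => ρ (ψ t)
    have hφc : Continuous φ := hρc.comp_continuous hψc hbU2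
    have hφM : ∀ t, φ t ∈ M := fun t => ⟨hρU' _ (hbU2 t), hρρ _⟩
    have hpre : PreconnectedSpace (ball (0 : ℂ) 1) :=
      isPreconnected_iff_preconnectedSpace.1 (convex_ball (0 : ℂ) 1).isPreconnected
    let t0 : ball (0 : ℂ) 1 := ⟨0, mem_ball_self one_pos⟩
    have hφ0 : φ t0 = toPP ⟨Z0, h0⟩ := by
      have h1 : ψ t0 = toPP ⟨Z0, h0⟩ := by
        change toPP _ = toPP _
        congr 1
        exact Subtype.ext (by simp [t0])
      change ρ (ψ t0) = _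
      rw [h1, hρz0]
    have hφM' : ∀ t, φ t ∈ M' := by
      intro t
      by_contra hcon
      have hnot : ¬ AccPt (φ t) (𝓟 M) := hcon
      rw [accPt_iff_nhds] at hnot
      push Not at hnot
      obtain ⟨O, hO, hOM⟩ := hnot
      obtain ⟨O', hO'O, hO'open, hO't⟩ := mem_nhds_iff.1 hO
      have hclopen : IsClopen (φ ⁻¹' {φ t}) := by
        refine ⟨isClosed_singleton.preimage hφc, ?_⟩
        have : φ ⁻¹' {φ t} = φ ⁻¹' O' := by
          ext s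
          constructor
          · intro hs
            have hs' : φ s = φ t := hs
            change φ s ∈ O'
            rw [hs']
            exact hO't
          · intro hs
            exact hOM (φ s) ⟨hO'O hs, hφM s⟩
        rw [this]
        exact hO'open.preimage hφc
      have huniv := hclopen.eq_univ ⟨t, rfl⟩
      have h1 : t0 ∈ φ ⁻¹' {φ t} := by rw [huniv]; trivial
      have h2 : φ t0 = φ t := h1
      apply hcon
      rw [← h2, hφ0]
      exact hz0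
    refine hSMX k d hd f U u C hU hG hH e ρ hρ hρU' Z0 b h0 hρz0 hb ?_
    intro t ht h W hW hWeq
    apply hmax W hW
    rw [hWeq]
    exact hφM' ⟨t, ht⟩
  have hnear : ∀ W : {v : Fin (k + 1) → ℂ // v ≠ 0}, ‖W.1 - Z0‖ < r →
      ρ (toPP W) = toPP ⟨Z0, h0⟩ := by
    intro W hW
    by_cases hWZ : W.1 = Z0
    · have : W = ⟨Z0, h0⟩ := Subtype.ext hWZ
      rw [this, hρz0]
    · have hpos : 0 < ‖W.1 - Z0‖ := norm_pos_iff.2 (sub_ne_zero.2 hWZ)
      have hd1 := hdisc (((r / ‖W.1 - Z0‖ : ℝ) : ℂ) • (W.1 - Z0)) (by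
          intro t ht
          apply hball
          rw [mem_closedBall_iff_norm, add_sub_cancel_left, norm_smul, norm_smul,
            Complex.norm_real, Real.norm_of_nonneg (div_pos hr hpos).le,
            div_mul_cancel₀ _ hpos.ne']
          have : ‖t‖ ≤ 1 := by simpa using ht
          nlinarith)
      have hteq : Z0 + ((‖W.1 - Z0‖ / r : ℝ) : ℂ) • (((r / ‖W.1 - Z0‖ : ℝ) : ℂ) • (W.1 - Z0)) =
          W.1 := by
        rw [smul_smul, ← Complex.ofReal_mul, div_mul_div_comm, mul_comm r,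
          div_self (mul_ne_zero hpos.ne' hr.ne'), Complex.ofReal_one, one_smul]
        abel
      have htn : ‖((‖W.1 - Z0‖ / r : ℝ) : ℂ)‖ = ‖W.1 - Z0‖ / r := by
        rw [Complex.norm_real, Real.norm_of_nonneg (div_nonneg hpos.le hr.le)]
      have htb : ((‖W.1 - Z0‖ / r : ℝ) : ℂ) ∈ ball (0 : ℂ) 1 := by
        rw [mem_ball_zero_iff, htn, div_lt_one hr]
        exact hW
      have h1 := hd1 _ htb (by rw [hteq]; exact W.2)
      have h2 : (⟨Z0 + ((‖W.1 - Z0‖ / r : ℝ) : ℂ) • (((r / ‖W.1 - Z0‖ : ℝ) : ℂ) • (W.1 - Z0)),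
          by rw [hteq]; exact W.2⟩ : {v : Fin (k + 1) → ℂ // v ≠ 0}) = W := Subtype.ext hteq
      rw [h2] at h1
      exact h1
  -- a neighbourhood of `z0`
  have hopen : toPP '' (ball (⟨Z0, h0⟩ : {v : Fin (k + 1) → ℂ // v ≠ 0}) r) ∈
      𝓝 (toPP ⟨Z0, h0⟩) :=
    (hSOP k _ isOpen_ball).mem_nhds ⟨_, mem_ball_self hr, rfl⟩
  have hacc : AccPt (toPP ⟨Z0, h0⟩) (𝓟 M) := hz0
  rw [accPt_iff_nhds] at hacc
  obtain ⟨y, ⟨⟨W, hW, rfl⟩, hyM⟩, hyne⟩ := hacc _ hopen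
  apply hyne
  have h1 : ‖W.1 - Z0‖ < r := by
    have h2 : dist W.1 Z0 < r := hW
    rwa [dist_eq_norm] at h2
  rw [← hyM.2]
  exact hnear W h1

end Pool.Agent.P2
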