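import Pool.Agent.helper83.P2.SpecS0

set_option autoImplicit false

namespace Pool.Agent.P2

open Metric Filter Topology MeasureTheory
open Pool.Agent.helper37.QA

theorem SOP : SOP_stmt := by
  intro k V hV
  have h : (toPP : {v : Fin (k + 1) → ℂ // v ≠ 0} → PP k) ⁻¹' (toPP '' V) =
      ⋃ c : {c : ℂ // c ≠ 0}, (fun v : {v : Fin (k + 1) → ℂ // v ≠ 0} =>
        (⟨c.1 • v.1, smul_ne_zero c.2 v.2⟩ : {v : Fin (k + 1) → ℂ // v ≠ 0})) ⁻¹' V := by
    ext v
    simp only [Set.mem_preimage, Set.mem_image, Set.mem_iUnion]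
    constructor
    · rintro ⟨w, hw, hwv⟩
      obtain ⟨c, hc⟩ := (Projectivization.mk_eq_mk_iff' ℂ w.1 v.1 w.2 v.2).1 hwv
      have hc0 : c ≠ 0 := by
        rintro rfl
        exact w.2 (by rw [← hc, zero_smul])
      refine ⟨⟨c, hc0⟩, ?_⟩
      have : (⟨c • v.1, smul_ne_zero hc0 v.2⟩ : {v : Fin (k + 1) → ℂ // v ≠ 0}) = w :=
        Subtype.ext hc
      rw [this]
      exact hw
    · rintro ⟨c, hc⟩
      exact ⟨_, hc, toPP_eq _ _ c.1 rfl⟩
  have h2 : IsOpen ((toPP : {v : Fin (k + 1) → ℂ // v ≠ 0} → PP k) ⁻¹' (toPP '' V)) := by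
    rw [h]
    refine isOpen_iUnion fun c => hV.preimage ?_
    exact (continuous_subtype_val.const_smul c.1).subtype_mk _
  exact isOpen_coinduced.2 h2

end Pool.Agent.P2
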