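import Pool.Agent.helper83.P2.SpecV
import Pool.Agent.helper90.P2.COREd

set_option autoImplicit false
set_option linter.unusedVariables false

open scoped ContDiff Topology
open MeasureTheory Filter Set Metric MvPolynomial Pool.Agent.helper37.QA Pool.Agent.P2

namespace Pool.Agent.P2V

/-- the integral over the slices is continuous -/
theorem VC2_slice {g : ℂ × ℂ → ℝ} {E : ℂ → ℝ} {b R : ℝ} (hE : Continuous E) (hs : tsupport E ⊆ ball 0 b)
    (hg : ContinuousOn g (ball 0 R ×ˢ ball 0 b)) : ContinuousOn (fun s => ∫ z, E z * g (s, z)) (ball 0 R) := by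
  have hk : IsCompact (tsupport E) := by
    apply Metric.isCompact_of_isClosed_isBounded (isClosed_tsupport E)
    exact isBounded_ball.subset hs
  apply continuousOn_integral_of_compact_support hk
  · intro p hp
    have hopen : IsOpen (ball (0 : ℂ) R ×ˢ ball (0 : ℂ) b) := isOpen_ball.prod isOpen_ball
    apply ContinuousAt.continuousWithinAt
    show ContinuousAt (fun p : ℂ × ℂ => E p.2 * g (p.1, p.2)) p
    by_cases h : p.2 ∈ ball (0 : ℂ) b
    · have h1 : ContinuousAt g p := hg.continuousAt (hopen.mem_nhds ⟨hp.1, h⟩)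
      exact (hE.comp continuous_snd).continuousAt.mul h1
    · have h2 : p.2 ∈ (tsupport E)ᶜ := fun h' => h (hs h')
      have h3 : (fun p : ℂ × ℂ => E p.2 * g (p.1, p.2)) =ᶠ[𝓝 p] fun _ => 0 := by
        have : Prod.snd ⁻¹' (tsupport E)ᶜ ∈ 𝓝 p :=
          continuous_snd.continuousAt.preimage_mem_nhds ((isClosed_tsupport E).isOpen_compl.mem_nhds h2)
        filter_upwards [this] with q hq
        have : E q.2 = 0 := image_eq_zero_of_notMem_tsupport hq
        simp [this]
      exact continuousAt_const.congr h3.symm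
  · intro s z _ hz
    rw [image_eq_zero_of_notMem_tsupport hz, zero_mul]

/-- Tonelli, first kind -/
theorem VC2_tonA {r b cL β : ℝ} {U : ℂ × ℂ → ℝ} {c : ℂ → ℝ} (hc : Continuous c) (hc0 : ∀ z, 0 ≤ c z)
    (hU : ContinuousOn U (ball 0 r ×ˢ ball 0 b))
    (hb : ∀ z ∈ ball (0 : ℂ) b, ∫⁻ s in ball (0 : ℂ) r, ENNReal.ofReal (‖s‖ ^ (-β) * U (s, z)) ≤ ENNReal.ofReal cL) :
    ∫⁻ p in ball (0 : ℂ) r ×ˢ ball (0 : ℂ) b, ENNReal.ofReal (c p.2 * (‖p.1‖ ^ (-β) * U p)) ≤
      (∫⁻ z in ball (0 : ℂ) b, ENNReal.ofReal (c z)) * ENNReal.ofReal cL := by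
  have hms : MeasurableSet (ball (0 : ℂ) r ×ˢ ball (0 : ℂ) b) := measurableSet_ball.prod measurableSet_ball
  have hUm : AEMeasurable U ((volume : Measure (ℂ × ℂ)).restrict (ball 0 r ×ˢ ball 0 b)) := (hU.aestronglyMeasurable hms).aemeasurable
  have hm : AEMeasurable (fun p : ℂ × ℂ => ENNReal.ofReal (c p.2 * (‖p.1‖ ^ (-β) * U p)))
      ((volume : Measure (ℂ × ℂ)).restrict (ball 0 r ×ˢ ball 0 b)) := by
    apply AEMeasurable.ennreal_ofReal
    apply AEMeasurable.mul
    · exact (hc.comp continuous_snd).measurable.aemeasurable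
    · apply AEMeasurable.mul _ hUm
      exact ((continuous_fst.norm).measurable.pow_const (-β)).aemeasurable
  have hrest : ((volume : Measure (ℂ × ℂ)).restrict (ball 0 r ×ˢ ball 0 b)) = (volume.restrict (ball (0 : ℂ) r)).prod (volume.restrict (ball (0 : ℂ) b)) := by
    rw [Measure.prod_restrict, Measure.volume_eq_prod]
  rw [hrest] at hm ⊢
  rw [lintegral_prod_symm _ hm, ← lintegral_mul_const' _ _ ENNReal.ofReal_ne_top]
  apply setLIntegral_mono_ae' measurableSet_ball
  filter_upwards with z hz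
  have e : ∀ s : ℂ, ENNReal.ofReal (c z * (‖s‖ ^ (-β) * U (s, z))) = ENNReal.ofReal (c z) * ENNReal.ofReal (‖s‖ ^ (-β) * U (s, z)) := by
    intro s
    rw [ENNReal.ofReal_mul (hc0 z)]
  simp only [e]
  rw [lintegral_const_mul' _ _ ENNReal.ofReal_ne_top]
  gcongr
  exact hb z hz

/-- Tonelli, second kind -/
theorem VC2_tonB {r b cT β : ℝ} {T : ℂ × ℂ → ℝ} {E : ℂ → ℝ} (hr : 0 < r) (hβ : 0 < β) (hE : Continuous E) (hE0 : ∀ z, 0 ≤ E z)
    (hs : tsupport E ⊆ ball 0 b) (hT : ContinuousOn T (ball 0 (4 * r) ×ˢ ball 0 b)) (hT0 : ∀ p, 0 ≤ T p)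
    (hb : ∀ s ∈ ball (0 : ℂ) r, ∫ z, E z * T (s, z) ≤ cT) :
    ∫⁻ p in ball (0 : ℂ) r ×ˢ ball (0 : ℂ) b, ENNReal.ofReal (‖p.1‖ ^ (β - 2) * (E p.2 * T p)) ≤
      ENNReal.ofReal (2 * Real.pi * (r ^ β / β)) * ENNReal.ofReal cT := by
  have hms : MeasurableSet (ball (0 : ℂ) r ×ˢ ball (0 : ℂ) b) := measurableSet_ball.prod measurableSet_ball
  have hsub : ball (0 : ℂ) r ×ˢ ball (0 : ℂ) b ⊆ ball (0 : ℂ) (4 * r) ×ˢ ball (0 : ℂ) b :=
    prod_mono (ball_subset_ball (by linarith)) subset_rfl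
  have hUm : AEMeasurable T ((volume : Measure (ℂ × ℂ)).restrict (ball 0 r ×ˢ ball 0 b)) :=
    ((hT.mono hsub).aestronglyMeasurable hms).aemeasurable
  have hm : AEMeasurable (fun p : ℂ × ℂ => ENNReal.ofReal (‖p.1‖ ^ (β - 2) * (E p.2 * T p)))
      ((volume : Measure (ℂ × ℂ)).restrict (ball 0 r ×ˢ ball 0 b)) := by
    apply AEMeasurable.ennreal_ofReal
    apply AEMeasurable.mul
    · exact ((continuous_fst.norm).measurable.pow_const (β - 2)).aemeasurable
    · apply AEMeasurable.mul _ hUm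
      exact (hE.comp continuous_snd).measurable.aemeasurable
  have hrest : ((volume : Measure (ℂ × ℂ)).restrict (ball 0 r ×ˢ ball 0 b)) = (volume.restrict (ball (0 : ℂ) r)).prod (volume.restrict (ball (0 : ℂ) b)) := by
    rw [Measure.prod_restrict, Measure.volume_eq_prod]
  rw [hrest] at hm ⊢
  rw [lintegral_prod _ hm, ← CORE_radial hβ hr, ← lintegral_mul_const' _ _ ENNReal.ofReal_ne_top]
  apply setLIntegral_mono_ae' measurableSet_ball
  filter_upwards with s hsr
  have e : ∀ z : ℂ, ENNReal.ofReal (‖s‖ ^ (β - 2) * (E z * T (s, z))) = ENNReal.ofReal (‖s‖ ^ (β - 2)) * ENNReal.ofReal (E z * T (s, z)) := by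
    intro z
    rw [ENNReal.ofReal_mul (by positivity)]
  simp only [e]
  rw [lintegral_const_mul' _ _ ENNReal.ofReal_ne_top]
  gcongr
  have hk : IsCompact (tsupport E) := by
    apply Metric.isCompact_of_isClosed_isBounded (isClosed_tsupport E)
    exact isBounded_ball.subset hs
  have hcont : Continuous (fun z => E z * T (s, z)) := by
    rw [continuous_iff_continuousAt]
    intro z
    by_cases h : z ∈ ball (0 : ℂ) b
    · have hopen : IsOpen (ball (0 : ℂ) (4 * r) ×ˢ ball (0 : ℂ) b) := isOpen_ball.prod isOpen_ball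
      have h1 : ContinuousAt T (s, z) := hT.continuousAt (hopen.mem_nhds (hsub ⟨hsr, h⟩))
      have h2 : ContinuousAt (fun z : ℂ => (s, z)) z := by fun_prop
      have h3 : ContinuousAt (fun z : ℂ => T (s, z)) z := ContinuousAt.comp (f := fun z : ℂ => (s, z)) (g := T) h1 h2
      exact hE.continuousAt.mul h3
    · have h2 : z ∈ (tsupport E)ᶜ := fun h' => h (hs h')
      have h3 : (fun z => E z * T (s, z)) =ᶠ[𝓝 z] fun _ => 0 := by
        filter_upwards [(isClosed_tsupport E).isOpen_compl.mem_nhds h2] with q hq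
        have : E q = 0 := image_eq_zero_of_notMem_tsupport hq
        simp [this]
      exact continuousAt_const.congr h3.symm
  have hint : Integrable (fun z => E z * T (s, z)) := by
    apply hcont.integrable_of_hasCompactSupport
    apply HasCompactSupport.intro hk
    intro z hz
    rw [image_eq_zero_of_notMem_tsupport hz, zero_mul]
  calc ∫⁻ z in ball (0 : ℂ) b, ENNReal.ofReal (E z * T (s, z)) ≤ ∫⁻ z, ENNReal.ofReal (E z * T (s, z)) := setLIntegral_le_lintegral _ _
    _ = ENNReal.ofReal (∫ z, E z * T (s, z)) :=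
      (ofReal_integral_eq_lintegral_ofReal hint (by filter_upwards with z; exact mul_nonneg (hE0 z) (hT0 _))).symm
    _ ≤ ENNReal.ofReal cT := ENNReal.ofReal_le_ofReal (hb s hsr)

theorem VC2_step (hIBP : IBP_stmt) {C0 α β CL MEl Mη M R : ℝ} {η : ℂ → ℝ} (hβ : 0 < β) (hαβ : α = 2 * β) (hCL : 0 < CL)
    (hη : ContDiff ℝ ∞ η) (hsη : tsupport η ⊆ ball 0 R)
    (hL : ∀ (r : ℝ) (v : ℂ → ℝ), 0 < r → ContDiffOn ℝ ∞ v (ball 0 (4 * r)) →
      (∀ s ∈ ball (0 : ℂ) (4 * r), 0 ≤ lap v s) →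
      (∀ s ∈ ball (0 : ℂ) (4 * r), ∀ s' ∈ ball (0 : ℂ) (4 * r), |v s - v s'| ≤ C0 * ‖s - s'‖ ^ α) →
      ∫⁻ s in ball (0 : ℂ) r, ENNReal.ofReal (‖s‖ ^ (-β) * lap v s) ≤ ENNReal.ofReal (CL * r ^ (α - β)))
    (hMEl : MEl = ∫ z, |lap (fun z => η z ^ 2) z|) (hMη : Mη = ∫ z, ‖fderiv ℝ η z‖ ^ 2)
    {r D w B : ℝ} {P Q : ℂ × ℂ → ℂ} {Ψ : ℂ × ℂ → ℝ} (hr : 0 < r) (hr1 : r ≤ 1) (hD : 0 < D) (hw : 0 < w) (hB : 0 ≤ B)
    (hP : DifferentiableOn ℂ P (ball 0 (4 * r) ×ˢ ball 0 R)) (hQ : DifferentiableOn ℂ Q (ball 0 (4 * r) ×ˢ ball 0 R))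
    (hn : ∀ p ∈ ball (0 : ℂ) (4 * r) ×ˢ ball (0 : ℂ) R, P p ≠ 0 ∨ Q p ≠ 0)
    (hH : ∀ s ∈ ball (0 : ℂ) (4 * r), ∀ s' ∈ ball (0 : ℂ) (4 * r), ∀ z ∈ ball (0 : ℂ) R,
        |uu P Q D (s, z) - uu P Q D (s', z)| ≤ C0 * ‖s - s'‖ ^ α)
    (hM0 : 0 < M) (hM : ∀ s ∈ ball (0 : ℂ) r, w * ∫ z, η z ^ 2 * ta P Q D (s, z) ≤ M)
    (hΨ : ContDiffOn ℝ ∞ Ψ (ball 0 (4 * r) ×ˢ ball 0 R)) (hΨB : ∀ p ∈ ball (0 : ℂ) (4 * r) ×ˢ ball (0 : ℂ) R, |Ψ p| ≤ B)
    {ε : ℝ} (hε : 0 < ε) (hεr : ε ≤ r / 8) {K : ℂ → ℝ} (hKr : Kr r ε K) :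
    |(∫ s, phr r s * (w * ∫ z, η z ^ 2 * (Ψ (s, z) * ta P Q D (s, z)))) - (∫ s, phr ε s * (w * ∫ z, η z ^ 2 * (Ψ (s, z) * ta P Q D (s, z)))) -
        ∫ s, K s * (w * ∫ z, η z ^ 2 * (lev Ψ (s, z) (ev P Q (s, z)) * om P Q (s, z) / (2 * D)))| ≤
      (MEl * CL / β * (w * r ^ α) + (4 * Mη * CL + 8 * M * Real.pi / β) * (w * r ^ α) ^ (1 / 2 : ℝ)) * B := by
  obtain ⟨hK, hKz, hK0, hKlap, hKd, hKl⟩ := hKr
  set A : Set (ℂ × ℂ) := ball (0 : ℂ) (4 * r) ×ˢ ball (0 : ℂ) R with hAdef
  have hA : IsOpen A := isOpen_ball.prod isOpen_ball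
  set E : ℂ → ℝ := fun z => η z ^ 2 with hEdef
  have hE : ContDiff ℝ ∞ E := hη.pow 2
  have hE0 : ∀ z, 0 ≤ E z := fun z => sq_nonneg _
  set k : Set ℂ := tsupport η with hk
  have hkc : IsCompact k := Metric.isCompact_of_isClosed_isBounded (isClosed_tsupport η) (isBounded_ball.subset hsη)
  have hηz : ∀ z, z ∉ k → η =ᶠ[𝓝 z] fun _ => 0 := by
    intro z hz
    filter_upwards [(isClosed_tsupport η).isOpen_compl.mem_nhds hz] with q hq
    exact image_eq_zero_of_notMem_tsupport hq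
  have hEz : ∀ z, z ∉ k → E =ᶠ[𝓝 z] fun _ => 0 := by
    intro z hz
    filter_upwards [hηz z hz] with q hq
    simp [hEdef, hq]
  have hEz0 : ∀ z, z ∉ k → E z = 0 := fun z hz => (hEz z hz).eq_of_nhds
  have hElap : ∀ z, z ∉ k → lap E z = 0 := fun z hz => CORE_lapzero (hEz z hz)
  have hEd : ∀ z, z ∉ k → fderiv ℝ E z = 0 := by
    intro z hz
    rw [(hEz z hz).fderiv_eq]
    simp
  have hsE : tsupport E ⊆ ball 0 R := by
    refine subset_trans ?_ hsη
    apply closure_minimal _ (isClosed_tsupport η)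
    intro z hz
    by_contra h
    exact hz (hEz0 z h)
  set C : Set (ℂ × ℂ) := closedBall (0 : ℂ) r ×ˢ k with hCdef
  have hC : IsCompact C := (isCompact_closedBall 0 r).prod hkc
  have hCA : C ⊆ A := prod_mono (closedBall_subset_ball (by linarith)) hsη
  obtain ⟨cw1, cw2, com⟩ := CORE_geo hA hP hQ hn
  have cΨ : ContinuousOn Ψ A := hΨ.continuousOn
  have cev : ContinuousOn (ev P Q) A := cw2.neg.prodMk cw1
  have cG : ContinuousOn (fun p => lev Ψ p (ev P Q p) * om P Q p / (2 * D)) A := ((CORE_levcont hA hΨ cev).mul com).div_const _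
  have cT : ContinuousOn (ta P Q D) A := by
    unfold ta
    exact ((continuousOn_const.mul (Complex.continuous_normSq.comp_continuousOn cw2)).mul com).div_const D
  set U : ℂ × ℂ → ℝ := fun p => (1 / 2) * Complex.normSq (w1 P Q p) * om P Q p / D with hU
  have cU : ContinuousOn U A := ((continuousOn_const.mul (Complex.continuous_normSq.comp_continuousOn cw1)).mul com).div_const D
  have hom : ∀ p, 0 ≤ om P Q p := fun p => inv_nonneg.2 (sq_nonneg _)
  have hT0 : ∀ p, 0 ≤ ta P Q D p := by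
    intro p
    unfold ta
    have := hom p
    have := Complex.normSq_nonneg (w2 P Q p)
    positivity
  have hU0 : ∀ p, 0 ≤ U p := by
    intro p
    have := hom p
    have := Complex.normSq_nonneg (w1 P Q p)
    positivity
  set G : ℂ × ℂ → ℝ := fun p => lev Ψ p (ev P Q p) * om P Q p / (2 * D) with hG
  -- the cut-off function
  set κ : ℂ × ℂ → ℝ := fun p => K p.1 * E p.2 with hκ
  have hKout : ∀ s, r < ‖s‖ → K s = 0 := fun s hs => hKz s hs.le
  have hκz : ∀ p, p ∉ C → κ p = 0 := by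
    intro p hp
    by_cases h2 : p.2 ∈ k
    · have h1 : p.1 ∉ closedBall (0 : ℂ) r := fun h1 => hp ⟨h1, h2⟩
      rw [mem_closedBall_zero_iff, not_le] at h1
      simp [hκ, hKout _ h1]
    · simp [hκ, hEz0 _ h2]
  have hκsm : ContDiff ℝ ∞ κ := (hK.comp contDiff_fst).mul (hE.comp contDiff_snd)
  have hκcs : HasCompactSupport κ := HasCompactSupport.intro hC hκz
  have hκts : tsupport κ ⊆ A := by
    refine subset_trans ?_ hCA
    apply closure_minimal _ hC.isClosed
    intro p hp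
    by_contra h
    exact hp (hκz p h)
  have hI := hIBP A P Q κ Ψ hA hP hQ hn hκsm hκcs hκts hΨ
  -- pieces
  set f : ℝ → ℂ × ℂ → ℝ := fun ρ p => phr ρ p.1 * (E p.2 * (Ψ p * ta P Q D p)) with hf
  set X : ℂ × ℂ → ℝ := fun p => (1 / 2) * (fderiv ℝ K p.1 (-(w2 P Q p)) * fderiv ℝ E p.2 (w1 P Q p) +
    fderiv ℝ K p.1 (Complex.I * -(w2 P Q p)) * fderiv ℝ E p.2 (Complex.I * w1 P Q p)) * om P Q p / (2 * D) with hX
  set F : ℂ × ℂ → ℝ := fun p => Ψ p * (K p.1 * lap E p.2 * U p + X p) with hF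
  have hDne : D ≠ 0 := hD.ne'
  have hpt1 : ∀ p, Ψ p * lev κ p (ev P Q p) * om P Q p = 2 * D * ((f r p - f ε p) + F p) := by
    intro p
    have h1 : lev κ p (ev P Q p) = _ := CORE_prod hK hE p.1 p.2 (-(w2 P Q p)) (w1 P Q p)
    rw [h1, hKlap, Complex.normSq_neg]
    simp only [hf, hF, hX, hU, ta]
    field_simp
    ring
  have hpt2 : ∀ p, κ p * lev Ψ p (ev P Q p) * om P Q p = 2 * D * (K p.1 * (E p.2 * G p)) := by
    intro p
    simp only [hκ, hG]
    field_simp
  have hfI : ∀ ρ, 0 < ρ → ρ ≤ r → Integrable (f ρ) := by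
    intro ρ hρ hρr
    apply CORE_int hA hC hCA
    · exact ((CORE_phr_cont ρ).comp continuous_fst).continuousOn.mul ((hE.continuous.comp continuous_snd).continuousOn.mul (cΨ.mul cT))
    · intro p hp
      by_cases h2 : p.2 ∈ k
      · have h1 : p.1 ∉ closedBall (0 : ℂ) r := fun h1 => hp ⟨h1, h2⟩
        rw [mem_closedBall_zero_iff, not_le] at h1
        simp [hf, CORE_phr_zero hρ (hρr.trans h1.le)]
      · simp [hf, hEz0 _ h2]
  have hKfd : ∀ s, r ≤ ‖s‖ → fderiv ℝ K s = 0 := fun s hs => CORE_gradzero hK hK0 (hKz s hs)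
  have cKd : Continuous (fderiv ℝ K) := hK.continuous_fderiv (by simp)
  have cEd : Continuous (fderiv ℝ E) := hE.continuous_fderiv (by simp)
  have cX : ContinuousOn X A := by
    have c1 : ContinuousOn (fun p : ℂ × ℂ => fderiv ℝ K p.1) A := (cKd.comp continuous_fst).continuousOn
    have c2 : ContinuousOn (fun p : ℂ × ℂ => fderiv ℝ E p.2) A := (cEd.comp continuous_snd).continuousOn
    have cI : ContinuousOn (fun _ : ℂ × ℂ => Complex.I) A := continuousOn_const
    exact (((continuousOn_const.mul (((c1.clm_apply cw2.neg).mul (c2.clm_apply cw1)).add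
      ((c1.clm_apply (cI.mul cw2.neg)).mul (c2.clm_apply (cI.mul cw1))))).mul com).div_const _)
  have hFz : ∀ p : ℂ × ℂ, (p.2 ∉ k ∨ r ≤ ‖p.1‖) → F p = 0 := by
    intro p hp
    rcases hp with h | h
    · simp [hF, hX, hElap _ h, hEd _ h]
    · simp [hF, hX, hKz _ h, hKfd _ h]
  have hFI : Integrable F := by
    apply CORE_int hA hC hCA
    · exact cΨ.mul ((((hK.continuous.comp continuous_fst).continuousOn.mul ((CORE_lapcont hE).comp continuous_snd).continuousOn).mul cU).add cX)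
    · intro p hp
      apply hFz
      by_cases h2 : p.2 ∈ k
      · right
        have h1 : p.1 ∉ closedBall (0 : ℂ) r := fun h1 => hp ⟨h1, h2⟩
        rw [mem_closedBall_zero_iff, not_le] at h1
        exact h1.le
      · exact Or.inl h2
  have hKG : Integrable (fun p : ℂ × ℂ => K p.1 * (E p.2 * G p)) := by
    apply CORE_int hA hC hCA
    · exact (hK.continuous.comp continuous_fst).continuousOn.mul ((hE.continuous.comp continuous_snd).continuousOn.mul cG)
    · intro p hp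
      by_cases h2 : p.2 ∈ k
      · have h1 : p.1 ∉ closedBall (0 : ℂ) r := fun h1 => hp ⟨h1, h2⟩
        rw [mem_closedBall_zero_iff, not_le] at h1
        simp [hKout _ h1]
      · simp [hEz0 _ h2]
  have hεr' : ε ≤ r := by linarith
  have hmain : (∫ p, f r p) - (∫ p, f ε p) + (∫ p, F p) = ∫ p, K p.1 * (E p.2 * G p) := by
    have h1 : ∫ p, Ψ p * lev κ p (ev P Q p) * om P Q p = 2 * D * ((∫ p, f r p) - (∫ p, f ε p) + (∫ p, F p)) := by
      have hs2 : Integrable (fun p => f r p - f ε p) := (hfI r hr le_rfl).sub (hfI ε hε hεr')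
      rw [← integral_sub (hfI r hr le_rfl) (hfI ε hε hεr'), ← integral_add hs2 hFI, ← integral_const_mul]
      exact integral_congr_ae (by filter_upwards with p; exact hpt1 p)
    have h2 : ∫ p, κ p * lev Ψ p (ev P Q p) * om P Q p = 2 * D * ∫ p, K p.1 * (E p.2 * G p) := by
      rw [← integral_const_mul]
      exact integral_congr_ae (by filter_upwards with p; exact hpt2 p)
    rw [h1, h2] at hI
    exact mul_left_cancel₀ (by positivity) hI
  -- Fubini
  have hfub : ∀ ρ, 0 < ρ → ρ ≤ r → w * (∫ p, f ρ p) = ∫ s, phr ρ s * (w * ∫ z, η z ^ 2 * (Ψ (s, z) * ta P Q D (s, z))) := by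
    intro ρ hρ hρr
    have h1 := hfI ρ hρ hρr
    rw [Measure.volume_eq_prod] at h1 ⊢
    rw [integral_prod _ h1, ← integral_const_mul]
    apply integral_congr_ae
    filter_upwards with s
    simp only [hf]
    rw [integral_const_mul]
    ring
  -- the lower bound
  set hh : ℂ → ℝ := fun s => ∫ z, E z * G (s, z) with hhh
  have hKhE : ∫ p, K p.1 * (E p.2 * G p) = ∫ s, K s * hh s := by
    have h1 := hKG
    rw [Measure.volume_eq_prod] at h1 ⊢
    rw [integral_prod _ h1]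
    apply integral_congr_ae
    filter_upwards with s
    simp only [hhh]
    rw [integral_const_mul]
  -- the error term
  have hle : w * |∫ p, F p| ≤ (MEl * CL / β * (w * r ^ α) + (4 * Mη * CL + 8 * M * Real.pi / β) * (w * r ^ α) ^ (1 / 2 : ℝ)) * B := by
    set l : ℝ := Real.sqrt w with hl
    have hlpos : 0 < l := Real.sqrt_pos.2 hw
    have hll : l * l = w := Real.mul_self_sqrt hw.le
    have hdη : Continuous (fderiv ℝ η) := hη.continuous_fderiv (by simp)
    set c : ℂ → ℝ := fun z => B * (r ^ β / β) * |lap E z| + 4 * B / l * ‖fderiv ℝ η z‖ ^ 2 with hc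
    have hcc : Continuous c := (continuous_const.mul (CORE_lapcont hE).abs).add (continuous_const.mul (hdη.norm.pow 2))
    have hc0 : ∀ z, 0 ≤ c z := by
      intro z
      positivity
    have hms : MeasurableSet (ball (0 : ℂ) r ×ˢ ball (0 : ℂ) R) := measurableSet_ball.prod measurableSet_ball
    have hsub : ball (0 : ℂ) r ×ˢ ball (0 : ℂ) R ⊆ A := prod_mono (ball_subset_ball (by linarith)) subset_rfl
    -- the pointwise bound
    have hpb : ∀ p ∈ ball (0 : ℂ) r ×ˢ ball (0 : ℂ) R, p.1 ≠ 0 →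
        ‖F p‖ ≤ c p.2 * (‖p.1‖ ^ (-β) * U p) + 4 * B * l * (‖p.1‖ ^ (β - 2) * (E p.2 * ta P Q D p)) := by
      intro p hp hp1
      have hpA := hsub hp
      have hs1 : 0 < ‖p.1‖ := norm_pos_iff.2 hp1
      have h1 : K p.1 ≤ r ^ β / β * ‖p.1‖ ^ (-β) := (hKl p.1 hp1).trans (CORE_log hr hs1 hβ)
      have h2 : |K p.1 * lap E p.2 * U p| ≤ (r ^ β / β * ‖p.1‖ ^ (-β)) * |lap E p.2| * U p := by
        rw [abs_mul, abs_mul, abs_of_nonneg (hK0 _), abs_of_nonneg (hU0 _)]
        gcongr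
        exact hU0 p
      have hηd : ‖fderiv ℝ E p.2‖ = 2 * |η p.2| * ‖fderiv ℝ η p.2‖ := by
        have h3 : HasFDerivAt E ((2 * η p.2) • fderiv ℝ η p.2) p.2 := by
          have h4 := ((hη.differentiable (by simp)) p.2).hasFDerivAt.pow 2
          simpa [hEdef] using h4
        rw [h3.fderiv, norm_smul, Real.norm_eq_abs, abs_mul]
        simp
      have h5 : |X p| ≤ ‖fderiv ℝ K p.1‖ * (2 * |η p.2| * ‖fderiv ℝ η p.2‖) * ‖w1 P Q p‖ * ‖w2 P Q p‖ * (om P Q p / (2 * D)) := by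
        have a1 : |fderiv ℝ K p.1 (-(w2 P Q p))| ≤ ‖fderiv ℝ K p.1‖ * ‖w2 P Q p‖ := by
          have := (fderiv ℝ K p.1).le_opNorm (-(w2 P Q p))
          rwa [norm_neg, Real.norm_eq_abs] at this
        have a2 : |fderiv ℝ K p.1 (Complex.I * -(w2 P Q p))| ≤ ‖fderiv ℝ K p.1‖ * ‖w2 P Q p‖ := by
          have := (fderiv ℝ K p.1).le_opNorm (Complex.I * -(w2 P Q p))
          rwa [norm_mul, Complex.norm_I, one_mul, norm_neg, Real.norm_eq_abs] at this
        have a3 : |fderiv ℝ E p.2 (w1 P Q p)| ≤ ‖fderiv ℝ E p.2‖ * ‖w1 P Q p‖ := by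
          have := (fderiv ℝ E p.2).le_opNorm (w1 P Q p)
          rwa [Real.norm_eq_abs] at this
        have a4 : |fderiv ℝ E p.2 (Complex.I * w1 P Q p)| ≤ ‖fderiv ℝ E p.2‖ * ‖w1 P Q p‖ := by
          have := (fderiv ℝ E p.2).le_opNorm (Complex.I * w1 P Q p)
          rwa [norm_mul, Complex.norm_I, one_mul, Real.norm_eq_abs] at this
        have a5 : |fderiv ℝ K p.1 (-(w2 P Q p)) * fderiv ℝ E p.2 (w1 P Q p) +
            fderiv ℝ K p.1 (Complex.I * -(w2 P Q p)) * fderiv ℝ E p.2 (Complex.I * w1 P Q p)| ≤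
            2 * ((‖fderiv ℝ K p.1‖ * ‖w2 P Q p‖) * (‖fderiv ℝ E p.2‖ * ‖w1 P Q p‖)) := by
          refine (abs_add_le _ _).trans ?_
          rw [abs_mul, abs_mul, two_mul]
          gcongr
        have ho := hom p
        have e1 : X p = (fderiv ℝ K p.1 (-(w2 P Q p)) * fderiv ℝ E p.2 (w1 P Q p) +
            fderiv ℝ K p.1 (Complex.I * -(w2 P Q p)) * fderiv ℝ E p.2 (Complex.I * w1 P Q p)) * ((1 / 2) * (om P Q p / (2 * D))) := by
          simp only [hX]
          ring
        rw [e1, abs_mul, abs_of_nonneg (by positivity : 0 ≤ (1 / 2) * (om P Q p / (2 * D)))]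
        calc _ ≤ 2 * ((‖fderiv ℝ K p.1‖ * ‖w2 P Q p‖) * (‖fderiv ℝ E p.2‖ * ‖w1 P Q p‖)) * ((1 / 2) * (om P Q p / (2 * D))) := by gcongr
          _ = _ := by rw [hηd]; ring
      have h6 := CORE_cross (r := r) (ε := ε) (β := β) (l := l) (dk := ‖fderiv ℝ K p.1‖) (de := ‖fderiv ℝ η p.2‖) (e := |η p.2|) (t1 := ‖p.1‖)
        (t2 := 0) (o := om P Q p / (2 * D)) hr hs1 hlpos (div_nonneg (hom p) (by positivity)) (abs_nonneg _) (norm_nonneg _)
        (norm_nonneg (w1 P Q p)) (norm_nonneg (w2 P Q p)) (norm_nonneg _) (hKd p.1 hp1)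
      have eU : ‖w1 P Q p‖ ^ 2 * (om P Q p / (2 * D)) = U p := by
        simp only [hU, Complex.normSq_eq_norm_sq]
        field_simp
      have eT : ‖w2 P Q p‖ ^ 2 * (om P Q p / (2 * D)) = ta P Q D p := by
        simp only [ta, Complex.normSq_eq_norm_sq]
        field_simp
      rw [eU, eT, sq_abs] at h6
      have h7 : |K p.1 * lap E p.2 * U p + X p| ≤ (r ^ β / β * ‖p.1‖ ^ (-β)) * |lap E p.2| * U p +
          (4 * l * (‖p.1‖ ^ (β - 2) * (η p.2 ^ 2 * ta P Q D p)) + 4 / l * (‖fderiv ℝ η p.2‖ ^ 2 * (‖p.1‖ ^ (-β) * U p))) :=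
        (abs_add_le _ _).trans (add_le_add h2 (h5.trans h6))
      rw [Real.norm_eq_abs]
      simp only [hF]
      rw [abs_mul]
      calc |Ψ p| * |K p.1 * lap E p.2 * U p + X p| ≤ B * ((r ^ β / β * ‖p.1‖ ^ (-β)) * |lap E p.2| * U p +
          (4 * l * (‖p.1‖ ^ (β - 2) * (η p.2 ^ 2 * ta P Q D p)) + 4 / l * (‖fderiv ℝ η p.2‖ ^ 2 * (‖p.1‖ ^ (-β) * U p)))) := by
            apply mul_le_mul (hΨB p hpA) h7 (abs_nonneg _) hB
        _ = c p.2 * (‖p.1‖ ^ (-β) * U p) + 4 * B * l * (‖p.1‖ ^ (β - 2) * (E p.2 * ta P Q D p)) := by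
            simp only [hc, hEdef]
            field_simp
            ring
    -- the slices
    have hslice : ∀ z ∈ ball (0 : ℂ) R, ∫⁻ s in ball (0 : ℂ) r, ENNReal.ofReal (‖s‖ ^ (-β) * U (s, z)) ≤ ENNReal.ofReal (CL * r ^ (α - β)) := by
      intro z hz
      have dP : DifferentiableOn ℂ (fun s => P (s, z)) (ball 0 (4 * r)) := by
        intro s hs
        exact (CORE_slice1 hA hP (p := (s, z)) ⟨hs, hz⟩).differentiableAt.differentiableWithinAt
      have dQ : DifferentiableOn ℂ (fun s => Q (s, z)) (ball 0 (4 * r)) := by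
        intro s hs
        exact (CORE_slice1 hA hQ (p := (s, z)) ⟨hs, hz⟩).differentiableAt.differentiableWithinAt
      have hnz : ∀ s ∈ ball (0 : ℂ) (4 * r), P (s, z) ≠ 0 ∨ Q (s, z) ≠ 0 := fun s hs => hn (s, z) ⟨hs, hz⟩
      have hlapU : ∀ s ∈ ball (0 : ℂ) (4 * r), lap (fun s => uu P Q D (s, z)) s = U (s, z) := by
        intro s hs
        have h1 := CORE_lapu isOpen_ball dP dQ hD hnz hs
        have d1 : deriv (fun s => P (s, z)) s = fderiv ℂ P (s, z) (1, 0) := (CORE_slice1 hA hP (p := (s, z)) ⟨hs, hz⟩).deriv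
        have d2 : deriv (fun s => Q (s, z)) s = fderiv ℂ Q (s, z) (1, 0) := (CORE_slice1 hA hQ (p := (s, z)) ⟨hs, hz⟩).deriv
        rw [d1, d2] at h1
        exact h1
      have h2 := hL r (fun s => uu P Q D (s, z)) hr (CORE_smooth isOpen_ball dP dQ D hnz)
        (fun s hs => by rw [hlapU s hs]; exact hU0 _) (fun s hs s' hs' => hH s hs s' hs' z hz)
      refine le_trans (le_of_eq ?_) h2
      apply setLIntegral_congr_fun measurableSet_ball
      intro s hs
      show ENNReal.ofReal (‖s‖ ^ (-β) * U (s, z)) = ENNReal.ofReal (‖s‖ ^ (-β) * lap (fun s => uu P Q D (s, z)) s)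
      rw [hlapU s (ball_subset_ball (by linarith) hs)]
    have hTb : ∀ s ∈ ball (0 : ℂ) r, ∫ z, E z * ta P Q D (s, z) ≤ M / w := by
      intro s hs
      have := hM s hs
      rw [le_div_iff₀ hw, mul_comm]
      exact this
    have tonA := VC2_tonA (r := r) (cL := CL * r ^ (α - β)) (β := β) (U := U) hcc hc0 (cU.mono hsub) hslice
    have tonB := VC2_tonB (r := r) (cT := M / w) (β := β) (T := ta P Q D) hr hβ hE.continuous hE0 hsE cT hT0 hTb
    have hcI : Integrable c := by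
      apply hcc.integrable_of_hasCompactSupport
      apply HasCompactSupport.intro hkc
      intro z hz
      have h1 : fderiv ℝ η z = 0 := by
        rw [(hηz z hz).fderiv_eq]
        simp
      simp [hc, hElap z hz, h1]
    have hMEI : Integrable (fun z => |lap E z|) := by
      apply ((CORE_lapcont hE).abs).integrable_of_hasCompactSupport
      apply HasCompactSupport.intro hkc
      intro z hz
      simp [hElap z hz]
    have hMηI : Integrable (fun z => ‖fderiv ℝ η z‖ ^ 2) := by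
      apply (hdη.norm.pow 2).integrable_of_hasCompactSupport
      apply HasCompactSupport.intro hkc
      intro z hz
      have h1 : fderiv ℝ η z = 0 := by
        rw [(hηz z hz).fderiv_eq]
        simp
      simp [h1]
    have hcint : ∫⁻ z in ball (0 : ℂ) R, ENNReal.ofReal (c z) ≤ ENNReal.ofReal (B * (r ^ β / β) * MEl + 4 * B / l * Mη) := by
      calc ∫⁻ z in ball (0 : ℂ) R, ENNReal.ofReal (c z) ≤ ∫⁻ z, ENNReal.ofReal (c z) := setLIntegral_le_lintegral _ _
        _ = ENNReal.ofReal (∫ z, c z) := (ofReal_integral_eq_lintegral_ofReal hcI (by filter_upwards with z; exact hc0 z)).symm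
        _ = _ := by
          congr 1
          simp only [hc]
          rw [integral_add (hMEI.const_mul _) (hMηI.const_mul _), integral_const_mul, integral_const_mul, hMEl, hMη]
    have hbound : ∫⁻ p, ENNReal.ofReal ‖F p‖ ≤ ENNReal.ofReal (B * (r ^ β / β) * MEl + 4 * B / l * Mη) * ENNReal.ofReal (CL * r ^ (α - β)) +
        ENNReal.ofReal (4 * B * l) * (ENNReal.ofReal (2 * Real.pi * (r ^ β / β)) * ENNReal.ofReal (M / w)) := by
      have hnull : ∀ᵐ p : ℂ × ℂ, p.1 ≠ 0 := by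
        rw [ae_iff]
        have : {p : ℂ × ℂ | ¬p.1 ≠ 0} = {(0 : ℂ)} ×ˢ (univ : Set ℂ) := by
          ext p
          simp
        rw [this, Measure.volume_eq_prod, Measure.prod_prod]
        simp
      have hmB : AEMeasurable (fun p : ℂ × ℂ => ENNReal.ofReal (4 * B * l * (‖p.1‖ ^ (β - 2) * (E p.2 * ta P Q D p))))
          ((volume : Measure (ℂ × ℂ)).restrict (ball 0 r ×ˢ ball 0 R)) := by
        apply AEMeasurable.ennreal_ofReal
        apply AEMeasurable.const_mul
        apply AEMeasurable.mul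
        · exact ((continuous_fst.norm).measurable.pow_const (β - 2)).aemeasurable
        · apply AEMeasurable.mul
          · exact (hE.continuous.comp continuous_snd).measurable.aemeasurable
          · exact ((cT.mono hsub).aestronglyMeasurable hms).aemeasurable
      calc ∫⁻ p, ENNReal.ofReal ‖F p‖ = ∫⁻ p in ball (0 : ℂ) r ×ˢ ball (0 : ℂ) R, ENNReal.ofReal ‖F p‖ := by
            rw [← lintegral_indicator hms]
            apply lintegral_congr
            intro p
            by_cases hp : p ∈ ball (0 : ℂ) r ×ˢ ball (0 : ℂ) R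
            · rw [indicator_of_mem hp]
            · rw [indicator_of_notMem hp]
              have : F p = 0 := by
                apply hFz
                by_cases h2 : p.2 ∈ k
                · right
                  by_contra h
                  exact hp ⟨mem_ball_zero_iff.2 (not_le.1 h), hsη h2⟩
                · exact Or.inl h2
              simp [this]
        _ ≤ ∫⁻ p in ball (0 : ℂ) r ×ˢ ball (0 : ℂ) R, (ENNReal.ofReal (c p.2 * (‖p.1‖ ^ (-β) * U p)) +
              ENNReal.ofReal (4 * B * l * (‖p.1‖ ^ (β - 2) * (E p.2 * ta P Q D p)))) := by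
            apply setLIntegral_mono_ae' hms
            filter_upwards [hnull] with p hp0 hp
            exact (ENNReal.ofReal_le_ofReal (hpb p hp hp0)).trans ENNReal.ofReal_add_le
        _ = (∫⁻ p in ball (0 : ℂ) r ×ˢ ball (0 : ℂ) R, ENNReal.ofReal (c p.2 * (‖p.1‖ ^ (-β) * U p))) +
              ∫⁻ p in ball (0 : ℂ) r ×ˢ ball (0 : ℂ) R, ENNReal.ofReal (4 * B * l * (‖p.1‖ ^ (β - 2) * (E p.2 * ta P Q D p))) :=
            lintegral_add_right' _ hmB
        _ ≤ _ := by
            apply add_le_add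
            · refine tonA.trans ?_
              gcongr
            · have e : ∀ p : ℂ × ℂ, ENNReal.ofReal (4 * B * l * (‖p.1‖ ^ (β - 2) * (E p.2 * ta P Q D p))) =
                  ENNReal.ofReal (4 * B * l) * ENNReal.ofReal (‖p.1‖ ^ (β - 2) * (E p.2 * ta P Q D p)) := by
                intro p
                rw [ENNReal.ofReal_mul (by positivity)]
              simp only [e]
              rw [lintegral_const_mul' _ _ ENNReal.ofReal_ne_top]
              gcongr
    have hMEl0 : 0 ≤ MEl := by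
      rw [hMEl]
      exact integral_nonneg fun z => abs_nonneg _
    have hMη0 : 0 ≤ Mη := by
      rw [hMη]
      exact integral_nonneg fun z => by positivity
    have hreal : |∫ p, F p| ≤ (B * (r ^ β / β) * MEl + 4 * B / l * Mη) * (CL * r ^ (α - β)) +
        4 * B * l * (2 * Real.pi * (r ^ β / β) * (M / w)) := by
      have h1 := norm_integral_le_lintegral_norm (μ := (volume : Measure (ℂ × ℂ))) F
      rw [Real.norm_eq_abs] at h1
      refine h1.trans ?_
      apply ENNReal.toReal_le_of_le_ofReal (by positivity)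
      refine hbound.trans (le_of_eq ?_)
      rw [← ENNReal.ofReal_mul (by positivity), ← ENNReal.ofReal_mul (by positivity), ← ENNReal.ofReal_mul (by positivity), ← ENNReal.ofReal_add (by positivity) (by positivity)]
    have hrα : r ^ (α - β) = r ^ β := by
      congr 1
      linarith
    have hrr : r ^ β * r ^ β = r ^ α := by
      rw [← Real.rpow_add hr]
      congr 1
      linarith
    have hsq : (w * r ^ α) ^ (1 / 2 : ℝ) = l * r ^ β := by
      rw [← Real.sqrt_eq_rpow, Real.sqrt_mul hw.le, ← hrr, Real.sqrt_mul_self (by positivity)]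
    calc w * |∫ p, F p| ≤ w * ((B * (r ^ β / β) * MEl + 4 * B / l * Mη) * (CL * r ^ (α - β)) +
        4 * B * l * (2 * Real.pi * (r ^ β / β) * (M / w))) := by gcongr
      _ = _ := by
        rw [hsq, hrα, ← hrr, ← hll]
        field_simp
        ring
  -- conclusion
  have hc1 := hfub r hr le_rfl
  have hc2 := hfub ε hε hεr'
  have e3 : (∫ s, K s * (w * ∫ z, η z ^ 2 * (lev Ψ (s, z) (ev P Q (s, z)) * om P Q (s, z) / (2 * D)))) = w * ∫ p, K p.1 * (E p.2 * G p) := by
    rw [hKhE, ← integral_const_mul]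
    apply integral_congr_ae
    filter_upwards with s
    simp only [hhh, hG, hEdef]
    ring
  rw [e3, ← hc1, ← hc2]
  have h10 : w * (∫ p, f r p) - w * (∫ p, f ε p) - w * (∫ p, K p.1 * (E p.2 * G p)) = -(w * ∫ p, F p) := by
    rw [← hmain]
    ring
  rw [h10, abs_neg, abs_mul, abs_of_pos hw]
  exact hle

theorem VC2 (hIBP : IBP_stmt) (hLHM : LHM_stmt) : VC2_stmt := by
  intro C0 α M R hC0 hα hα1 hM0 hR η hη hsη
  have hβ : 0 < α / 2 := by positivity
  obtain ⟨CL, hCL, hL⟩ := hLHM C0 α (α / 2) hC0 hβ.le (by linarith) hα1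
  set β : ℝ := α / 2 with hβdef
  have hαβ : α = 2 * β := by rw [hβdef]; ring
  set MEl : ℝ := ∫ z, |lap (fun z => η z ^ 2) z| with hMEl
  set Mη : ℝ := ∫ z, ‖fderiv ℝ η z‖ ^ 2 with hMη
  have hMEl0 : 0 ≤ MEl := integral_nonneg fun z => abs_nonneg _
  have hMη0 : 0 ≤ Mη := integral_nonneg fun z => by positivity
  refine ⟨MEl * CL / β + (4 * Mη * CL + 8 * M * Real.pi / β), by positivity, ?_⟩
  intro r δ D w B K P Q Ψ hr hr1 hδ hδr hKr hD hw hB hP hQ hn hH hM hΨ hΨB
  have hst := VC2_step hIBP hβ hαβ hCL hη hsη hL hMEl hMη hr hr1 hD hw hB hP hQ hn hH hM0 hM hΨ hΨB hδ hδr hKr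
  refine hst.trans ?_
  have hx : 0 ≤ w * r ^ α := by positivity
  have hx2 : 0 ≤ (w * r ^ α) ^ (1 / 2 : ℝ) := by positivity
  have a1 : 0 ≤ MEl * CL / β := by positivity
  have a2 : 0 ≤ 4 * Mη * CL + 8 * M * Real.pi / β := by positivity
  have a3 := mul_nonneg (mul_nonneg a1 hx2) hB
  have a4 := mul_nonneg (mul_nonneg a2 hx) hB
  nlinarith

end Pool.Agent.P2V
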